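import Pool.Agent.Helper83.CDM.Conf

/-! From a contracted difference matrix to the combinatorial system. -/
namespace CDM

abbrev GG : Type := ZMod 4 × ZMod 4 × ZMod 2 × ZMod 2

def p0 (g : GG) : Bool := decide (g.1 = 1 ∨ g.1 = 3)
def p1 (g : GG) : Bool := decide (g.2.1 = 1 ∨ g.2.1 = 3)
def p2 (g : GG) : Bool := decide (g.2.2.1 = 1)
def p3 (g : GG) : Bool := decide (g.2.2.2 = 1)

theorem z4add : ∀ x y : ZMod 4, decide (x + y = 1 ∨ x + y = 3) = (decide (x = 1 ∨ x = 3) ^^ decide (y = 1 ∨ y = 3)) := by decide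
theorem z2add : ∀ x y : ZMod 2, decide (x + y = 1) = (decide (x = 1) ^^ decide (y = 1)) := by decide

theorem p0_add (g h : GG) : p0 (g + h) = (p0 g ^^ p0 h) := z4add g.1 h.1
theorem p1_add (g h : GG) : p1 (g + h) = (p1 g ^^ p1 h) := z4add g.2.1 h.2.1
theorem p2_add (g h : GG) : p2 (g + h) = (p2 g ^^ p2 h) := z2add g.2.2.1 h.2.2.1
theorem p3_add (g h : GG) : p3 (g + h) = (p3 g ^^ p3 h) := z2add g.2.2.2 h.2.2.2
theorem p0_zero : p0 0 = false := by decide
theorem p1_zero : p1 0 = false := by decide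
theorem p2_zero : p2 0 = false := by decide
theorem p3_zero : p3 0 = false := by decide

/-- a parity functional -/
structure Par (p : GG → Bool) : Prop where
  add : ∀ g h, p (g + h) = (p g ^^ p h)
  zero : p 0 = false

theorem par0 : Par p0 := ⟨p0_add, p0_zero⟩
theorem par1 : Par p1 := ⟨p1_add, p1_zero⟩
theorem par2 : Par p2 := ⟨p2_add, p2_zero⟩
theorem par3 : Par p3 := ⟨p3_add, p3_zero⟩

/-- the word of a row -/
def wd (p : GG → Bool) (m : ℕ → GG) : ℕ := (p (m 0)).toNat + 2 * (p (m 1)).toNat + 4 * (p (m 2)).toNat + 8 * (p (m 3)).toNat +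
  16 * (p (m 4)).toNat + 32 * (p (m 5)).toNat

theorem wd_lt (p : GG → Bool) (m : ℕ → GG) : wd p m < 64 := by
  unfold wd
  have := fun j => Bool.toNat_le (p (m j))
  have h0 := this 0; have h1 := this 1; have h2 := this 2; have h3 := this 3; have h4 := this 4; have h5 := this 5
  omega

theorem t_wd0 : ∀ b0 b1 b2 b3 b4 b5 : Bool, ∀ j < 6, (b0.toNat + 2 * b1.toNat + 4 * b2.toNat + 8 * b3.toNat + 16 * b4.toNat +
    32 * b5.toNat).testBit j = (if j = 0 then b0 else if j = 1 then b1 else if j = 2 then b2 else if j = 3 then b3 else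
      if j = 4 then b4 else b5) := by decide

theorem t_wd (p : GG → Bool) (m : ℕ → GG) {j : ℕ} (hj : j < 6) : (wd p m).testBit j = p (m j) := by
  unfold wd
  rw [t_wd0 _ _ _ _ _ _ j hj]
  interval_cases j <;> rfl

/-- integer indicator of a mask -/
def bi (a : ℕ) (i : ℕ) : ℤ := if a.testBit i = true then 1 else 0

def VV (M : ℕ → ℕ → GG) (s t : ℕ → ℤ) : GG := ∑ i ∈ Finset.range 4, s i • ∑ j ∈ Finset.range 6, t j • M i j

section
variable {M : ℕ → ℕ → GG}

theorem VV_add_left (s s' t : ℕ → ℤ) : VV M (fun i => s i + s' i) t = VV M s t + VV M s' t := by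
  unfold VV; rw [← Finset.sum_add_distrib]; exact Finset.sum_congr rfl (fun i _ => add_smul _ _ _)
theorem VV_smul_left (c : ℤ) (s t : ℕ → ℤ) : VV M (fun i => c * s i) t = c • VV M s t := by
  unfold VV; rw [Finset.smul_sum]; exact Finset.sum_congr rfl (fun i _ => mul_smul _ _ _)
theorem VV_add_right (s t t' : ℕ → ℤ) : VV M s (fun j => t j + t' j) = VV M s t + VV M s t' := by
  unfold VV; rw [← Finset.sum_add_distrib]
  refine Finset.sum_congr rfl (fun i _ => ?_)
  rw [← smul_add, ← Finset.sum_add_distrib]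
  congr 1
  exact Finset.sum_congr rfl (fun j _ => add_smul _ _ _)
theorem VV_smul_right (c : ℤ) (s t : ℕ → ℤ) : VV M s (fun j => c * t j) = c • VV M s t := by
  unfold VV; rw [Finset.smul_sum]
  refine Finset.sum_congr rfl (fun i _ => ?_)
  have e : ∑ j ∈ Finset.range 6, (c * t j) • M i j = c • ∑ j ∈ Finset.range 6, t j • M i j := by
    rw [Finset.smul_sum]
    exact Finset.sum_congr rfl (fun j _ => mul_smul c (t j) (M i j))
  rw [e, smul_comm]

theorem VV_congr_left {s s' : ℕ → ℤ} (h : ∀ i < 4, s i = s' i) (t : ℕ → ℤ) : VV M s t = VV M s' t := by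
  unfold VV; exact Finset.sum_congr rfl (fun i hi => by rw [h i (Finset.mem_range.mp hi)])
theorem VV_congr_right (s : ℕ → ℤ) {t t' : ℕ → ℤ} (h : ∀ j < 6, t j = t' j) : VV M s t = VV M s t' := by
  unfold VV
  exact Finset.sum_congr rfl (fun i _ => by
    congr 1
    exact Finset.sum_congr rfl (fun j hj => by rw [h j (Finset.mem_range.mp hj)]))

/-- the value for two masks -/
def VM (M : ℕ → ℕ → GG) (a y : ℕ) : GG := VV M (bi a) (bi y)

theorem par_sum {p : GG → Bool} (hp : Par p) (y : ℕ) (m : ℕ → GG) :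
    p (∑ j ∈ Finset.range 6, bi y j • m j) = dotB (wd p m) y := by
  have key : ∀ j, p (bi y j • m j) = (p (m j) && y.testBit j) := by
    intro j
    unfold bi
    cases y.testBit j
    · simp [hp.zero]
    · simp
  simp only [Finset.sum_range_succ, Finset.sum_range_zero, zero_add, hp.add, key]
  unfold dotB
  rw [t_wd p m (by norm_num), t_wd p m (by norm_num), t_wd p m (by norm_num), t_wd p m (by norm_num), t_wd p m (by norm_num),
    t_wd p m (by norm_num)]
  simp only [Bool.xor_assoc]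

theorem par_VM {p : GG → Bool} (hp : Par p) (a y : ℕ) : p (VM M a y) = dotB (PW (fun k => wd p (M k)) a) y := by
  rw [dotB_PW]
  unfold VM VV
  have key : ∀ i, p (bi a i • ∑ j ∈ Finset.range 6, bi y j • M i j) = (a.testBit i && dotB (wd p (M i)) y) := by
    intro i
    rw [← par_sum hp]
    unfold bi
    cases a.testBit i
    · simp [hp.zero]
    · simp
  simp only [Finset.sum_range_succ, Finset.sum_range_zero, zero_add, hp.add] at key ⊢
  rw [key 0, key 1, key 2, key 3]
  simp only [Bool.xor_assoc]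

/-- the non-vanishing property -/
def NV (M : ℕ → ℕ → GG) : Prop := ∀ s t : ℕ → ℤ, (∀ i < 4, s i = -1 ∨ s i = 0 ∨ s i = 1) → (∀ j < 6, t j = -1 ∨ t j = 0 ∨ t j = 1) →
  (∃ i < 4, s i ≠ 0) → (∃ j < 6, t j ≠ 0) → VV M s t ≠ 0

theorem bit_of_pos16 : ∀ a < 16, 0 < a → ∃ i < 4, a.testBit i = true := by decide
theorem bit_of_pos64 : ∀ a < 64, 0 < a → ∃ i < 6, a.testBit i = true := by decide +kernel

theorem bit_ne16 {a b : ℕ} (ha : a < 16) (hb : b < 16) (h : a ≠ b) : ∃ i < 4, a.testBit i ≠ b.testBit i := by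
  obtain ⟨i, hi, h1⟩ := bit_of_pos16 (a ^^^ b) (Sys.xor_lt16 ha hb) (Sys.xor_pos h)
  refine ⟨i, hi, ?_⟩
  rw [Nat.testBit_xor] at h1
  intro h2; rw [h2] at h1; simp at h1

theorem bit_ne64 {a b : ℕ} (ha : a < 64) (hb : b < 64) (h : a ≠ b) : ∃ i < 6, a.testBit i ≠ b.testBit i := by
  obtain ⟨i, hi, h1⟩ := bit_of_pos64 (a ^^^ b) (Sys.xor_lt ha hb) (Sys.xor_pos h)
  refine ⟨i, hi, ?_⟩
  rw [Nat.testBit_xor] at h1
  intro h2; rw [h2] at h1; simp at h1

theorem bi_mem (a i : ℕ) : bi a i = -1 ∨ bi a i = 0 ∨ bi a i = 1 := by unfold bi; split_ifs <;> simp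

theorem inj_col (H : NV M) {a y y' : ℕ} (ha : 0 < a) (ha' : a < 16) (hy : y < 64) (hy' : y' < 64) (h : VM M a y = VM M a y') : y = y' := by
  by_contra hne
  obtain ⟨i, hi, hi2⟩ := bit_of_pos16 a ha' ha
  obtain ⟨j, hj, hj2⟩ := bit_ne64 hy hy' hne
  apply H (bi a) (fun j => bi y j + (-1) * bi y' j) (fun i _ => bi_mem a i)
  · intro j _
    simp only [bi]; split_ifs <;> simp
  · exact ⟨i, hi, by unfold bi; rw [hi2]; simp⟩
  · refine ⟨j, hj, ?_⟩
    simp only [bi]
    revert hj2
    cases y.testBit j <;> cases y'.testBit j <;> simp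
  · rw [VV_add_right, VV_smul_right]
    show VM M a y + (-1 : ℤ) • VM M a y' = 0
    rw [h]; simp

theorem inj_row (H : NV M) {a a' y : ℕ} (hy : 0 < y) (hy' : y < 64) (ha : a < 16) (ha' : a' < 16) (h : VM M a y = VM M a' y) : a = a' := by
  by_contra hne
  obtain ⟨j, hj, hj2⟩ := bit_of_pos64 y hy' hy
  obtain ⟨i, hi, hi2⟩ := bit_ne16 ha ha' hne
  apply H (fun j => bi a j + (-1) * bi a' j) (bi y)
  · intro j _
    simp only [bi]; split_ifs <;> simp
  · exact (fun i _ => bi_mem y i)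
  · refine ⟨i, hi, ?_⟩
    simp only [bi]
    revert hi2
    cases a.testBit i <;> cases a'.testBit i <;> simp
  · exact ⟨j, hj, by unfold bi; rw [hj2]; simp⟩
  · rw [VV_add_left, VV_smul_left]
    show VM M a y + (-1 : ℤ) • VM M a' y = 0
    rw [h]; simp

theorem sub_bit {K a i : ℕ} (h : K &&& a = K) (hi : K.testBit i = true) : a.testBit i = true := by
  have := congrArg (fun z => Nat.testBit z i) h
  simp only [Nat.testBit_and, hi, Bool.true_and] at this
  exact this

theorem flip (H : NV M) {a y K J : ℕ} (ha : 0 < a) (ha' : a < 16) (hy : 0 < y) (hy' : y < 64) (hK : K &&& a = K) (hJ : J &&& y = J) :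
    VM M a y + (-2 : ℤ) • VM M K y + (-2 : ℤ) • (VM M a J + (-2 : ℤ) • VM M K J) ≠ 0 := by
  obtain ⟨i, hi, hi2⟩ := bit_of_pos16 a ha' ha
  obtain ⟨j, hj, hj2⟩ := bit_of_pos64 y hy' hy
  have h := H (fun i => bi a i + (-2) * bi K i) (fun j => bi y j + (-2) * bi J j)
  have e : VV M (fun i => bi a i + (-2) * bi K i) (fun j => bi y j + (-2) * bi J j) =
      VM M a y + (-2 : ℤ) • VM M K y + (-2 : ℤ) • (VM M a J + (-2 : ℤ) • VM M K J) := by
    rw [VV_add_right, VV_smul_right, VV_add_left, VV_smul_left, VV_add_left, VV_smul_left]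
    rfl
  rw [e] at h
  refine h ?_ ?_ ?_ ?_
  · intro i _
    simp only [bi]
    have := fun h' => sub_bit (i := i) hK h'
    revert this
    cases a.testBit i <;> cases K.testBit i <;> simp
  · intro i _
    simp only [bi]
    have := fun h' => sub_bit (i := i) hJ h'
    revert this
    cases y.testBit i <;> cases J.testBit i <;> simp
  · refine ⟨i, hi, ?_⟩
    simp only [bi, hi2, if_true]
    split_ifs <;> norm_num
  · refine ⟨j, hj, ?_⟩
    simp only [bi, hj2, if_true]
    split_ifs <;> norm_num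

theorem VM_xor (a y y' : ℕ) : VM M a y + VM M a y' = VM M a (y ^^^ y') + (2 : ℤ) • VM M a (y &&& y') := by
  unfold VM
  rw [← VV_smul_right, ← VV_add_right, ← VV_add_right]
  apply VV_congr_right
  intro j _
  simp only [bi, Nat.testBit_xor, Nat.testBit_and]
  cases y.testBit j <;> cases y'.testBit j <;> simp

end

end CDM
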