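import Pool.Agent.Helper83.CDM.Engine
import Pool.Agent.Helper83.CDM.Run05

/-! The import of an earlier module only limits the number of modules checked at the same time. -/
set_option maxRecDepth 1000000
namespace CDM
theorem run009 : chk 8454660 2 3 1 [3] false false true 3 (ysC 1 2 3) 1 2 3 47059 62675 = true := by decide +kernel
end CDM
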