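import Pool.Agent.Helper83.CDM.Engine
import Pool.Agent.Helper83.CDM.Run06

/-! The import of an earlier module only limits the number of modules checked at the same time. -/
set_option maxRecDepth 1000000
namespace CDM
theorem run010 : chk 8454660 2 3 1 [3] false false true 3 (ysC 1 2 3) 1 2 3 62675 65536 = true := by decide +kernel
theorem run011 : chkZ 8454660 2 1 3 false 1 2 0 = true := by decide +kernel
theorem run012 : chkZ 8454660 2 1 3 false 1 2 1 = true := by decide +kernel
theorem run013 : chkZ 8454660 2 1 3 false 1 2 2 = true := by decide +kernel
end CDM
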