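import Pool.Agent.Helper83.CDM.Engine
import Pool.Agent.Helper83.CDM.Run28

/-! The import of an earlier module only limits the number of modules checked at the same time. -/
set_option maxRecDepth 1000000
namespace CDM
theorem run051 : chk 8454790 2 3 1 [3] false false true 15 (ysC 1 14 15) 1 14 15 54592 65536 = true := by decide +kernel
theorem run052 : chkZ 8454790 2 1 3 false 1 14 0 = true := by decide +kernel
theorem run053 : chkZ 8454790 2 1 3 false 1 14 1 = true := by decide +kernel
theorem run054 : chkZ 8454790 2 1 3 false 1 14 2 = true := by decide +kernel
end CDM
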