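import Pool.Agent.Helper83.CDM.Engine
import Pool.Agent.Helper83.CDM.Run32

/-! The import of an earlier module only limits the number of modules checked at the same time. -/
set_option maxRecDepth 1000000
namespace CDM
theorem run073 : chkZ 8462982 2 1 15 true 1 30 0 = true := by decide +kernel
theorem run074 : chkZ 8462982 2 1 15 true 1 30 1 = true := by decide +kernel
theorem run075 : chkZ 8462982 2 1 15 true 1 30 2 = true := by decide +kernel
theorem run076 : chkZ 8462982 2 1 15 true 1 30 3 = true := by decide +kernel
theorem run077 : chkZ 8462982 2 1 15 true 1 30 4 = true := by decide +kernel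
theorem run078 : chkZ 8462982 2 1 15 true 1 30 5 = true := by decide +kernel
end CDM
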