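import Pool.Agent.Helper83.CDM.Engine
import Pool.Agent.Helper83.CDM.Run44

/-! The import of an earlier module only limits the number of modules checked at the same time. -/
set_option maxRecDepth 1000000
namespace CDM
theorem run111 : chkZ 8471299 4 1 15 true 3 28 3 = true := by decide +kernel
theorem run112 : chkZ 8471299 4 1 15 true 3 28 4 = true := by decide +kernel
theorem run113 : chkZ 8471299 4 1 15 true 3 28 5 = true := by decide +kernel
end CDM
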