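import Pool.Agent.Helper83.CDM.Engine
import Pool.Agent.Helper83.CDM.Run60

/-! The import of an earlier module only limits the number of modules checked at the same time. -/
set_option maxRecDepth 1000000
namespace CDM
theorem run133 : chkZ 8454663 3 2 15 true 3 5 1 = true := by decide +kernel
theorem run134 : chkZ 8454663 3 2 15 true 3 5 2 = true := by decide +kernel
theorem run135 : chkZ 8454663 3 2 15 true 3 5 3 = true := by decide +kernel
theorem run136 : chkZ 8454663 3 2 15 true 3 5 4 = true := by decide +kernel
theorem run137 : chkZ 8454663 3 2 15 true 3 5 5 = true := by decide +kernel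
end CDM
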