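import Pool.Agent.Helper83.CDM.Engine
import Pool.Agent.Helper83.CDM.Run68

/-! The import of an earlier module only limits the number of modules checked at the same time. -/
set_option maxRecDepth 1000000
namespace CDM
theorem run147 : chkZ 8454855 3 2 3 false 3 13 3 = true := by decide +kernel
theorem run148 : chkZ 8454855 3 2 3 false 3 13 4 = true := by decide +kernel
theorem run149 : chkZ 8454855 3 2 3 false 3 13 5 = true := by decide +kernel
end CDM
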