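import Pool.Agent.Helper83.CDM.Engine
import Pool.Agent.Helper83.CDM.Run72

/-! The import of an earlier module only limits the number of modules checked at the same time. -/
set_option maxRecDepth 1000000
namespace CDM
theorem run169 : chkZ 8467143 3 2 15 true 3 29 3 = true := by decide +kernel
theorem run170 : chkZ 8467143 3 2 15 true 3 29 4 = true := by decide +kernel
theorem run171 : chkZ 8467143 3 2 15 true 3 29 5 = true := by decide +kernel
theorem run172 : chk 8467142 3 3 2 [3] false false true 31 (ysC 7 25 30) 7 25 30 0 65536 = true := by decide +kernel
theorem run173 : chkZ 8467142 3 2 3 false 7 25 0 = true := by decide +kernel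
theorem run174 : chkZ 8467142 3 2 3 false 7 25 1 = true := by decide +kernel
theorem run175 : chkZ 8467142 3 2 3 false 7 25 2 = true := by decide +kernel
theorem run176 : chkZ 8467142 3 2 3 false 7 25 3 = true := by decide +kernel
theorem run177 : chkZ 8467142 3 2 3 false 7 25 4 = true := by decide +kernel
theorem run178 : chkZ 8467142 3 2 3 false 7 25 5 = true := by decide +kernel
end CDM
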