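import Pool.Agent.Helper83.CDM.Engine
import Pool.Agent.Helper83.CDM.Run25

/-! The import of an earlier module only limits the number of modules checked at the same time. -/
set_option maxRecDepth 1000000
namespace CDM
theorem run045 : chkZ 8454662 2 1 15 true 1 6 2 = true := by decide +kernel
theorem run046 : chkZ 8454662 2 1 15 true 1 6 3 = true := by decide +kernel
theorem run047 : chkZ 8454662 2 1 15 true 1 6 4 = true := by decide +kernel
theorem run048 : chkZ 8454662 2 1 15 true 1 6 5 = true := by decide +kernel
end CDM
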