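import Pool.Agent.Helper83.CDM.Engine
import Pool.Agent.Helper83.CDM.Run73

/-! The import of an earlier module only limits the number of modules checked at the same time. -/
set_option maxRecDepth 1000000
namespace CDM
theorem run179 : chk 8467142 3 15 2 [15] false true true 31 (ysC 7 25 30) 7 25 30 0 65536 = true := by decide +kernel
theorem run180 : chkZ 8467142 3 2 15 true 7 25 0 = true := by decide +kernel
theorem run181 : chkZ 8467142 3 2 15 true 7 25 1 = true := by decide +kernel
theorem run182 : chkZ 8467142 3 2 15 true 7 25 2 = true := by decide +kernel
theorem run183 : chkZ 8467142 3 2 15 true 7 25 3 = true := by decide +kernel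
theorem run184 : chkZ 8467142 3 2 15 true 7 25 4 = true := by decide +kernel
theorem run185 : chkZ 8467142 3 2 15 true 7 25 5 = true := by decide +kernel
end CDM
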