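import Pool.Agent.Helper83.CDM.Engine
import Pool.Agent.Helper83.CDM.Run10

/-! The import of an earlier module only limits the number of modules checked at the same time. -/
set_option maxRecDepth 1000000
namespace CDM
theorem run019 : chk 8454660 2 15 1 [15] false true true 3 (ysC 1 2 3) 1 2 3 49680 65536 = true := by decide +kernel
theorem run020 : chkZ 8454660 2 1 15 true 1 2 0 = true := by decide +kernel
theorem run021 : chkZ 8454660 2 1 15 true 1 2 1 = true := by decide +kernel
theorem run022 : chkZ 8454660 2 1 15 true 1 2 2 = true := by decide +kernel
theorem run023 : chkZ 8454660 2 1 15 true 1 2 3 = true := by decide +kernel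
theorem run024 : chkZ 8454660 2 1 15 true 1 2 4 = true := by decide +kernel
end CDM
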