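import Pool.Agent.Helper83.CDM.Engine
import Pool.Agent.Helper83.CDM.Run42

/-! The import of an earlier module only limits the number of modules checked at the same time. -/
set_option maxRecDepth 1000000
namespace CDM
theorem run093 : chk 8454915 4 15 1 [15] false true true 15 (ysC 3 12 15) 3 12 15 56468 65536 = true := by decide +kernel
theorem run094 : chkZ 8454915 4 1 15 true 3 12 0 = true := by decide +kernel
theorem run095 : chkZ 8454915 4 1 15 true 3 12 1 = true := by decide +kernel
theorem run096 : chkZ 8454915 4 1 15 true 3 12 2 = true := by decide +kernel
theorem run097 : chkZ 8454915 4 1 15 true 3 12 3 = true := by decide +kernel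
theorem run098 : chkZ 8454915 4 1 15 true 3 12 4 = true := by decide +kernel
theorem run099 : chkZ 8454915 4 1 15 true 3 12 5 = true := by decide +kernel
end CDM
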