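import Pool.Agent.Helper83.CDM.Engine
import Pool.Agent.Helper83.CDM.Run70

/-! The import of an earlier module only limits the number of modules checked at the same time. -/
set_option maxRecDepth 1000000
namespace CDM
theorem run151 : chk 8454855 3 15 2 [15] false true true 15 (ysC 3 13 14) 3 13 14 56468 65536 = true := by decide +kernel
theorem run152 : chkZ 8454855 3 2 15 true 3 13 0 = true := by decide +kernel
theorem run153 : chkZ 8454855 3 2 15 true 3 13 1 = true := by decide +kernel
theorem run154 : chkZ 8454855 3 2 15 true 3 13 2 = true := by decide +kernel
theorem run155 : chkZ 8454855 3 2 15 true 3 13 3 = true := by decide +kernel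
theorem run156 : chkZ 8454855 3 2 15 true 3 13 4 = true := by decide +kernel
theorem run157 : chkZ 8454855 3 2 15 true 3 13 5 = true := by decide +kernel
end CDM
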