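import Pool.Agent.Helper83.CDM.Engine
import Pool.Agent.Helper83.CDM.Run98

/-! The import of an earlier module only limits the number of modules checked at the same time. -/
set_option maxRecDepth 1000000
namespace CDM
theorem run210 : chk 8462982 2 0 2 [0, 3, 5, 6, 9, 10, 12, 15] true true false 1 (ysC 1 30 31) 1 30 31 0 65536 = true := by decide +kernel
end CDM
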