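import Pool.Agent.Helper83.CDM.Engine
import Pool.Agent.Helper83.CDM.Run07

/-! The import of an earlier module only limits the number of modules checked at the same time. -/
set_option maxRecDepth 1000000
namespace CDM
theorem run014 : chkZ 8454660 2 1 3 false 1 2 3 = true := by decide +kernel
theorem run015 : chkZ 8454660 2 1 3 false 1 2 4 = true := by decide +kernel
theorem run016 : chkZ 8454660 2 1 3 false 1 2 5 = true := by decide +kernel
end CDM
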