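import Pool.Agent.Helper83.CDM.Engine
import Pool.Agent.Helper83.CDM.Run31

/-! The import of an earlier module only limits the number of modules checked at the same time. -/
set_option maxRecDepth 1000000
namespace CDM
theorem run062 : chkZ 8454790 2 1 15 true 1 14 3 = true := by decide +kernel
theorem run063 : chkZ 8454790 2 1 15 true 1 14 4 = true := by decide +kernel
theorem run064 : chkZ 8454790 2 1 15 true 1 14 5 = true := by decide +kernel
theorem run065 : chk 8462982 2 3 1 [3] false false true 31 (ysC 1 30 31) 1 30 31 0 65536 = true := by decide +kernel
theorem run066 : chkZ 8462982 2 1 3 false 1 30 0 = true := by decide +kernel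
theorem run067 : chkZ 8462982 2 1 3 false 1 30 1 = true := by decide +kernel
theorem run068 : chkZ 8462982 2 1 3 false 1 30 2 = true := by decide +kernel
theorem run069 : chkZ 8462982 2 1 3 false 1 30 3 = true := by decide +kernel
theorem run070 : chkZ 8462982 2 1 3 false 1 30 4 = true := by decide +kernel
theorem run071 : chkZ 8462982 2 1 3 false 1 30 5 = true := by decide +kernel
theorem run072 : chk 8462982 2 15 1 [15] false true true 31 (ysC 1 30 31) 1 30 31 0 65536 = true := by decide +kernel
end CDM
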