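import Pool.Agent.Helper83.CDM.Engine
import Pool.Agent.Helper83.CDM.Run39

/-! The import of an earlier module only limits the number of modules checked at the same time. -/
set_option maxRecDepth 1000000
namespace CDM
theorem run085 : chk 8454915 4 3 1 [3] false false true 15 (ysC 3 12 15) 3 12 15 60100 65536 = true := by decide +kernel
theorem run086 : chkZ 8454915 4 1 3 false 3 12 0 = true := by decide +kernel
end CDM
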