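import Pool.Agent.Helper83.CDM.Engine
import Pool.Agent.Helper83.CDM.Run43

/-! The import of an earlier module only limits the number of modules checked at the same time. -/
set_option maxRecDepth 1000000
namespace CDM
theorem run100 : chk 8471299 4 3 1 [3] false false true 31 (ysC 3 28 31) 3 28 31 0 65536 = true := by decide +kernel
theorem run101 : chkZ 8471299 4 1 3 false 3 28 0 = true := by decide +kernel
theorem run102 : chkZ 8471299 4 1 3 false 3 28 1 = true := by decide +kernel
theorem run103 : chkZ 8471299 4 1 3 false 3 28 2 = true := by decide +kernel
theorem run104 : chkZ 8471299 4 1 3 false 3 28 3 = true := by decide +kernel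
theorem run105 : chkZ 8471299 4 1 3 false 3 28 4 = true := by decide +kernel
theorem run106 : chkZ 8471299 4 1 3 false 3 28 5 = true := by decide +kernel
theorem run107 : chk 8471299 4 15 1 [15] false true true 31 (ysC 3 28 31) 3 28 31 0 65536 = true := by decide +kernel
theorem run108 : chkZ 8471299 4 1 15 true 3 28 0 = true := by decide +kernel
theorem run109 : chkZ 8471299 4 1 15 true 3 28 1 = true := by decide +kernel
theorem run110 : chkZ 8471299 4 1 15 true 3 28 2 = true := by decide +kernel
end CDM
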