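import Pool.Agent.Helper83.CDM.Engine
import Pool.Agent.Helper83.CDM.Run59

/-! The import of an earlier module only limits the number of modules checked at the same time. -/
set_option maxRecDepth 1000000
namespace CDM
theorem run131 : chk 8454663 3 15 2 [15] false true true 7 (ysC 3 5 6) 3 5 6 60272 65536 = true := by decide +kernel
theorem run132 : chkZ 8454663 3 2 15 true 3 5 0 = true := by decide +kernel
end CDM
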