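import Pool.Agent.Helper83.CDM.Engine
import Pool.Agent.Helper83.CDM.Run71

/-! The import of an earlier module only limits the number of modules checked at the same time. -/
set_option maxRecDepth 1000000
namespace CDM
theorem run158 : chk 8467143 3 3 2 [3] false false true 31 (ysC 3 29 30) 3 29 30 0 65536 = true := by decide +kernel
theorem run159 : chkZ 8467143 3 2 3 false 3 29 0 = true := by decide +kernel
theorem run160 : chkZ 8467143 3 2 3 false 3 29 1 = true := by decide +kernel
theorem run161 : chkZ 8467143 3 2 3 false 3 29 2 = true := by decide +kernel
theorem run162 : chkZ 8467143 3 2 3 false 3 29 3 = true := by decide +kernel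
theorem run163 : chkZ 8467143 3 2 3 false 3 29 4 = true := by decide +kernel
theorem run164 : chkZ 8467143 3 2 3 false 3 29 5 = true := by decide +kernel
theorem run165 : chk 8467143 3 15 2 [15] false true true 31 (ysC 3 29 30) 3 29 30 0 65536 = true := by decide +kernel
theorem run166 : chkZ 8467143 3 2 15 true 3 29 0 = true := by decide +kernel
theorem run167 : chkZ 8467143 3 2 15 true 3 29 1 = true := by decide +kernel
theorem run168 : chkZ 8467143 3 2 15 true 3 29 2 = true := by decide +kernel
end CDM
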