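import Pool.Agent.Helper83.CDM.Engine
import Pool.Agent.Helper83.CDM.Run108

/-! The import of an earlier module only limits the number of modules checked at the same time. -/
set_option maxRecDepth 1000000
namespace CDM
theorem run221 : chk 8487235 8 0 8 [0, 3, 5, 6, 9, 10, 12, 15] true true false 7 (ysC 7 24 31) 7 24 31 0 65536 = true := by decide +kernel
theorem run222 : chk 8425795 16 0 16 [0, 3, 5, 6, 9, 10, 12, 15] true true false 15 (ysC 15 16 31) 15 16 31 0 65536 = true := by decide +kernel
end CDM
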