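import Pool.Agent.Helper83.CDM.Engine
import Pool.Agent.Helper83.CDM.Run107

/-! The import of an earlier module only limits the number of modules checked at the same time. -/
set_option maxRecDepth 1000000
namespace CDM
theorem run220 : chk 8454467 8 0 8 [12, 15] true true false 7 (ysC 7 8 15) 7 8 15 0 65536 = true := by decide +kernel
end CDM
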