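import Pool.Agent.Helper83.CDM.Engine
import Pool.Agent.Helper83.CDM.Run115

/-! The import of an earlier module only limits the number of modules checked at the same time. -/
set_option maxRecDepth 1000000
namespace CDM
theorem run229 : chk 8454660 3 0 3 [6] true true false 3 (ysC 3 1 2) 3 1 2 0 54321 = true := by decide +kernel
end CDM
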