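import Pool.Agent.Helper83.CDM.Engine
import Pool.Agent.Helper83.CDM.Run124

/-! The import of an earlier module only limits the number of modules checked at the same time. -/
set_option maxRecDepth 1000000
namespace CDM
theorem run238 : chk 8454660 3 0 3 [15] true true false 3 (ysC 3 1 2) 3 1 2 56131 65536 = true := by decide +kernel
theorem run239 : chk 8454663 3 0 3 [0, 3, 5, 6, 9, 10, 12, 15] true true false 3 (ysC 3 5 6) 3 5 6 0 65536 = true := by decide +kernel
end CDM
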