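import Pool.Agent.Helper83.CDM.Engine
import Pool.Agent.Helper83.CDM.Run133

/-! The import of an earlier module only limits the number of modules checked at the same time. -/
set_option maxRecDepth 1000000
namespace CDM
theorem run249 : chk 8454854 3 0 3 [0, 3] true true false 7 (ysC 7 9 14) 7 9 14 0 65536 = true := by decide +kernel
end CDM
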