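import Pool.Agent.Helper83.CDM.Engine
import Pool.Agent.Helper83.CDM.Run142

/-! The import of an earlier module only limits the number of modules checked at the same time. -/
set_option maxRecDepth 1000000
namespace CDM
theorem run260 : chk 8454915 5 0 5 [0, 3, 5, 6, 9, 10, 12, 15] true true false 15 (ysC 15 3 12) 15 3 12 0 65536 = true := by decide +kernel
theorem run261 : chk 8475395 5 0 5 [0, 3, 5, 6, 9, 10, 12, 15] true true false 15 (ysC 15 19 28) 15 19 28 0 65536 = true := by decide +kernel
theorem run262 : chk 8471299 5 0 5 [0, 3, 5, 6, 9, 10, 12, 15] true true false 31 (ysC 31 3 28) 31 3 28 0 65536 = true := by decide +kernel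
end CDM
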