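import Pool.Agent.Helper83.CDM.Done
import Pool.Agent.Helper83.CDM.Run01
import Pool.Agent.Helper83.CDM.Run02
import Pool.Agent.Helper83.CDM.Run03
import Pool.Agent.Helper83.CDM.Run04
import Pool.Agent.Helper83.CDM.Run05
import Pool.Agent.Helper83.CDM.Run06
import Pool.Agent.Helper83.CDM.Run07
import Pool.Agent.Helper83.CDM.Run08
import Pool.Agent.Helper83.CDM.Run09
import Pool.Agent.Helper83.CDM.Run10
import Pool.Agent.Helper83.CDM.Run11
import Pool.Agent.Helper83.CDM.Run12
import Pool.Agent.Helper83.CDM.Run13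
import Pool.Agent.Helper83.CDM.Run14
import Pool.Agent.Helper83.CDM.Run15
import Pool.Agent.Helper83.CDM.Run16
import Pool.Agent.Helper83.CDM.Run17
import Pool.Agent.Helper83.CDM.Run18
import Pool.Agent.Helper83.CDM.Run19
import Pool.Agent.Helper83.CDM.Run20
import Pool.Agent.Helper83.CDM.Run21
import Pool.Agent.Helper83.CDM.Run22
import Pool.Agent.Helper83.CDM.Run23
import Pool.Agent.Helper83.CDM.Run24
import Pool.Agent.Helper83.CDM.Run25
import Pool.Agent.Helper83.CDM.Run26
import Pool.Agent.Helper83.CDM.Run27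
import Pool.Agent.Helper83.CDM.Run28
import Pool.Agent.Helper83.CDM.Run29
import Pool.Agent.Helper83.CDM.Run30
import Pool.Agent.Helper83.CDM.Run31
import Pool.Agent.Helper83.CDM.Run32
import Pool.Agent.Helper83.CDM.Run33
import Pool.Agent.Helper83.CDM.Run34
import Pool.Agent.Helper83.CDM.Run35
import Pool.Agent.Helper83.CDM.Run36
import Pool.Agent.Helper83.CDM.Run37
import Pool.Agent.Helper83.CDM.Run38
import Pool.Agent.Helper83.CDM.Run39
import Pool.Agent.Helper83.CDM.Run40
import Pool.Agent.Helper83.CDM.Run41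
import Pool.Agent.Helper83.CDM.Run42
import Pool.Agent.Helper83.CDM.Run43
import Pool.Agent.Helper83.CDM.Run44
import Pool.Agent.Helper83.CDM.Run45
import Pool.Agent.Helper83.CDM.Run46
import Pool.Agent.Helper83.CDM.Run47
import Pool.Agent.Helper83.CDM.Run48
import Pool.Agent.Helper83.CDM.Run49
import Pool.Agent.Helper83.CDM.Run50
import Pool.Agent.Helper83.CDM.Run51
import Pool.Agent.Helper83.CDM.Run52
import Pool.Agent.Helper83.CDM.Run53
import Pool.Agent.Helper83.CDM.Run54
import Pool.Agent.Helper83.CDM.Run55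
import Pool.Agent.Helper83.CDM.Run56
import Pool.Agent.Helper83.CDM.Run57
import Pool.Agent.Helper83.CDM.Run58
import Pool.Agent.Helper83.CDM.Run59
import Pool.Agent.Helper83.CDM.Run60
import Pool.Agent.Helper83.CDM.Run61
import Pool.Agent.Helper83.CDM.Run62
import Pool.Agent.Helper83.CDM.Run63
import Pool.Agent.Helper83.CDM.Run64
import Pool.Agent.Helper83.CDM.Run65
import Pool.Agent.Helper83.CDM.Run66
import Pool.Agent.Helper83.CDM.Run67
import Pool.Agent.Helper83.CDM.Run68
import Pool.Agent.Helper83.CDM.Run69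
import Pool.Agent.Helper83.CDM.Run70
import Pool.Agent.Helper83.CDM.Run71
import Pool.Agent.Helper83.CDM.Run72
import Pool.Agent.Helper83.CDM.Run73
import Pool.Agent.Helper83.CDM.Run74
import Pool.Agent.Helper83.CDM.Run75
import Pool.Agent.Helper83.CDM.Run76
import Pool.Agent.Helper83.CDM.Run77
import Pool.Agent.Helper83.CDM.Run78
import Pool.Agent.Helper83.CDM.Run79
import Pool.Agent.Helper83.CDM.Run80
import Pool.Agent.Helper83.CDM.Run81
import Pool.Agent.Helper83.CDM.Run82
import Pool.Agent.Helper83.CDM.Run83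
import Pool.Agent.Helper83.CDM.Run84
import Pool.Agent.Helper83.CDM.Run85
import Pool.Agent.Helper83.CDM.Run86
import Pool.Agent.Helper83.CDM.Run87
import Pool.Agent.Helper83.CDM.Run88
import Pool.Agent.Helper83.CDM.Run89
import Pool.Agent.Helper83.CDM.Run90
import Pool.Agent.Helper83.CDM.Run91
import Pool.Agent.Helper83.CDM.Run92
import Pool.Agent.Helper83.CDM.Run93
import Pool.Agent.Helper83.CDM.Run94
import Pool.Agent.Helper83.CDM.Run95
import Pool.Agent.Helper83.CDM.Run96
import Pool.Agent.Helper83.CDM.Run97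
import Pool.Agent.Helper83.CDM.Run98
import Pool.Agent.Helper83.CDM.Run99
import Pool.Agent.Helper83.CDM.Run100
import Pool.Agent.Helper83.CDM.Run101
import Pool.Agent.Helper83.CDM.Run102
import Pool.Agent.Helper83.CDM.Run103
import Pool.Agent.Helper83.CDM.Run104
import Pool.Agent.Helper83.CDM.Run105
import Pool.Agent.Helper83.CDM.Run106
import Pool.Agent.Helper83.CDM.Run107
import Pool.Agent.Helper83.CDM.Run108
import Pool.Agent.Helper83.CDM.Run109
import Pool.Agent.Helper83.CDM.Run110
import Pool.Agent.Helper83.CDM.Run111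
import Pool.Agent.Helper83.CDM.Run112
import Pool.Agent.Helper83.CDM.Run113
import Pool.Agent.Helper83.CDM.Run114
import Pool.Agent.Helper83.CDM.Run115
import Pool.Agent.Helper83.CDM.Run116
import Pool.Agent.Helper83.CDM.Run117
import Pool.Agent.Helper83.CDM.Run118
import Pool.Agent.Helper83.CDM.Run119
import Pool.Agent.Helper83.CDM.Run120
import Pool.Agent.Helper83.CDM.Run121
import Pool.Agent.Helper83.CDM.Run122
import Pool.Agent.Helper83.CDM.Run123
import Pool.Agent.Helper83.CDM.Run124
import Pool.Agent.Helper83.CDM.Run125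
import Pool.Agent.Helper83.CDM.Run126
import Pool.Agent.Helper83.CDM.Run127
import Pool.Agent.Helper83.CDM.Run128
import Pool.Agent.Helper83.CDM.Run129
import Pool.Agent.Helper83.CDM.Run130
import Pool.Agent.Helper83.CDM.Run131
import Pool.Agent.Helper83.CDM.Run132
import Pool.Agent.Helper83.CDM.Run133
import Pool.Agent.Helper83.CDM.Run134
import Pool.Agent.Helper83.CDM.Run135
import Pool.Agent.Helper83.CDM.Run136
import Pool.Agent.Helper83.CDM.Run137
import Pool.Agent.Helper83.CDM.Run138
import Pool.Agent.Helper83.CDM.Run139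
import Pool.Agent.Helper83.CDM.Run140
import Pool.Agent.Helper83.CDM.Run141
import Pool.Agent.Helper83.CDM.Run142
import Pool.Agent.Helper83.CDM.Run143
import Pool.Agent.Helper83.CDM.Run144
import Pool.Agent.Helper83.CDM.Run145
import Pool.Agent.Helper83.CDM.Run146

/-! All canonical configurations are excluded. -/
set_option maxRecDepth 100000
namespace CDM
section
variable {W X : ℕ → ℕ} {D : ℕ → ℕ → Prop}

theorem exT_1_2_3 (C : ConfT W X D 1 2) (hs : sgm W 2 = 3) (hC : Canon W false 1 2) : False := by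
  refine doneT (vs := 8454660) (bu := 1) (bv := 2) (y2 := 3) (m1 := 3) C (by decide) hs hC (by decide +kernel) (by decide +kernel) (by decide) ?_ ?_
  · intro i hi
    rcases lt_or_ge i 12727 with h | h1
    · exact ⟨0, 12727, Nat.zero_le _, h, run001⟩
    rcases lt_or_ge i 17235 with h | h2
    · exact ⟨12727, 17235, h1, h, run002⟩
    rcases lt_or_ge i 21363 with h | h3
    · exact ⟨17235, 21363, h2, h, run003⟩
    rcases lt_or_ge i 25121 with h | h4
    · exact ⟨21363, 25121, h3, h, run004⟩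
    rcases lt_or_ge i 29217 with h | h5
    · exact ⟨25121, 29217, h4, h, run005⟩
    rcases lt_or_ge i 33107 with h | h6
    · exact ⟨29217, 33107, h5, h, run006⟩
    rcases lt_or_ge i 37203 with h | h7
    · exact ⟨33107, 37203, h6, h, run007⟩
    rcases lt_or_ge i 47059 with h | h8
    · exact ⟨37203, 47059, h7, h, run008⟩
    rcases lt_or_ge i 62675 with h | h9
    · exact ⟨47059, 62675, h8, h, run009⟩
    exact ⟨62675, 65536, h9, hi, run010⟩
  · intro j hj
    interval_cases j
    · exact run011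
    · exact run012
    · exact run013
    · exact run014
    · exact run015
    · exact run016

theorem exT_1_2_15 (C : ConfT W X D 1 2) (hs : sgm W 2 = 15) (hC : Canon W true 1 2) : False := by
  refine doneT (vs := 8454660) (bu := 1) (bv := 2) (y2 := 3) (m1 := 3) C (by decide) hs hC (by decide +kernel) (by decide +kernel) (by decide) ?_ ?_
  · intro i hi
    rcases lt_or_ge i 30000 with h | h1
    · exact ⟨0, 30000, Nat.zero_le _, h, run017⟩
    rcases lt_or_ge i 49680 with h | h2
    · exact ⟨30000, 49680, h1, h, run018⟩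
    exact ⟨49680, 65536, h2, hi, run019⟩
  · intro j hj
    interval_cases j
    · exact run020
    · exact run021
    · exact run022
    · exact run023
    · exact run024
    · exact run025

theorem exT_1_6_3 (C : ConfT W X D 1 6) (hs : sgm W 6 = 3) (hC : Canon W false 1 6) : False := by
  refine doneT (vs := 8454662) (bu := 1) (bv := 2) (y2 := 7) (m1 := 7) C (by decide) hs hC (by decide +kernel) (by decide +kernel) (by decide) ?_ ?_
  · intro i hi
    rcases lt_or_ge i 17168 with h | h1
    · exact ⟨0, 17168, Nat.zero_le _, h, run026⟩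
    rcases lt_or_ge i 21246 with h | h2
    · exact ⟨17168, 21246, h1, h, run027⟩
    rcases lt_or_ge i 25426 with h | h3
    · exact ⟨21246, 25426, h2, h, run028⟩
    rcases lt_or_ge i 29810 with h | h4
    · exact ⟨25426, 29810, h3, h, run029⟩
    rcases lt_or_ge i 34610 with h | h5
    · exact ⟨29810, 34610, h4, h, run030⟩
    rcases lt_or_ge i 47072 with h | h6
    · exact ⟨34610, 47072, h5, h, run031⟩
    rcases lt_or_ge i 57922 with h | h7
    · exact ⟨47072, 57922, h6, h, run032⟩
    rcases lt_or_ge i 64626 with h | h8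
    · exact ⟨57922, 64626, h7, h, run033⟩
    exact ⟨64626, 65536, h8, hi, run034⟩
  · intro j hj
    interval_cases j
    · exact run035
    · exact run036
    · exact run037
    · exact run038
    · exact run039
    · exact run040

theorem exT_1_6_15 (C : ConfT W X D 1 6) (hs : sgm W 6 = 15) (hC : Canon W true 1 6) : False := by
  refine doneT (vs := 8454662) (bu := 1) (bv := 2) (y2 := 7) (m1 := 7) C (by decide) hs hC (by decide +kernel) (by decide +kernel) (by decide) ?_ ?_
  · intro i hi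
    rcases lt_or_ge i 50754 with h | h1
    · exact ⟨0, 50754, Nat.zero_le _, h, run041⟩
    exact ⟨50754, 65536, h1, hi, run042⟩
  · intro j hj
    interval_cases j
    · exact run043
    · exact run044
    · exact run045
    · exact run046
    · exact run047
    · exact run048

theorem exT_1_14_3 (C : ConfT W X D 1 14) (hs : sgm W 14 = 3) (hC : Canon W false 1 14) : False := by
  refine doneT (vs := 8454790) (bu := 1) (bv := 2) (y2 := 15) (m1 := 15) C (by decide) hs hC (by decide +kernel) (by decide +kernel) (by decide) ?_ ?_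
  · intro i hi
    rcases lt_or_ge i 37184 with h | h1
    · exact ⟨0, 37184, Nat.zero_le _, h, run049⟩
    rcases lt_or_ge i 54592 with h | h2
    · exact ⟨37184, 54592, h1, h, run050⟩
    exact ⟨54592, 65536, h2, hi, run051⟩
  · intro j hj
    interval_cases j
    · exact run052
    · exact run053
    · exact run054
    · exact run055
    · exact run056
    · exact run057

theorem exT_1_14_15 (C : ConfT W X D 1 14) (hs : sgm W 14 = 15) (hC : Canon W true 1 14) : False := by
  refine doneT (vs := 8454790) (bu := 1) (bv := 2) (y2 := 15) (m1 := 15) C (by decide) hs hC (by decide +kernel) (by decide +kernel) (by decide) ?_ ?_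
  · intro i hi
    exact ⟨0, 65536, Nat.zero_le _, hi, run058⟩
  · intro j hj
    interval_cases j
    · exact run059
    · exact run060
    · exact run061
    · exact run062
    · exact run063
    · exact run064

theorem exT_1_30_3 (C : ConfT W X D 1 30) (hs : sgm W 30 = 3) (hC : Canon W false 1 30) : False := by
  refine doneT (vs := 8462982) (bu := 1) (bv := 2) (y2 := 31) (m1 := 31) C (by decide) hs hC (by decide +kernel) (by decide +kernel) (by decide) ?_ ?_
  · intro i hi
    exact ⟨0, 65536, Nat.zero_le _, hi, run065⟩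
  · intro j hj
    interval_cases j
    · exact run066
    · exact run067
    · exact run068
    · exact run069
    · exact run070
    · exact run071

theorem exT_1_30_15 (C : ConfT W X D 1 30) (hs : sgm W 30 = 15) (hC : Canon W true 1 30) : False := by
  refine doneT (vs := 8462982) (bu := 1) (bv := 2) (y2 := 31) (m1 := 31) C (by decide) hs hC (by decide +kernel) (by decide +kernel) (by decide) ?_ ?_
  · intro i hi
    exact ⟨0, 65536, Nat.zero_le _, hi, run072⟩
  · intro j hj
    interval_cases j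
    · exact run073
    · exact run074
    · exact run075
    · exact run076
    · exact run077
    · exact run078

theorem exT_3_12_3 (C : ConfT W X D 3 12) (hs : sgm W 12 = 3) (hC : Canon W false 3 12) : False := by
  refine doneT (vs := 8454915) (bu := 1) (bv := 4) (y2 := 15) (m1 := 15) C (by decide) hs hC (by decide +kernel) (by decide +kernel) (by decide) ?_ ?_
  · intro i hi
    rcases lt_or_ge i 21365 with h | h1
    · exact ⟨0, 21365, Nat.zero_le _, h, run079⟩
    rcases lt_or_ge i 29200 with h | h2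
    · exact ⟨21365, 29200, h1, h, run080⟩
    rcases lt_or_ge i 37968 with h | h3
    · exact ⟨29200, 37968, h2, h, run081⟩
    rcases lt_or_ge i 50516 with h | h4
    · exact ⟨37968, 50516, h3, h, run082⟩
    rcases lt_or_ge i 54737 with h | h5
    · exact ⟨50516, 54737, h4, h, run083⟩
    rcases lt_or_ge i 60100 with h | h6
    · exact ⟨54737, 60100, h5, h, run084⟩
    exact ⟨60100, 65536, h6, hi, run085⟩
  · intro j hj
    interval_cases j
    · exact run086
    · exact run087
    · exact run088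
    · exact run089
    · exact run090
    · exact run091

theorem exT_3_12_15 (C : ConfT W X D 3 12) (hs : sgm W 12 = 15) (hC : Canon W true 3 12) : False := by
  refine doneT (vs := 8454915) (bu := 1) (bv := 4) (y2 := 15) (m1 := 15) C (by decide) hs hC (by decide +kernel) (by decide +kernel) (by decide) ?_ ?_
  · intro i hi
    rcases lt_or_ge i 56468 with h | h1
    · exact ⟨0, 56468, Nat.zero_le _, h, run092⟩
    exact ⟨56468, 65536, h1, hi, run093⟩
  · intro j hj
    interval_cases j
    · exact run094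
    · exact run095
    · exact run096
    · exact run097
    · exact run098
    · exact run099

theorem exT_3_28_3 (C : ConfT W X D 3 28) (hs : sgm W 28 = 3) (hC : Canon W false 3 28) : False := by
  refine doneT (vs := 8471299) (bu := 1) (bv := 4) (y2 := 31) (m1 := 31) C (by decide) hs hC (by decide +kernel) (by decide +kernel) (by decide) ?_ ?_
  · intro i hi
    exact ⟨0, 65536, Nat.zero_le _, hi, run100⟩
  · intro j hj
    interval_cases j
    · exact run101
    · exact run102
    · exact run103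
    · exact run104
    · exact run105
    · exact run106

theorem exT_3_28_15 (C : ConfT W X D 3 28) (hs : sgm W 28 = 15) (hC : Canon W true 3 28) : False := by
  refine doneT (vs := 8471299) (bu := 1) (bv := 4) (y2 := 31) (m1 := 31) C (by decide) hs hC (by decide +kernel) (by decide +kernel) (by decide) ?_ ?_
  · intro i hi
    exact ⟨0, 65536, Nat.zero_le _, hi, run107⟩
  · intro j hj
    interval_cases j
    · exact run108
    · exact run109
    · exact run110
    · exact run111
    · exact run112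
    · exact run113

theorem exT_3_5_3 (C : ConfT W X D 3 5) (hs : sgm W 5 = 3) (hC : Canon W false 3 5) : False := by
  refine doneT (vs := 8454663) (bu := 2) (bv := 3) (y2 := 6) (m1 := 7) C (by decide) hs hC (by decide +kernel) (by decide +kernel) (by decide) ?_ ?_
  · intro i hi
    rcases lt_or_ge i 17126 with h | h1
    · exact ⟨0, 17126, Nat.zero_le _, h, run114⟩
    rcases lt_or_ge i 24880 with h | h2
    · exact ⟨17126, 24880, h1, h, run115⟩
    rcases lt_or_ge i 25923 with h | h3
    · exact ⟨24880, 25923, h2, h, run116⟩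
    rcases lt_or_ge i 33346 with h | h4
    · exact ⟨25923, 33346, h3, h, run117⟩
    rcases lt_or_ge i 41538 with h | h5
    · exact ⟨33346, 41538, h4, h, run118⟩
    rcases lt_or_ge i 43074 with h | h6
    · exact ⟨41538, 43074, h5, h, run119⟩
    rcases lt_or_ge i 50387 with h | h7
    · exact ⟨43074, 50387, h6, h, run120⟩
    rcases lt_or_ge i 58594 with h | h8
    · exact ⟨50387, 58594, h7, h, run121⟩
    exact ⟨58594, 65536, h8, hi, run122⟩
  · intro j hj
    interval_cases j
    · exact run123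
    · exact run124
    · exact run125
    · exact run126
    · exact run127
    · exact run128

theorem exT_3_5_15 (C : ConfT W X D 3 5) (hs : sgm W 5 = 15) (hC : Canon W true 3 5) : False := by
  refine doneT (vs := 8454663) (bu := 2) (bv := 3) (y2 := 6) (m1 := 7) C (by decide) hs hC (by decide +kernel) (by decide +kernel) (by decide) ?_ ?_
  · intro i hi
    rcases lt_or_ge i 42545 with h | h1
    · exact ⟨0, 42545, Nat.zero_le _, h, run129⟩
    rcases lt_or_ge i 60272 with h | h2
    · exact ⟨42545, 60272, h1, h, run130⟩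
    exact ⟨60272, 65536, h2, hi, run131⟩
  · intro j hj
    interval_cases j
    · exact run132
    · exact run133
    · exact run134
    · exact run135
    · exact run136
    · exact run137

theorem exT_3_13_3 (C : ConfT W X D 3 13) (hs : sgm W 13 = 3) (hC : Canon W false 3 13) : False := by
  refine doneT (vs := 8454855) (bu := 2) (bv := 3) (y2 := 14) (m1 := 15) C (by decide) hs hC (by decide +kernel) (by decide +kernel) (by decide) ?_ ?_
  · intro i hi
    rcases lt_or_ge i 21712 with h | h1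
    · exact ⟨0, 21712, Nat.zero_le _, h, run138⟩
    rcases lt_or_ge i 33633 with h | h2
    · exact ⟨21712, 33633, h1, h, run139⟩
    rcases lt_or_ge i 46113 with h | h3
    · exact ⟨33633, 46113, h2, h, run140⟩
    rcases lt_or_ge i 52133 with h | h4
    · exact ⟨46113, 52133, h3, h, run141⟩
    rcases lt_or_ge i 60784 with h | h5
    · exact ⟨52133, 60784, h4, h, run142⟩
    exact ⟨60784, 65536, h5, hi, run143⟩
  · intro j hj
    interval_cases j
    · exact run144
    · exact run145
    · exact run146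
    · exact run147
    · exact run148
    · exact run149

theorem exT_3_13_15 (C : ConfT W X D 3 13) (hs : sgm W 13 = 15) (hC : Canon W true 3 13) : False := by
  refine doneT (vs := 8454855) (bu := 2) (bv := 3) (y2 := 14) (m1 := 15) C (by decide) hs hC (by decide +kernel) (by decide +kernel) (by decide) ?_ ?_
  · intro i hi
    rcases lt_or_ge i 56468 with h | h1
    · exact ⟨0, 56468, Nat.zero_le _, h, run150⟩
    exact ⟨56468, 65536, h1, hi, run151⟩
  · intro j hj
    interval_cases j
    · exact run152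
    · exact run153
    · exact run154
    · exact run155
    · exact run156
    · exact run157

theorem exT_3_29_3 (C : ConfT W X D 3 29) (hs : sgm W 29 = 3) (hC : Canon W false 3 29) : False := by
  refine doneT (vs := 8467143) (bu := 2) (bv := 3) (y2 := 30) (m1 := 31) C (by decide) hs hC (by decide +kernel) (by decide +kernel) (by decide) ?_ ?_
  · intro i hi
    exact ⟨0, 65536, Nat.zero_le _, hi, run158⟩
  · intro j hj
    interval_cases j
    · exact run159
    · exact run160
    · exact run161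
    · exact run162
    · exact run163
    · exact run164

theorem exT_3_29_15 (C : ConfT W X D 3 29) (hs : sgm W 29 = 15) (hC : Canon W true 3 29) : False := by
  refine doneT (vs := 8467143) (bu := 2) (bv := 3) (y2 := 30) (m1 := 31) C (by decide) hs hC (by decide +kernel) (by decide +kernel) (by decide) ?_ ?_
  · intro i hi
    exact ⟨0, 65536, Nat.zero_le _, hi, run165⟩
  · intro j hj
    interval_cases j
    · exact run166
    · exact run167
    · exact run168
    · exact run169
    · exact run170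
    · exact run171

theorem exT_7_25_3 (C : ConfT W X D 7 25) (hs : sgm W 25 = 3) (hC : Canon W false 7 25) : False := by
  refine doneT (vs := 8467142) (bu := 2) (bv := 3) (y2 := 30) (m1 := 31) C (by decide) hs hC (by decide +kernel) (by decide +kernel) (by decide) ?_ ?_
  · intro i hi
    exact ⟨0, 65536, Nat.zero_le _, hi, run172⟩
  · intro j hj
    interval_cases j
    · exact run173
    · exact run174
    · exact run175
    · exact run176
    · exact run177
    · exact run178

theorem exT_7_25_15 (C : ConfT W X D 7 25) (hs : sgm W 25 = 15) (hC : Canon W true 7 25) : False := by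
  refine doneT (vs := 8467142) (bu := 2) (bv := 3) (y2 := 30) (m1 := 31) C (by decide) hs hC (by decide +kernel) (by decide +kernel) (by decide) ?_ ?_
  · intro i hi
    exact ⟨0, 65536, Nat.zero_le _, hi, run179⟩
  · intro j hj
    interval_cases j
    · exact run180
    · exact run181
    · exact run182
    · exact run183
    · exact run184
    · exact run185

theorem exI_1_2 (C : ConfI W X D 1 2) (hC : Canon W true 1 2) : False := by
  refine doneI (vs := 8454660) (bv := 2) (y2 := 3) C (by decide) hC (by decide +kernel) ?_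
  intro e he i hi
  simp only [List.mem_cons, List.not_mem_nil, or_false] at he
  rcases he with rfl | rfl | rfl | rfl | rfl | rfl | rfl | rfl
  · rcases lt_or_ge i 56131 with h | h1
    · exact ⟨[0], 0, 56131, by decide, Nat.zero_le _, h, run186⟩
    exact ⟨[0], 56131, 65536, by decide, h1, hi, run187⟩
  · rcases lt_or_ge i 50499 with h | h1
    · exact ⟨[3], 0, 50499, by decide, Nat.zero_le _, h, run188⟩
    exact ⟨[3], 50499, 65536, by decide, h1, hi, run189⟩
  · rcases lt_or_ge i 50225 with h | h1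
    · exact ⟨[5], 0, 50225, by decide, Nat.zero_le _, h, run190⟩
    exact ⟨[5], 50225, 65536, by decide, h1, hi, run191⟩
  · rcases lt_or_ge i 50209 with h | h1
    · exact ⟨[6], 0, 50209, by decide, Nat.zero_le _, h, run192⟩
    exact ⟨[6], 50209, 65536, by decide, h1, hi, run193⟩
  · rcases lt_or_ge i 50209 with h | h1
    · exact ⟨[9], 0, 50209, by decide, Nat.zero_le _, h, run194⟩
    exact ⟨[9], 50209, 65536, by decide, h1, hi, run195⟩
  · rcases lt_or_ge i 47427 with h | h1
    · exact ⟨[10], 0, 47427, by decide, Nat.zero_le _, h, run196⟩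
    exact ⟨[10], 47427, 65536, by decide, h1, hi, run197⟩
  · rcases lt_or_ge i 46129 with h | h1
    · exact ⟨[12], 0, 46129, by decide, Nat.zero_le _, h, run198⟩
    exact ⟨[12], 46129, 65536, by decide, h1, hi, run199⟩
  · rcases lt_or_ge i 55411 with h | h1
    · exact ⟨[15], 0, 55411, by decide, Nat.zero_le _, h, run200⟩
    exact ⟨[15], 55411, 65536, by decide, h1, hi, run201⟩

theorem exI_1_6 (C : ConfI W X D 1 6) (hC : Canon W true 1 6) : False := by
  refine doneI (vs := 8454662) (bv := 2) (y2 := 7) C (by decide) hC (by decide +kernel) ?_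
  intro e he i hi
  simp only [List.mem_cons, List.not_mem_nil, or_false] at he
  rcases he with rfl | rfl | rfl | rfl | rfl | rfl | rfl | rfl
  · exact ⟨[0, 3], 0, 65536, by decide, Nat.zero_le _, hi, run202⟩
  · exact ⟨[0, 3], 0, 65536, by decide, Nat.zero_le _, hi, run202⟩
  · exact ⟨[5, 6], 0, 65536, by decide, Nat.zero_le _, hi, run203⟩
  · exact ⟨[5, 6], 0, 65536, by decide, Nat.zero_le _, hi, run203⟩
  · exact ⟨[9], 0, 65536, by decide, Nat.zero_le _, hi, run204⟩
  · exact ⟨[10, 12], 0, 65536, by decide, Nat.zero_le _, hi, run205⟩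
  · exact ⟨[10, 12], 0, 65536, by decide, Nat.zero_le _, hi, run205⟩
  · exact ⟨[15], 0, 65536, by decide, Nat.zero_le _, hi, run206⟩

theorem exI_1_14 (C : ConfI W X D 1 14) (hC : Canon W true 1 14) : False := by
  refine doneI (vs := 8454790) (bv := 2) (y2 := 15) C (by decide) hC (by decide +kernel) ?_
  intro e he i hi
  simp only [List.mem_cons, List.not_mem_nil, or_false] at he
  rcases he with rfl | rfl | rfl | rfl | rfl | rfl | rfl | rfl
  · exact ⟨[0, 3, 5], 0, 65536, by decide, Nat.zero_le _, hi, run207⟩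
  · exact ⟨[0, 3, 5], 0, 65536, by decide, Nat.zero_le _, hi, run207⟩
  · exact ⟨[0, 3, 5], 0, 65536, by decide, Nat.zero_le _, hi, run207⟩
  · exact ⟨[6, 9, 10], 0, 65536, by decide, Nat.zero_le _, hi, run208⟩
  · exact ⟨[6, 9, 10], 0, 65536, by decide, Nat.zero_le _, hi, run208⟩
  · exact ⟨[6, 9, 10], 0, 65536, by decide, Nat.zero_le _, hi, run208⟩
  · exact ⟨[12, 15], 0, 65536, by decide, Nat.zero_le _, hi, run209⟩
  · exact ⟨[12, 15], 0, 65536, by decide, Nat.zero_le _, hi, run209⟩

theorem exI_1_30 (C : ConfI W X D 1 30) (hC : Canon W true 1 30) : False := by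
  refine doneI (vs := 8462982) (bv := 2) (y2 := 31) C (by decide) hC (by decide +kernel) ?_
  intro e he i hi
  simp only [List.mem_cons, List.not_mem_nil, or_false] at he
  rcases he with rfl | rfl | rfl | rfl | rfl | rfl | rfl | rfl
  · exact ⟨[0, 3, 5, 6, 9, 10, 12, 15], 0, 65536, by decide, Nat.zero_le _, hi, run210⟩
  · exact ⟨[0, 3, 5, 6, 9, 10, 12, 15], 0, 65536, by decide, Nat.zero_le _, hi, run210⟩
  · exact ⟨[0, 3, 5, 6, 9, 10, 12, 15], 0, 65536, by decide, Nat.zero_le _, hi, run210⟩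
  · exact ⟨[0, 3, 5, 6, 9, 10, 12, 15], 0, 65536, by decide, Nat.zero_le _, hi, run210⟩
  · exact ⟨[0, 3, 5, 6, 9, 10, 12, 15], 0, 65536, by decide, Nat.zero_le _, hi, run210⟩
  · exact ⟨[0, 3, 5, 6, 9, 10, 12, 15], 0, 65536, by decide, Nat.zero_le _, hi, run210⟩
  · exact ⟨[0, 3, 5, 6, 9, 10, 12, 15], 0, 65536, by decide, Nat.zero_le _, hi, run210⟩
  · exact ⟨[0, 3, 5, 6, 9, 10, 12, 15], 0, 65536, by decide, Nat.zero_le _, hi, run210⟩

theorem exI_3_4 (C : ConfI W X D 3 4) (hC : Canon W true 3 4) : False := by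
  refine doneI (vs := 8454659) (bv := 4) (y2 := 7) C (by decide) hC (by decide +kernel) ?_
  intro e he i hi
  simp only [List.mem_cons, List.not_mem_nil, or_false] at he
  rcases he with rfl | rfl | rfl | rfl | rfl | rfl | rfl | rfl
  · exact ⟨[0, 3], 0, 65536, by decide, Nat.zero_le _, hi, run211⟩
  · exact ⟨[0, 3], 0, 65536, by decide, Nat.zero_le _, hi, run211⟩
  · exact ⟨[5, 6], 0, 65536, by decide, Nat.zero_le _, hi, run212⟩
  · exact ⟨[5, 6], 0, 65536, by decide, Nat.zero_le _, hi, run212⟩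
  · exact ⟨[9, 10], 0, 65536, by decide, Nat.zero_le _, hi, run213⟩
  · exact ⟨[9, 10], 0, 65536, by decide, Nat.zero_le _, hi, run213⟩
  · exact ⟨[12, 15], 0, 65536, by decide, Nat.zero_le _, hi, run214⟩
  · exact ⟨[12, 15], 0, 65536, by decide, Nat.zero_le _, hi, run214⟩

theorem exI_3_12 (C : ConfI W X D 3 12) (hC : Canon W true 3 12) : False := by
  refine doneI (vs := 8454915) (bv := 4) (y2 := 15) C (by decide) hC (by decide +kernel) ?_
  intro e he i hi
  simp only [List.mem_cons, List.not_mem_nil, or_false] at he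
  rcases he with rfl | rfl | rfl | rfl | rfl | rfl | rfl | rfl
  · exact ⟨[0, 3, 5, 6, 9, 10, 12, 15], 0, 65536, by decide, Nat.zero_le _, hi, run215⟩
  · exact ⟨[0, 3, 5, 6, 9, 10, 12, 15], 0, 65536, by decide, Nat.zero_le _, hi, run215⟩
  · exact ⟨[0, 3, 5, 6, 9, 10, 12, 15], 0, 65536, by decide, Nat.zero_le _, hi, run215⟩
  · exact ⟨[0, 3, 5, 6, 9, 10, 12, 15], 0, 65536, by decide, Nat.zero_le _, hi, run215⟩
  · exact ⟨[0, 3, 5, 6, 9, 10, 12, 15], 0, 65536, by decide, Nat.zero_le _, hi, run215⟩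
  · exact ⟨[0, 3, 5, 6, 9, 10, 12, 15], 0, 65536, by decide, Nat.zero_le _, hi, run215⟩
  · exact ⟨[0, 3, 5, 6, 9, 10, 12, 15], 0, 65536, by decide, Nat.zero_le _, hi, run215⟩
  · exact ⟨[0, 3, 5, 6, 9, 10, 12, 15], 0, 65536, by decide, Nat.zero_le _, hi, run215⟩

theorem exI_3_28 (C : ConfI W X D 3 28) (hC : Canon W true 3 28) : False := by
  refine doneI (vs := 8471299) (bv := 4) (y2 := 31) C (by decide) hC (by decide +kernel) ?_
  intro e he i hi
  simp only [List.mem_cons, List.not_mem_nil, or_false] at he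
  rcases he with rfl | rfl | rfl | rfl | rfl | rfl | rfl | rfl
  · exact ⟨[0, 3, 5, 6, 9], 0, 65536, by decide, Nat.zero_le _, hi, run216⟩
  · exact ⟨[0, 3, 5, 6, 9], 0, 65536, by decide, Nat.zero_le _, hi, run216⟩
  · exact ⟨[0, 3, 5, 6, 9], 0, 65536, by decide, Nat.zero_le _, hi, run216⟩
  · exact ⟨[0, 3, 5, 6, 9], 0, 65536, by decide, Nat.zero_le _, hi, run216⟩
  · exact ⟨[0, 3, 5, 6, 9], 0, 65536, by decide, Nat.zero_le _, hi, run216⟩
  · exact ⟨[10, 12, 15], 0, 65536, by decide, Nat.zero_le _, hi, run217⟩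
  · exact ⟨[10, 12, 15], 0, 65536, by decide, Nat.zero_le _, hi, run217⟩
  · exact ⟨[10, 12, 15], 0, 65536, by decide, Nat.zero_le _, hi, run217⟩

theorem exI_7_8 (C : ConfI W X D 7 8) (hC : Canon W true 7 8) : False := by
  refine doneI (vs := 8454467) (bv := 8) (y2 := 15) C (by decide) hC (by decide +kernel) ?_
  intro e he i hi
  simp only [List.mem_cons, List.not_mem_nil, or_false] at he
  rcases he with rfl | rfl | rfl | rfl | rfl | rfl | rfl | rfl
  · exact ⟨[0, 3, 5], 0, 65536, by decide, Nat.zero_le _, hi, run218⟩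
  · exact ⟨[0, 3, 5], 0, 65536, by decide, Nat.zero_le _, hi, run218⟩
  · exact ⟨[0, 3, 5], 0, 65536, by decide, Nat.zero_le _, hi, run218⟩
  · exact ⟨[6, 9, 10], 0, 65536, by decide, Nat.zero_le _, hi, run219⟩
  · exact ⟨[6, 9, 10], 0, 65536, by decide, Nat.zero_le _, hi, run219⟩
  · exact ⟨[6, 9, 10], 0, 65536, by decide, Nat.zero_le _, hi, run219⟩
  · exact ⟨[12, 15], 0, 65536, by decide, Nat.zero_le _, hi, run220⟩
  · exact ⟨[12, 15], 0, 65536, by decide, Nat.zero_le _, hi, run220⟩

theorem exI_7_24 (C : ConfI W X D 7 24) (hC : Canon W true 7 24) : False := by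
  refine doneI (vs := 8487235) (bv := 8) (y2 := 31) C (by decide) hC (by decide +kernel) ?_
  intro e he i hi
  simp only [List.mem_cons, List.not_mem_nil, or_false] at he
  rcases he with rfl | rfl | rfl | rfl | rfl | rfl | rfl | rfl
  · exact ⟨[0, 3, 5, 6, 9, 10, 12, 15], 0, 65536, by decide, Nat.zero_le _, hi, run221⟩
  · exact ⟨[0, 3, 5, 6, 9, 10, 12, 15], 0, 65536, by decide, Nat.zero_le _, hi, run221⟩
  · exact ⟨[0, 3, 5, 6, 9, 10, 12, 15], 0, 65536, by decide, Nat.zero_le _, hi, run221⟩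
  · exact ⟨[0, 3, 5, 6, 9, 10, 12, 15], 0, 65536, by decide, Nat.zero_le _, hi, run221⟩
  · exact ⟨[0, 3, 5, 6, 9, 10, 12, 15], 0, 65536, by decide, Nat.zero_le _, hi, run221⟩
  · exact ⟨[0, 3, 5, 6, 9, 10, 12, 15], 0, 65536, by decide, Nat.zero_le _, hi, run221⟩
  · exact ⟨[0, 3, 5, 6, 9, 10, 12, 15], 0, 65536, by decide, Nat.zero_le _, hi, run221⟩
  · exact ⟨[0, 3, 5, 6, 9, 10, 12, 15], 0, 65536, by decide, Nat.zero_le _, hi, run221⟩

theorem exI_15_16 (C : ConfI W X D 15 16) (hC : Canon W true 15 16) : False := by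
  refine doneI (vs := 8425795) (bv := 16) (y2 := 31) C (by decide) hC (by decide +kernel) ?_
  intro e he i hi
  simp only [List.mem_cons, List.not_mem_nil, or_false] at he
  rcases he with rfl | rfl | rfl | rfl | rfl | rfl | rfl | rfl
  · exact ⟨[0, 3, 5, 6, 9, 10, 12, 15], 0, 65536, by decide, Nat.zero_le _, hi, run222⟩
  · exact ⟨[0, 3, 5, 6, 9, 10, 12, 15], 0, 65536, by decide, Nat.zero_le _, hi, run222⟩
  · exact ⟨[0, 3, 5, 6, 9, 10, 12, 15], 0, 65536, by decide, Nat.zero_le _, hi, run222⟩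
  · exact ⟨[0, 3, 5, 6, 9, 10, 12, 15], 0, 65536, by decide, Nat.zero_le _, hi, run222⟩
  · exact ⟨[0, 3, 5, 6, 9, 10, 12, 15], 0, 65536, by decide, Nat.zero_le _, hi, run222⟩
  · exact ⟨[0, 3, 5, 6, 9, 10, 12, 15], 0, 65536, by decide, Nat.zero_le _, hi, run222⟩
  · exact ⟨[0, 3, 5, 6, 9, 10, 12, 15], 0, 65536, by decide, Nat.zero_le _, hi, run222⟩
  · exact ⟨[0, 3, 5, 6, 9, 10, 12, 15], 0, 65536, by decide, Nat.zero_le _, hi, run222⟩

theorem exI_3_1 (C : ConfI W X D 3 1) (hC : Canon W true 3 1) : False := by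
  refine doneI (vs := 8454660) (bv := 3) (y2 := 2) C (by decide) hC (by decide +kernel) ?_
  intro e he i hi
  simp only [List.mem_cons, List.not_mem_nil, or_false] at he
  rcases he with rfl | rfl | rfl | rfl | rfl | rfl | rfl | rfl
  · rcases lt_or_ge i 56131 with h | h1
    · exact ⟨[0], 0, 56131, by decide, Nat.zero_le _, h, run223⟩
    exact ⟨[0], 56131, 65536, by decide, h1, hi, run224⟩
  · rcases lt_or_ge i 54321 with h | h1
    · exact ⟨[3], 0, 54321, by decide, Nat.zero_le _, h, run225⟩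
    exact ⟨[3], 54321, 65536, by decide, h1, hi, run226⟩
  · rcases lt_or_ge i 54595 with h | h1
    · exact ⟨[5], 0, 54595, by decide, Nat.zero_le _, h, run227⟩
    exact ⟨[5], 54595, 65536, by decide, h1, hi, run228⟩
  · rcases lt_or_ge i 54321 with h | h1
    · exact ⟨[6], 0, 54321, by decide, Nat.zero_le _, h, run229⟩
    exact ⟨[6], 54321, 65536, by decide, h1, hi, run230⟩
  · rcases lt_or_ge i 50721 with h | h1
    · exact ⟨[9], 0, 50721, by decide, Nat.zero_le _, h, run231⟩
    exact ⟨[9], 50721, 65536, by decide, h1, hi, run232⟩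
  · rcases lt_or_ge i 50721 with h | h1
    · exact ⟨[10], 0, 50721, by decide, Nat.zero_le _, h, run233⟩
    exact ⟨[10], 50721, 65536, by decide, h1, hi, run234⟩
  · rcases lt_or_ge i 46625 with h | h1
    · exact ⟨[12], 0, 46625, by decide, Nat.zero_le _, h, run235⟩
    exact ⟨[12], 46625, 65536, by decide, h1, hi, run236⟩
  · rcases lt_or_ge i 56131 with h | h1
    · exact ⟨[15], 0, 56131, by decide, Nat.zero_le _, h, run237⟩
    exact ⟨[15], 56131, 65536, by decide, h1, hi, run238⟩

theorem exI_3_5 (C : ConfI W X D 3 5) (hC : Canon W true 3 5) : False := by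
  refine doneI (vs := 8454663) (bv := 3) (y2 := 6) C (by decide) hC (by decide +kernel) ?_
  intro e he i hi
  simp only [List.mem_cons, List.not_mem_nil, or_false] at he
  rcases he with rfl | rfl | rfl | rfl | rfl | rfl | rfl | rfl
  · exact ⟨[0, 3, 5, 6, 9, 10, 12, 15], 0, 65536, by decide, Nat.zero_le _, hi, run239⟩
  · exact ⟨[0, 3, 5, 6, 9, 10, 12, 15], 0, 65536, by decide, Nat.zero_le _, hi, run239⟩
  · exact ⟨[0, 3, 5, 6, 9, 10, 12, 15], 0, 65536, by decide, Nat.zero_le _, hi, run239⟩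
  · exact ⟨[0, 3, 5, 6, 9, 10, 12, 15], 0, 65536, by decide, Nat.zero_le _, hi, run239⟩
  · exact ⟨[0, 3, 5, 6, 9, 10, 12, 15], 0, 65536, by decide, Nat.zero_le _, hi, run239⟩
  · exact ⟨[0, 3, 5, 6, 9, 10, 12, 15], 0, 65536, by decide, Nat.zero_le _, hi, run239⟩
  · exact ⟨[0, 3, 5, 6, 9, 10, 12, 15], 0, 65536, by decide, Nat.zero_le _, hi, run239⟩
  · exact ⟨[0, 3, 5, 6, 9, 10, 12, 15], 0, 65536, by decide, Nat.zero_le _, hi, run239⟩

theorem exI_3_13 (C : ConfI W X D 3 13) (hC : Canon W true 3 13) : False := by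
  refine doneI (vs := 8454855) (bv := 3) (y2 := 14) C (by decide) hC (by decide +kernel) ?_
  intro e he i hi
  simp only [List.mem_cons, List.not_mem_nil, or_false] at he
  rcases he with rfl | rfl | rfl | rfl | rfl | rfl | rfl | rfl
  · exact ⟨[0, 3], 0, 65536, by decide, Nat.zero_le _, hi, run240⟩
  · exact ⟨[0, 3], 0, 65536, by decide, Nat.zero_le _, hi, run240⟩
  · exact ⟨[5, 6], 0, 65536, by decide, Nat.zero_le _, hi, run241⟩
  · exact ⟨[5, 6], 0, 65536, by decide, Nat.zero_le _, hi, run241⟩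
  · exact ⟨[9, 10], 0, 65536, by decide, Nat.zero_le _, hi, run242⟩
  · exact ⟨[9, 10], 0, 65536, by decide, Nat.zero_le _, hi, run242⟩
  · exact ⟨[12, 15], 0, 65536, by decide, Nat.zero_le _, hi, run243⟩
  · exact ⟨[12, 15], 0, 65536, by decide, Nat.zero_le _, hi, run243⟩

theorem exI_3_29 (C : ConfI W X D 3 29) (hC : Canon W true 3 29) : False := by
  refine doneI (vs := 8467143) (bv := 3) (y2 := 30) C (by decide) hC (by decide +kernel) ?_
  intro e he i hi
  simp only [List.mem_cons, List.not_mem_nil, or_false] at he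
  rcases he with rfl | rfl | rfl | rfl | rfl | rfl | rfl | rfl
  · exact ⟨[0, 3, 5, 6, 9, 10, 12, 15], 0, 65536, by decide, Nat.zero_le _, hi, run244⟩
  · exact ⟨[0, 3, 5, 6, 9, 10, 12, 15], 0, 65536, by decide, Nat.zero_le _, hi, run244⟩
  · exact ⟨[0, 3, 5, 6, 9, 10, 12, 15], 0, 65536, by decide, Nat.zero_le _, hi, run244⟩
  · exact ⟨[0, 3, 5, 6, 9, 10, 12, 15], 0, 65536, by decide, Nat.zero_le _, hi, run244⟩
  · exact ⟨[0, 3, 5, 6, 9, 10, 12, 15], 0, 65536, by decide, Nat.zero_le _, hi, run244⟩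
  · exact ⟨[0, 3, 5, 6, 9, 10, 12, 15], 0, 65536, by decide, Nat.zero_le _, hi, run244⟩
  · exact ⟨[0, 3, 5, 6, 9, 10, 12, 15], 0, 65536, by decide, Nat.zero_le _, hi, run244⟩
  · exact ⟨[0, 3, 5, 6, 9, 10, 12, 15], 0, 65536, by decide, Nat.zero_le _, hi, run244⟩

theorem exI_7_1 (C : ConfI W X D 7 1) (hC : Canon W true 7 1) : False := by
  refine doneI (vs := 8454662) (bv := 3) (y2 := 6) C (by decide) hC (by decide +kernel) ?_
  intro e he i hi
  simp only [List.mem_cons, List.not_mem_nil, or_false] at he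
  rcases he with rfl | rfl | rfl | rfl | rfl | rfl | rfl | rfl
  · exact ⟨[0, 3], 0, 65536, by decide, Nat.zero_le _, hi, run245⟩
  · exact ⟨[0, 3], 0, 65536, by decide, Nat.zero_le _, hi, run245⟩
  · exact ⟨[5, 6], 0, 65536, by decide, Nat.zero_le _, hi, run246⟩
  · exact ⟨[5, 6], 0, 65536, by decide, Nat.zero_le _, hi, run246⟩
  · exact ⟨[9, 10], 0, 65536, by decide, Nat.zero_le _, hi, run247⟩
  · exact ⟨[9, 10], 0, 65536, by decide, Nat.zero_le _, hi, run247⟩
  · exact ⟨[12, 15], 0, 65536, by decide, Nat.zero_le _, hi, run248⟩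
  · exact ⟨[12, 15], 0, 65536, by decide, Nat.zero_le _, hi, run248⟩

theorem exI_7_9 (C : ConfI W X D 7 9) (hC : Canon W true 7 9) : False := by
  refine doneI (vs := 8454854) (bv := 3) (y2 := 14) C (by decide) hC (by decide +kernel) ?_
  intro e he i hi
  simp only [List.mem_cons, List.not_mem_nil, or_false] at he
  rcases he with rfl | rfl | rfl | rfl | rfl | rfl | rfl | rfl
  · exact ⟨[0, 3], 0, 65536, by decide, Nat.zero_le _, hi, run249⟩
  · exact ⟨[0, 3], 0, 65536, by decide, Nat.zero_le _, hi, run249⟩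
  · exact ⟨[5, 6], 0, 65536, by decide, Nat.zero_le _, hi, run250⟩
  · exact ⟨[5, 6], 0, 65536, by decide, Nat.zero_le _, hi, run250⟩
  · exact ⟨[9, 10], 0, 65536, by decide, Nat.zero_le _, hi, run251⟩
  · exact ⟨[9, 10], 0, 65536, by decide, Nat.zero_le _, hi, run251⟩
  · exact ⟨[12, 15], 0, 65536, by decide, Nat.zero_le _, hi, run252⟩
  · exact ⟨[12, 15], 0, 65536, by decide, Nat.zero_le _, hi, run252⟩

theorem exI_7_25 (C : ConfI W X D 7 25) (hC : Canon W true 7 25) : False := by
  refine doneI (vs := 8467142) (bv := 3) (y2 := 30) C (by decide) hC (by decide +kernel) ?_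
  intro e he i hi
  simp only [List.mem_cons, List.not_mem_nil, or_false] at he
  rcases he with rfl | rfl | rfl | rfl | rfl | rfl | rfl | rfl
  · exact ⟨[0, 3, 5, 6, 9], 0, 65536, by decide, Nat.zero_le _, hi, run253⟩
  · exact ⟨[0, 3, 5, 6, 9], 0, 65536, by decide, Nat.zero_le _, hi, run253⟩
  · exact ⟨[0, 3, 5, 6, 9], 0, 65536, by decide, Nat.zero_le _, hi, run253⟩
  · exact ⟨[0, 3, 5, 6, 9], 0, 65536, by decide, Nat.zero_le _, hi, run253⟩
  · exact ⟨[0, 3, 5, 6, 9], 0, 65536, by decide, Nat.zero_le _, hi, run253⟩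
  · exact ⟨[10, 12, 15], 0, 65536, by decide, Nat.zero_le _, hi, run254⟩
  · exact ⟨[10, 12, 15], 0, 65536, by decide, Nat.zero_le _, hi, run254⟩
  · exact ⟨[10, 12, 15], 0, 65536, by decide, Nat.zero_le _, hi, run254⟩

theorem exI_15_1 (C : ConfI W X D 15 1) (hC : Canon W true 15 1) : False := by
  refine doneI (vs := 8454790) (bv := 3) (y2 := 14) C (by decide) hC (by decide +kernel) ?_
  intro e he i hi
  simp only [List.mem_cons, List.not_mem_nil, or_false] at he
  rcases he with rfl | rfl | rfl | rfl | rfl | rfl | rfl | rfl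
  · exact ⟨[0, 3, 5], 0, 65536, by decide, Nat.zero_le _, hi, run255⟩
  · exact ⟨[0, 3, 5], 0, 65536, by decide, Nat.zero_le _, hi, run255⟩
  · exact ⟨[0, 3, 5], 0, 65536, by decide, Nat.zero_le _, hi, run255⟩
  · exact ⟨[6, 9, 10], 0, 65536, by decide, Nat.zero_le _, hi, run256⟩
  · exact ⟨[6, 9, 10], 0, 65536, by decide, Nat.zero_le _, hi, run256⟩
  · exact ⟨[6, 9, 10], 0, 65536, by decide, Nat.zero_le _, hi, run256⟩
  · exact ⟨[12, 15], 0, 65536, by decide, Nat.zero_le _, hi, run257⟩
  · exact ⟨[12, 15], 0, 65536, by decide, Nat.zero_le _, hi, run257⟩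

theorem exI_15_17 (C : ConfI W X D 15 17) (hC : Canon W true 15 17) : False := by
  refine doneI (vs := 8467078) (bv := 3) (y2 := 30) C (by decide) hC (by decide +kernel) ?_
  intro e he i hi
  simp only [List.mem_cons, List.not_mem_nil, or_false] at he
  rcases he with rfl | rfl | rfl | rfl | rfl | rfl | rfl | rfl
  · exact ⟨[0, 3, 5, 6, 9, 10, 12, 15], 0, 65536, by decide, Nat.zero_le _, hi, run258⟩
  · exact ⟨[0, 3, 5, 6, 9, 10, 12, 15], 0, 65536, by decide, Nat.zero_le _, hi, run258⟩
  · exact ⟨[0, 3, 5, 6, 9, 10, 12, 15], 0, 65536, by decide, Nat.zero_le _, hi, run258⟩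
  · exact ⟨[0, 3, 5, 6, 9, 10, 12, 15], 0, 65536, by decide, Nat.zero_le _, hi, run258⟩
  · exact ⟨[0, 3, 5, 6, 9, 10, 12, 15], 0, 65536, by decide, Nat.zero_le _, hi, run258⟩
  · exact ⟨[0, 3, 5, 6, 9, 10, 12, 15], 0, 65536, by decide, Nat.zero_le _, hi, run258⟩
  · exact ⟨[0, 3, 5, 6, 9, 10, 12, 15], 0, 65536, by decide, Nat.zero_le _, hi, run258⟩
  · exact ⟨[0, 3, 5, 6, 9, 10, 12, 15], 0, 65536, by decide, Nat.zero_le _, hi, run258⟩

theorem exI_31_1 (C : ConfI W X D 31 1) (hC : Canon W true 31 1) : False := by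
  refine doneI (vs := 8462982) (bv := 3) (y2 := 30) C (by decide) hC (by decide +kernel) ?_
  intro e he i hi
  simp only [List.mem_cons, List.not_mem_nil, or_false] at he
  rcases he with rfl | rfl | rfl | rfl | rfl | rfl | rfl | rfl
  · exact ⟨[0, 3, 5, 6, 9, 10, 12, 15], 0, 65536, by decide, Nat.zero_le _, hi, run259⟩
  · exact ⟨[0, 3, 5, 6, 9, 10, 12, 15], 0, 65536, by decide, Nat.zero_le _, hi, run259⟩
  · exact ⟨[0, 3, 5, 6, 9, 10, 12, 15], 0, 65536, by decide, Nat.zero_le _, hi, run259⟩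
  · exact ⟨[0, 3, 5, 6, 9, 10, 12, 15], 0, 65536, by decide, Nat.zero_le _, hi, run259⟩
  · exact ⟨[0, 3, 5, 6, 9, 10, 12, 15], 0, 65536, by decide, Nat.zero_le _, hi, run259⟩
  · exact ⟨[0, 3, 5, 6, 9, 10, 12, 15], 0, 65536, by decide, Nat.zero_le _, hi, run259⟩
  · exact ⟨[0, 3, 5, 6, 9, 10, 12, 15], 0, 65536, by decide, Nat.zero_le _, hi, run259⟩
  · exact ⟨[0, 3, 5, 6, 9, 10, 12, 15], 0, 65536, by decide, Nat.zero_le _, hi, run259⟩

theorem exI_15_3 (C : ConfI W X D 15 3) (hC : Canon W true 15 3) : False := by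
  refine doneI (vs := 8454915) (bv := 5) (y2 := 12) C (by decide) hC (by decide +kernel) ?_
  intro e he i hi
  simp only [List.mem_cons, List.not_mem_nil, or_false] at he
  rcases he with rfl | rfl | rfl | rfl | rfl | rfl | rfl | rfl
  · exact ⟨[0, 3, 5, 6, 9, 10, 12, 15], 0, 65536, by decide, Nat.zero_le _, hi, run260⟩
  · exact ⟨[0, 3, 5, 6, 9, 10, 12, 15], 0, 65536, by decide, Nat.zero_le _, hi, run260⟩
  · exact ⟨[0, 3, 5, 6, 9, 10, 12, 15], 0, 65536, by decide, Nat.zero_le _, hi, run260⟩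
  · exact ⟨[0, 3, 5, 6, 9, 10, 12, 15], 0, 65536, by decide, Nat.zero_le _, hi, run260⟩
  · exact ⟨[0, 3, 5, 6, 9, 10, 12, 15], 0, 65536, by decide, Nat.zero_le _, hi, run260⟩
  · exact ⟨[0, 3, 5, 6, 9, 10, 12, 15], 0, 65536, by decide, Nat.zero_le _, hi, run260⟩
  · exact ⟨[0, 3, 5, 6, 9, 10, 12, 15], 0, 65536, by decide, Nat.zero_le _, hi, run260⟩
  · exact ⟨[0, 3, 5, 6, 9, 10, 12, 15], 0, 65536, by decide, Nat.zero_le _, hi, run260⟩

theorem exI_15_19 (C : ConfI W X D 15 19) (hC : Canon W true 15 19) : False := by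
  refine doneI (vs := 8475395) (bv := 5) (y2 := 28) C (by decide) hC (by decide +kernel) ?_
  intro e he i hi
  simp only [List.mem_cons, List.not_mem_nil, or_false] at he
  rcases he with rfl | rfl | rfl | rfl | rfl | rfl | rfl | rfl
  · exact ⟨[0, 3, 5, 6, 9, 10, 12, 15], 0, 65536, by decide, Nat.zero_le _, hi, run261⟩
  · exact ⟨[0, 3, 5, 6, 9, 10, 12, 15], 0, 65536, by decide, Nat.zero_le _, hi, run261⟩
  · exact ⟨[0, 3, 5, 6, 9, 10, 12, 15], 0, 65536, by decide, Nat.zero_le _, hi, run261⟩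
  · exact ⟨[0, 3, 5, 6, 9, 10, 12, 15], 0, 65536, by decide, Nat.zero_le _, hi, run261⟩
  · exact ⟨[0, 3, 5, 6, 9, 10, 12, 15], 0, 65536, by decide, Nat.zero_le _, hi, run261⟩
  · exact ⟨[0, 3, 5, 6, 9, 10, 12, 15], 0, 65536, by decide, Nat.zero_le _, hi, run261⟩
  · exact ⟨[0, 3, 5, 6, 9, 10, 12, 15], 0, 65536, by decide, Nat.zero_le _, hi, run261⟩
  · exact ⟨[0, 3, 5, 6, 9, 10, 12, 15], 0, 65536, by decide, Nat.zero_le _, hi, run261⟩

theorem exI_31_3 (C : ConfI W X D 31 3) (hC : Canon W true 31 3) : False := by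
  refine doneI (vs := 8471299) (bv := 5) (y2 := 28) C (by decide) hC (by decide +kernel) ?_
  intro e he i hi
  simp only [List.mem_cons, List.not_mem_nil, or_false] at he
  rcases he with rfl | rfl | rfl | rfl | rfl | rfl | rfl | rfl
  · exact ⟨[0, 3, 5, 6, 9, 10, 12, 15], 0, 65536, by decide, Nat.zero_le _, hi, run262⟩
  · exact ⟨[0, 3, 5, 6, 9, 10, 12, 15], 0, 65536, by decide, Nat.zero_le _, hi, run262⟩
  · exact ⟨[0, 3, 5, 6, 9, 10, 12, 15], 0, 65536, by decide, Nat.zero_le _, hi, run262⟩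
  · exact ⟨[0, 3, 5, 6, 9, 10, 12, 15], 0, 65536, by decide, Nat.zero_le _, hi, run262⟩
  · exact ⟨[0, 3, 5, 6, 9, 10, 12, 15], 0, 65536, by decide, Nat.zero_le _, hi, run262⟩
  · exact ⟨[0, 3, 5, 6, 9, 10, 12, 15], 0, 65536, by decide, Nat.zero_le _, hi, run262⟩
  · exact ⟨[0, 3, 5, 6, 9, 10, 12, 15], 0, 65536, by decide, Nat.zero_le _, hi, run262⟩
  · exact ⟨[0, 3, 5, 6, 9, 10, 12, 15], 0, 65536, by decide, Nat.zero_le _, hi, run262⟩

theorem no_sys (S : Sys W X D) : False := by
  rcases conf_exists S with h | h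
  · obtain ⟨W, X, D, y0, y1, C, hm, hC⟩ := canonI h
    simp only [LI, List.mem_cons, Prod.mk.injEq, List.not_mem_nil, or_false] at hm
    rcases hm with ⟨rfl, rfl⟩ | ⟨rfl, rfl⟩ | ⟨rfl, rfl⟩ | ⟨rfl, rfl⟩ | ⟨rfl, rfl⟩ | ⟨rfl, rfl⟩ | ⟨rfl, rfl⟩ | ⟨rfl, rfl⟩ | ⟨rfl, rfl⟩ | ⟨rfl, rfl⟩ | ⟨rfl, rfl⟩ | ⟨rfl, rfl⟩ | ⟨rfl, rfl⟩ | ⟨rfl, rfl⟩ | ⟨rfl, rfl⟩ | ⟨rfl, rfl⟩ | ⟨rfl, rfl⟩ | ⟨rfl, rfl⟩ | ⟨rfl, rfl⟩ | ⟨rfl, rfl⟩ | ⟨rfl, rfl⟩ | ⟨rfl, rfl⟩ | ⟨rfl, rfl⟩
    · exact exI_1_2 C hC
    · exact exI_1_6 C hC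
    · exact exI_1_14 C hC
    · exact exI_1_30 C hC
    · exact exI_3_1 C hC
    · exact exI_3_4 C hC
    · exact exI_3_5 C hC
    · exact exI_3_12 C hC
    · exact exI_3_13 C hC
    · exact exI_3_28 C hC
    · exact exI_3_29 C hC
    · exact exI_7_1 C hC
    · exact exI_7_8 C hC
    · exact exI_7_9 C hC
    · exact exI_7_24 C hC
    · exact exI_7_25 C hC
    · exact exI_15_1 C hC
    · exact exI_15_3 C hC
    · exact exI_15_16 C hC
    · exact exI_15_17 C hC
    · exact exI_15_19 C hC
    · exact exI_31_1 C hC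
    · exact exI_31_3 C hC
  · obtain ⟨W, X, D, y0, y1, C, hm, hC⟩ := canonT h
    simp only [LT, List.mem_cons, Prod.mk.injEq, List.not_mem_nil, or_false] at hm
    rcases hm with ⟨rfl, rfl⟩ | ⟨rfl, rfl⟩ | ⟨rfl, rfl⟩ | ⟨rfl, rfl⟩ | ⟨rfl, rfl⟩ | ⟨rfl, rfl⟩ | ⟨rfl, rfl⟩ | ⟨rfl, rfl⟩ | ⟨rfl, rfl⟩ | ⟨rfl, rfl⟩ <;> rcases hC with ⟨hs, hC⟩ | ⟨hs, hC⟩
    · exact exT_1_2_3 C hs hC
    · exact exT_1_2_15 C hs hC
    · exact exT_1_6_3 C hs hC
    · exact exT_1_6_15 C hs hC
    · exact exT_1_14_3 C hs hC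
    · exact exT_1_14_15 C hs hC
    · exact exT_1_30_3 C hs hC
    · exact exT_1_30_15 C hs hC
    · exact exT_3_5_3 C hs hC
    · exact exT_3_5_15 C hs hC
    · exact exT_3_12_3 C hs hC
    · exact exT_3_12_15 C hs hC
    · exact exT_3_13_3 C hs hC
    · exact exT_3_13_15 C hs hC
    · exact exT_3_28_3 C hs hC
    · exact exT_3_28_15 C hs hC
    · exact exT_3_29_3 C hs hC
    · exact exT_3_29_15 C hs hC
    · exact exT_7_25_3 C hs hC
    · exact exT_7_25_15 C hs hC

end

theorem no_NV (M : ℕ → ℕ → GG) : ¬ NV M := fun H => no_sys (sys_of_NV H)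

end CDM
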