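import Pool.Agent.Helper83.CDM.CdmSys

/-! The even submatrices of a contracted difference matrix. -/
namespace CDM

section
variable {M : ℕ → ℕ → GG}

theorem dotB_two_pow (w : ℕ) {j : ℕ} (hj : j < 6) : dotB w (2 ^ j) = w.testBit j := by
  have hp : ∀ k, (2 ^ j).testBit k = decide (j = k) := fun k => Nat.testBit_two_pow
  unfold dotB
  simp only [hp]
  interval_cases j <;> simp

theorem PW_two_pow (W : ℕ → ℕ) {k : ℕ} (hk : k < 4) : PW W (2 ^ k) = W k := by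
  rw [PW_eq]
  have hp : ∀ i, (2 ^ k).testBit i = decide (k = i) := fun i => Nat.testBit_two_pow
  simp only [hp]
  interval_cases k <;> simp

/-- the rows of the two parity matrices -/
noncomputable def WW (M : ℕ → ℕ → GG) (k : ℕ) : ℕ := wd p0 (M k)
noncomputable def XX (M : ℕ → ℕ → GG) (k : ℕ) : ℕ := wd p1 (M k)

theorem p0_VM (a y : ℕ) : p0 (VM M a y) = dotB (PW (WW M) a) y := par_VM par0 a y
theorem p1_VM (a y : ℕ) : p1 (VM M a y) = dotB (PW (XX M) a) y := par_VM par1 a y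

theorem lam_VM {l : ℕ} (hl : l < 3) (a y : ℕ) : dotB (PW (mat (WW M) (XX M) l) a) y = lam l (p0 (VM M a y)) (p1 (VM M a y)) := by
  rw [p0_VM, p1_VM]
  interval_cases l
  · rfl
  · rfl
  · show dotB (PW (fun k => WW M k ^^^ XX M k) a) y = (_ ^^ _)
    rw [PW_xor, dotB_xor]

theorem lam_xor {l : ℕ} (u v u' v' : Bool) : lam l (u ^^ u') (v ^^ v') = (lam l u v ^^ lam l u' v') := by
  match l with
  | 0 => rfl
  | 1 => rfl
  | (n + 2) => cases u <;> cases v <;> cases u' <;> cases v' <;> rfl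

theorem PW_mat_lt {l : ℕ} (hl : l < 3) (a : ℕ) : PW (mat (WW M) (XX M) l) a < 64 :=
  PW_lt (fun k hk => mat_lt (fun k _ => wd_lt _ _) (fun k _ => wd_lt _ _) hl hk) a

/-- values reachable by sign changes -/
def Wg (M : ℕ → ℕ → GG) (a y : ℕ) (u v : Bool) : Prop :=
  ∃ K J, K &&& a = K ∧ J &&& y = J ∧ u = (p0 (VM M K y) ^^ p0 (VM M a J)) ∧ v = (p1 (VM M K y) ^^ p1 (VM M a J))

theorem Wg_zero (a y : ℕ) : Wg M a y false false := by
  refine ⟨0, 0, Nat.zero_and _, Nat.zero_and _, ?_, ?_⟩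
  · rw [par_zero_left par0, par_zero_right par0]; rfl
  · rw [par_zero_left par1, par_zero_right par1]; rfl

theorem and_xor_sub {K K' a : ℕ} (h : K &&& a = K) (h' : K' &&& a = K') : (K ^^^ K') &&& a = K ^^^ K' := by
  rw [Nat.and_xor_distrib_right, h, h']

theorem Wg_add {a y : ℕ} {u v u' v' : Bool} (h : Wg M a y u v) (h' : Wg M a y u' v') : Wg M a y (u ^^ u') (v ^^ v') := by
  obtain ⟨K, J, hK, hJ, rfl, rfl⟩ := h
  obtain ⟨K', J', hK', hJ', rfl, rfl⟩ := h'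
  refine ⟨K ^^^ K', J ^^^ J', and_xor_sub hK hK', and_xor_sub hJ hJ', ?_, ?_⟩
  · rw [par_left par0, par_right par0]
    cases p0 (VM M K y) <;> cases p0 (VM M K' y) <;> cases p0 (VM M a J) <;> cases p0 (VM M a J') <;> rfl
  · rw [par_left par1, par_right par1]
    cases p1 (VM M K y) <;> cases p1 (VM M K' y) <;> cases p1 (VM M a J) <;> cases p1 (VM M a J') <;> rfl

theorem two_pow_and {n a : ℕ} (h : a.testBit n = true) : 2 ^ n &&& a = 2 ^ n := by
  apply Nat.eq_of_testBit_eq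
  intro i
  rw [Nat.testBit_and, Nat.testBit_two_pow]
  by_cases e : n = i
  · subst e; simp [h]
  · simp [e]

theorem Ev_of_Wg {l a y : ℕ} (hl : l < 3) (h : ∀ u v, Wg M a y u v → lam l u v = false) : Ev (mat (WW M) (XX M) l) a y := by
  refine ⟨?_, ?_⟩
  · apply Nat.eq_of_testBit_eq
    intro j
    rw [Nat.testBit_and, Nat.zero_testBit]
    by_cases hj : j < 6
    · cases hy : y.testBit j
      · simp
      · rw [Bool.and_true, ← dotB_two_pow _ hj, lam_VM hl]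
        apply h
        refine ⟨0, 2 ^ j, Nat.zero_and _, two_pow_and hy, ?_, ?_⟩
        · rw [par_zero_left par0]; simp
        · rw [par_zero_left par1]; simp
    · have h1 : (PW (mat (WW M) (XX M) l) a).testBit j = false := by
        apply Nat.testBit_lt_two_pow
        calc _ < 2 ^ 6 := PW_mat_lt hl a
          _ ≤ 2 ^ j := Nat.pow_le_pow_right (by norm_num) (by omega)
      rw [h1]; rfl
  · intro k hk hak
    rw [← PW_two_pow (mat (WW M) (XX M) l) hk, lam_VM hl]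
    apply h
    refine ⟨2 ^ k, 0, two_pow_and hak, Nat.zero_and _, ?_, ?_⟩
    · rw [par_zero_right par0]; simp
    · rw [par_zero_right par1]; simp

theorem Wg_of_not_Ev {l a y : ℕ} (hl : l < 3) (h : ¬ Ev (mat (WW M) (XX M) l) a y) : ∃ u v, Wg M a y u v ∧ lam l u v = true := by
  by_contra h2
  apply h
  apply Ev_of_Wg hl
  intro u v hw
  by_contra h3
  exact h2 ⟨u, v, hw, by simpa using h3⟩

/-- half of a value in 2G -/
def al (g : GG) : Bool := decide (g.1 = 2)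
def be (g : GG) : Bool := decide (g.2.1 = 2)

theorem z4flip : ∀ x u v z : ZMod 4, decide (x = 1 ∨ x = 3) = false →
    decide (x = 2) = (decide (u = 1 ∨ u = 3) ^^ decide (v = 1 ∨ v = 3)) →
    x + (-2 : ℤ) • u + (-2 : ℤ) • (v + (-2 : ℤ) • z) = 0 := by decide
theorem z2flip : ∀ x u v z : ZMod 2, decide (x = 1) = false → x + (-2 : ℤ) • u + (-2 : ℤ) • (v + (-2 : ℤ) • z) = 0 := by decide
theorem z4add2 : ∀ x y z t : ZMod 4, decide (x = 1 ∨ x = 3) = false → decide (y = 1 ∨ y = 3) = false → decide (z = 1 ∨ z = 3) = false →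
    x + y = z + (2 : ℤ) • t → (decide (x = 2) ^^ decide (y = 2)) = (decide (z = 2) ^^ decide (t = 1 ∨ t = 3)) := by decide

theorem flipB (H : NV M) {a y : ℕ} (ha : 0 < a) (ha' : a < 16) (hD : DD M a y) : ¬ Wg M a y (al (VM M a y)) (be (VM M a y)) := by
  rintro ⟨K, J, hK, hJ, hu, hv⟩
  apply flip H ha ha' hD.1 hD.2.1 hK hJ
  obtain ⟨q0, q1, q2, q3⟩ := hD.2.2
  refine Prod.ext ?_ (Prod.ext ?_ (Prod.ext ?_ ?_))
  · exact z4flip _ _ _ _ q0 hu
  · exact z4flip _ _ _ _ q1 hv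
  · exact z2flip _ _ _ _ q2
  · exact z2flip _ _ _ _ q3

theorem En_of_Ev {l a y : ℕ} (hD : DD M a y) (h : Ev (mat (WW M) (XX M) l) a y) : En (WW M) (XX M) l a y := by
  refine ⟨h, ?_, ?_⟩
  · rw [← p0_VM]; exact hD.2.2.1
  · rw [← p1_VM]; exact hD.2.2.2.1

theorem bool_span : ∀ v0 u1 u2 v2 al be : Bool, (u2 ^^ v2) = true →
    (al = false ∧ be = false) ∨ (al = true ∧ be = v0) ∨ (al = u1 ∧ be = true) ∨ (al = u2 ∧ be = v2) ∨
    (al = (true ^^ u1) ∧ be = (v0 ^^ true)) ∨ (al = (true ^^ u2) ∧ be = (v0 ^^ v2)) ∨ (al = (u1 ^^ u2) ∧ be = (true ^^ v2)) := by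
  intro v0 u1 u2 v2 al be
  cases v0 <;> cases u1 <;> cases u2 <;> cases v2 <;> cases al <;> cases be <;> decide

theorem DD_E5 (H : NV M) {a y : ℕ} (ha : 0 < a) (ha' : a < 16) (hD : DD M a y) : ∃ l < 3, En (WW M) (XX M) l a y := by
  by_contra hn
  have hE : ∀ l < 3, ¬ Ev (mat (WW M) (XX M) l) a y := by
    intro l hl h
    exact hn ⟨l, hl, En_of_Ev hD h⟩
  obtain ⟨u0, v0, w0, e0⟩ := Wg_of_not_Ev (by norm_num) (hE 0 (by norm_num))
  obtain ⟨u1, v1, w1, e1⟩ := Wg_of_not_Ev (by norm_num) (hE 1 (by norm_num))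
  obtain ⟨u2, v2, w2, e2⟩ := Wg_of_not_Ev (by norm_num) (hE 2 (by norm_num))
  have e0 : u0 = true := e0
  have e1 : v1 = true := e1
  have e2 : (u2 ^^ v2) = true := e2
  subst e0 e1
  apply flipB H ha ha' hD
  rcases bool_span v0 u1 u2 v2 (al (VM M a y)) (be (VM M a y)) e2 with ⟨h1, h2⟩ | ⟨h1, h2⟩ | ⟨h1, h2⟩ | ⟨h1, h2⟩ | ⟨h1, h2⟩ | ⟨h1, h2⟩ | ⟨h1, h2⟩ <;>
    rw [h1, h2]
  · exact Wg_zero a y
  · exact w0
  · exact w1
  · exact w2
  · exact Wg_add w0 w1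
  · exact Wg_add w0 w2
  · exact Wg_add w1 w2

theorem dotB_sub {u y J : ℕ} (h : u &&& y = 0) (hJ : J &&& y = J) : dotB u J = false := by
  apply dotB_of_and
  rw [← hJ, ← Nat.and_assoc, Nat.and_comm u J, Nat.and_assoc, h, Nat.and_zero]

theorem lam_Wg_of_Ev {m a y : ℕ} (hm : m < 3) (hE : Ev (mat (WW M) (XX M) m) a y) {u v : Bool} (h : Wg M a y u v) :
    lam m u v = false := by
  obtain ⟨K, J, hK, hJ, rfl, rfl⟩ := h
  rw [lam_xor, ← lam_VM hm, ← lam_VM hm, dotB_sub hE.z hJ, dotB_PW]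
  have key : ∀ k < 4, (K.testBit k && dotB (mat (WW M) (XX M) m k) y) = false := by
    intro k hk
    cases hb : K.testBit k
    · rfl
    · rw [hE.d k hk (sub_bit hK hb)]; rfl
  rw [key 0 (by norm_num), key 1 (by norm_num), key 2 (by norm_num), key 3 (by norm_num)]; rfl

theorem lam_line : ∀ m < 3, ∀ l < 3, l ≠ m → ∀ u v a b : Bool, lam l u v = true → lam m u v = false → lam m a b = false →
    (a = false ∧ b = false) ∨ (a = u ∧ b = v) := by
  intro m hm l hl hlm u v a b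
  interval_cases m <;> interval_cases l <;> first
    | exact absurd rfl hlm
    | (cases u <;> cases v <;> cases a <;> cases b <;> decide)

theorem lam_val (H : NV M) {m l a y : ℕ} (hm : m < 3) (hl : l < 3) (hlm : l ≠ m) (ha : 0 < a) (ha' : a < 16) (hD : DD M a y)
    (hE : Ev (mat (WW M) (XX M) m) a y) (hn : ¬ Ev (mat (WW M) (XX M) l) a y) : lam m (al (VM M a y)) (be (VM M a y)) = true := by
  obtain ⟨u, v, w, e⟩ := Wg_of_not_Ev hl hn
  have h2 := lam_Wg_of_Ev hm hE w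
  by_contra h3
  have h3 : lam m (al (VM M a y)) (be (VM M a y)) = false := by simpa using h3
  apply flipB H ha ha' hD
  rcases lam_line m hm l hl hlm u v _ _ e h2 h3 with ⟨h4, h5⟩ | ⟨h4, h5⟩ <;> rw [h4, h5]
  · exact Wg_zero a y
  · exact w

theorem DD_core (H : NV M) {m l a y y' : ℕ} (hm : m < 3) (hl : l < 3) (hlm : l ≠ m) (ha : 0 < a) (ha' : a < 16) (hD : DD M a y)
    (hD' : DD M a y') (hne : y ≠ y') (hE : Ev (mat (WW M) (XX M) m) a y) (hE' : Ev (mat (WW M) (XX M) m) a y')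
    (hn : ∀ z, DD M a z → ¬ Ev (mat (WW M) (XX M) l) a z) : False := by
  have hD2 : DD M a (y ^^^ y') := ⟨Sys.xor_pos hne, Sys.xor_lt hD.2.1 hD'.2.1, Q_right hD.2.2 hD'.2.2⟩
  have hE2 : Ev (mat (WW M) (XX M) m) a (y ^^^ y') := by
    refine ⟨?_, ?_⟩
    · rw [Nat.and_xor_distrib_left, hE.z, hE'.z]; rfl
    · intro k hk hak
      rw [dotB_xor', hE.d k hk hak, hE'.d k hk hak]; rfl
  have l1 := lam_val H hm hl hlm ha ha' hD hE (hn _ hD)
  have l2 := lam_val H hm hl hlm ha ha' hD' hE' (hn _ hD')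
  have l3 := lam_val H hm hl hlm ha ha' hD2 hE2 (hn _ hD2)
  have hx := VM_xor (M := M) a y y'
  have h0 := z4add2 _ _ _ _ hD.2.2.1 hD'.2.2.1 hD2.2.2.1 (congrArg Prod.fst hx)
  have h1 := z4add2 _ _ _ _ hD.2.2.2.1 hD'.2.2.2.1 hD2.2.2.2.1 (congrArg (fun g => g.2.1) hx)
  have h0 : (al (VM M a y) ^^ al (VM M a y')) = (al (VM M a (y ^^^ y')) ^^ p0 (VM M a (y &&& y'))) := h0
  have h1 : (be (VM M a y) ^^ be (VM M a y')) = (be (VM M a (y ^^^ y')) ^^ p1 (VM M a (y &&& y'))) := h1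
  have h2 : lam m (al (VM M a y) ^^ al (VM M a y')) (be (VM M a y) ^^ be (VM M a y')) =
      lam m (al (VM M a (y ^^^ y')) ^^ p0 (VM M a (y &&& y'))) (be (VM M a (y ^^^ y')) ^^ p1 (VM M a (y &&& y'))) := by rw [h0, h1]
  rw [lam_xor, lam_xor, l1, l2, l3, ← lam_VM hm, dotB_sub hE.z] at h2
  · exact absurd h2 (by decide)
  · rw [Nat.and_comm y y', Nat.and_assoc, Nat.and_self]

theorem DD_E4 (H : NV M) {a l : ℕ} (ha : 0 < a) (ha' : a < 16) (hl : l < 3) : ∃ y, DD M a y ∧ En (WW M) (XX M) l a y := by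
  by_contra hn
  have hE : ∀ z, DD M a z → ¬ Ev (mat (WW M) (XX M) l) a z := fun z hz h => hn ⟨z, hz, En_of_Ev hz h⟩
  obtain ⟨p, q, hp, hp', hq, hq', hpq, hD⟩ := DD_dim H ha ha'
  have Dp : DD M a p := (hD _).mpr (by simp)
  have Dq : DD M a q := (hD _).mpr (by simp)
  have Dr : DD M a (p ^^^ q) := (hD _).mpr (by simp)
  obtain ⟨l1, hl1, E1⟩ := DD_E5 H ha ha' Dp
  obtain ⟨l2, hl2, E2⟩ := DD_E5 H ha ha' Dq
  obtain ⟨l3, hl3, E3⟩ := DD_E5 H ha ha' Dr
  have n1 : l ≠ l1 := by rintro rfl; exact hE _ Dp E1.ev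
  have n2 : l ≠ l2 := by rintro rfl; exact hE _ Dq E2.ev
  have n3 : l ≠ l3 := by rintro rfl; exact hE _ Dr E3.ev
  have hpr : p ≠ p ^^^ q := by
    intro h
    have h3 := Sys.xor_xor_self' p q
    rw [← h, Nat.xor_self] at h3; omega
  have hqr : q ≠ p ^^^ q := by
    intro h
    have h3 := Sys.xor_xor_cancel p q
    rw [← h, Nat.xor_self] at h3; omega
  rcases (show l1 = l2 ∨ l1 = l3 ∨ l2 = l3 by omega) with h | h | h
  · rw [← h] at E2; exact DD_core H hl1 hl n1 ha ha' Dp Dq hpq E1.ev E2.ev hE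
  · rw [← h] at E3; exact DD_core H hl1 hl n1 ha ha' Dp Dr hpr E1.ev E3.ev hE
  · rw [← h] at E3; exact DD_core H hl2 hl n2 ha ha' Dq Dr hqr E2.ev E3.ev hE

theorem DD_nz (H : NV M) {a l : ℕ} (ha : 0 < a) (ha' : a < 16) (hl : l < 3) : PW (mat (WW M) (XX M) l) a ≠ 0 := by
  intro h
  have key : ∀ g : GG, lam l (p0 g) (p1 g) = true → False := by
    intro g hg
    obtain ⟨y, hy⟩ := (bij_col H ha ha').2 g
    have hy : VM M a y.val = g := hy
    have := lam_VM (M := M) hl a y.val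
    rw [h, hy, hg] at this
    simp at this
  interval_cases l
  · exact key (1, 0, 0, 0) (by decide)
  · exact key (0, 1, 0, 0) (by decide)
  · exact key (1, 0, 0, 0) (by decide)

theorem sys_of_NV (H : NV M) : Sys (WW M) (XX M) (DD M) := by
  refine ⟨fun k _ => wd_lt _ _, fun k _ => wd_lt _ _, fun a ha ha' => DD_dim H ha ha', ?_, ?_, fun a l ha ha' hl => DD_E4 H ha ha' hl,
    fun a y ha ha' hD => DD_E5 H ha ha' hD, fun a l ha ha' hl => DD_nz H ha ha' hl, fun y hy hy' h => DD_star H hy hy' h⟩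
  · intro a b y _ _ _ _ _ h1 h2
    exact ⟨h1.1, h1.2.1, Q_left h1.2.2 h2.2.2⟩
  · intro a b c y ha ha' hb hb' hc hc' hab hca hcb hcab h1 h2 h3
    exact DD_small H ha ha' hb hb' hc hc' hab hca hcb hcab h1 h2 h3

end

end CDM
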