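import Pool.Agent.Helper83.CDM.Alg

/-! The system of a contracted difference matrix. -/
namespace CDM

/-- all parities vanish -/
def Q (g : GG) : Prop := p0 g = false ∧ p1 g = false ∧ p2 g = false ∧ p3 g = false

instance : DecidablePred Q := fun g => by unfold Q; infer_instance

theorem Q_zero : Q 0 := by decide

theorem cardQ : (Finset.univ.filter Q : Finset GG).card = 4 := by decide +kernel
theorem cardH : (Finset.univ.filter (fun g : GG => p0 g = false ∧ p1 g = false)).card = 16 := by decide +kernel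
theorem cardG : Fintype.card GG = 64 := by simp [GG, ZMod.card]

/-- the three functionals -/
def lam : ℕ → Bool → Bool → Bool
  | 0 => fun u _ => u
  | 1 => fun _ v => v
  | _ => fun u v => u ^^ v

def DD (M : ℕ → ℕ → GG) (a y : ℕ) : Prop := 0 < y ∧ y < 64 ∧ Q (VM M a y)

section
variable {M : ℕ → ℕ → GG}


theorem par_left {p : GG → Bool} (hp : Par p) (a b y : ℕ) : p (VM M (a ^^^ b) y) = (p (VM M a y) ^^ p (VM M b y)) := by
  rw [par_VM hp, par_VM hp, par_VM hp, dotB_PW, dotB_PW, dotB_PW]
  simp only [Nat.testBit_xor]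
  generalize dotB (wd p (M 0)) y = d0
  generalize dotB (wd p (M 1)) y = d1
  generalize dotB (wd p (M 2)) y = d2
  generalize dotB (wd p (M 3)) y = d3
  rw [Bool.and_xor_distrib_right, Bool.and_xor_distrib_right, Bool.and_xor_distrib_right, Bool.and_xor_distrib_right]
  generalize (a.testBit 0 && d0) = x0
  generalize (a.testBit 1 && d1) = x1
  generalize (a.testBit 2 && d2) = x2
  generalize (a.testBit 3 && d3) = x3
  generalize (b.testBit 0 && d0) = z0
  generalize (b.testBit 1 && d1) = z1
  generalize (b.testBit 2 && d2) = z2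
  generalize (b.testBit 3 && d3) = z3
  revert x0 x1 x2 x3 z0 z1 z2 z3
  decide

theorem par_right {p : GG → Bool} (hp : Par p) (a y y' : ℕ) : p (VM M a (y ^^^ y')) = (p (VM M a y) ^^ p (VM M a y')) := by
  rw [par_VM hp, par_VM hp, par_VM hp, dotB_xor']

theorem par_zero_left {p : GG → Bool} (hp : Par p) (y : ℕ) : p (VM M 0 y) = false := by
  have := par_left (M := M) hp 0 0 y
  rw [Nat.xor_self] at this
  simpa using this

theorem par_zero_right {p : GG → Bool} (hp : Par p) (a : ℕ) : p (VM M a 0) = false := by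
  rw [par_VM hp]; simp

theorem Q_left {a b y : ℕ} (h : Q (VM M a y)) (h' : Q (VM M b y)) : Q (VM M (a ^^^ b) y) := by
  refine ⟨?_, ?_, ?_, ?_⟩
  · rw [par_left par0, h.1, h'.1]; rfl
  · rw [par_left par1, h.2.1, h'.2.1]; rfl
  · rw [par_left par2, h.2.2.1, h'.2.2.1]; rfl
  · rw [par_left par3, h.2.2.2, h'.2.2.2]; rfl

theorem Q_right {a y y' : ℕ} (h : Q (VM M a y)) (h' : Q (VM M a y')) : Q (VM M a (y ^^^ y')) := by
  refine ⟨?_, ?_, ?_, ?_⟩
  · rw [par_right par0, h.1, h'.1]; rfl
  · rw [par_right par1, h.2.1, h'.2.1]; rfl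
  · rw [par_right par2, h.2.2.1, h'.2.2.1]; rfl
  · rw [par_right par3, h.2.2.2, h'.2.2.2]; rfl

theorem Q_zero_left (y : ℕ) : Q (VM M 0 y) := ⟨par_zero_left par0 y, par_zero_left par1 y, par_zero_left par2 y, par_zero_left par3 y⟩
theorem Q_zero_right (a : ℕ) : Q (VM M a 0) := ⟨par_zero_right par0 a, par_zero_right par1 a, par_zero_right par2 a, par_zero_right par3 a⟩

theorem bij_col (H : NV M) {a : ℕ} (ha : 0 < a) (ha' : a < 16) : Function.Bijective (fun y : Fin 64 => VM M a y.val) := by
  rw [Fintype.bijective_iff_injective_and_card]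
  refine ⟨?_, by rw [cardG]; rfl⟩
  intro x y h
  exact Fin.ext (inj_col H ha ha' x.isLt y.isLt h)

theorem dim_aux (H : NV M) {a : ℕ} (ha : 0 < a) (ha' : a < 16) :
    (Finset.univ.filter (fun y : Fin 64 => Q (VM M a y.val))).card = 4 := by
  rw [← cardQ]
  apply Finset.card_bij (fun y _ => VM M a y.val)
  · intro y hy; simpa using hy
  · intro x _ y _ h; exact (bij_col H ha ha').1 h
  · intro g hg
    obtain ⟨y, hy⟩ := (bij_col H ha ha').2 g
    have hy : VM M a y.val = g := hy
    refine ⟨y, ?_, hy⟩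
    simp only [Finset.mem_filter, Finset.mem_univ, true_and] at hg ⊢
    rw [hy]; exact hg

theorem DD_dim (H : NV M) {a : ℕ} (ha : 0 < a) (ha' : a < 16) : ∃ p q, 0 < p ∧ p < 64 ∧ 0 < q ∧ q < 64 ∧ p ≠ q ∧
    ∀ z, DD M a z ↔ (z = p ∨ z = q ∨ z = p ^^^ q) := by
  have hc := dim_aux H ha ha'
  set K := (Finset.univ.filter (fun y : Fin 64 => Q (VM M a y.val))) with hK
  have h0 : (0 : Fin 64) ∈ K := by
    rw [hK]; simp only [Finset.mem_filter, Finset.mem_univ, true_and]; exact Q_zero_right a
  have hc3 : (K.erase 0).card = 3 := by rw [Finset.card_erase_of_mem h0, hc]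
  obtain ⟨x, y, z, hxy, hxz, hyz, he⟩ := Finset.card_eq_three.mp hc3
  have mem : ∀ w : Fin 64, w ∈ K.erase 0 ↔ DD M a w.val := by
    intro w
    rw [Finset.mem_erase, hK]
    simp only [Finset.mem_filter, Finset.mem_univ, true_and]
    unfold DD
    constructor
    · rintro ⟨h1, h2⟩
      refine ⟨?_, w.isLt, h2⟩
      rcases Nat.eq_zero_or_pos w.val with h | h
      · exact absurd (Fin.ext h) h1
      · exact h
    · rintro ⟨h1, _, h2⟩
      refine ⟨?_, h2⟩
      rintro rfl; exact absurd h1 (by simp)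
  have hx : DD M a x.val := (mem x).mp (by rw [he]; simp)
  have hy : DD M a y.val := (mem y).mp (by rw [he]; simp)
  have hxyv : x.val ≠ y.val := fun h => hxy (Fin.ext h)
  have hlt : x.val ^^^ y.val < 64 := Sys.xor_lt x.isLt y.isLt
  have hD : DD M a (x.val ^^^ y.val) := ⟨Sys.xor_pos hxyv, hlt, Q_right hx.2.2 hy.2.2⟩
  have hz : z.val = x.val ^^^ y.val := by
    have h1 : (⟨x.val ^^^ y.val, hlt⟩ : Fin 64) ∈ K.erase 0 := (mem _).mpr hD
    rw [he] at h1
    simp only [Finset.mem_insert, Finset.mem_singleton] at h1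
    rcases h1 with h | h | h
    · exfalso
      have h2 : x.val ^^^ y.val = x.val := congrArg Fin.val h
      have h3 := Sys.xor_xor_self' x.val y.val
      rw [h2, Nat.xor_self] at h3
      have := hy.1; omega
    · exfalso
      have h2 : x.val ^^^ y.val = y.val := congrArg Fin.val h
      have h3 := Sys.xor_xor_cancel x.val y.val
      rw [h2, Nat.xor_self] at h3
      have := hx.1; omega
    · exact (congrArg Fin.val h).symm
  refine ⟨x.val, y.val, hx.1, x.isLt, hy.1, y.isLt, hxyv, ?_⟩
  intro w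
  constructor
  · intro hw
    have h1 : (⟨w, hw.2.1⟩ : Fin 64) ∈ K.erase 0 := (mem _).mpr hw
    rw [he] at h1
    simp only [Finset.mem_insert, Finset.mem_singleton] at h1
    rcases h1 with h | h | h
    · exact Or.inl (congrArg Fin.val h)
    · exact Or.inr (Or.inl (congrArg Fin.val h))
    · exact Or.inr (Or.inr ((congrArg Fin.val h).trans hz))
  · rintro (rfl | rfl | rfl)
    · exact hx
    · exact hy
    · exact hD

theorem DD_small (H : NV M) {a b c y : ℕ} (ha : 0 < a) (ha' : a < 16) (hb : 0 < b) (hb' : b < 16) (hc : 0 < c) (hc' : c < 16)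
    (hab : a ≠ b) (hca : c ≠ a) (hcb : c ≠ b) (hcab : c ≠ a ^^^ b) (h1 : DD M a y) (h2 : DD M b y) (h3 : DD M c y) : False := by
  have hinj : Function.Injective (fun e : Fin 16 => VM M e.val y) := by
    intro e f h
    exact Fin.ext (inj_row H h1.1 h1.2.1 e.isLt f.isLt h)
  have hle : (Finset.univ.filter (fun e : Fin 16 => Q (VM M e.val y))).card ≤ 4 := by
    rw [← cardQ]
    apply Finset.card_le_card_of_injOn (fun e => VM M e.val y)
    · intro e he; simpa using he
    · intro e _ f _ h; exact hinj h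
  have hx := Sys.xor_lt16 ha' hb'
  have hxp := Sys.xor_pos hab
  have hxa : a ^^^ b ≠ a := by
    intro h
    have h3 := Sys.xor_xor_self' a b
    rw [h, Nat.xor_self] at h3; omega
  have hxb : a ^^^ b ≠ b := by
    intro h
    have h3 := Sys.xor_xor_cancel a b
    rw [h, Nat.xor_self] at h3; omega
  have hsub : ({⟨0, by norm_num⟩, ⟨a, ha'⟩, ⟨b, hb'⟩, ⟨a ^^^ b, hx⟩, ⟨c, hc'⟩} : Finset (Fin 16)) ⊆
      (Finset.univ.filter (fun e : Fin 16 => Q (VM M e.val y))) := by
    intro e he
    simp only [Finset.mem_insert, Finset.mem_singleton] at he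
    simp only [Finset.mem_filter, Finset.mem_univ, true_and]
    rcases he with rfl | rfl | rfl | rfl | rfl
    · exact Q_zero_left y
    · exact h1.2.2
    · exact h2.2.2
    · exact Q_left h1.2.2 h2.2.2
    · exact h3.2.2
  have hcard : ({⟨0, by norm_num⟩, ⟨a, ha'⟩, ⟨b, hb'⟩, ⟨a ^^^ b, hx⟩, ⟨c, hc'⟩} : Finset (Fin 16)).card = 5 := by
    rw [Finset.card_insert_of_notMem, Finset.card_insert_of_notMem, Finset.card_insert_of_notMem, Finset.card_insert_of_notMem,
      Finset.card_singleton]
    · simp only [Finset.mem_singleton, Fin.mk.injEq]; exact fun h => hcab h.symm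
    · simp only [Finset.mem_insert, Finset.mem_singleton, Fin.mk.injEq, not_or]
      exact ⟨fun h => hxb h.symm, fun h => hcb h.symm⟩
    · simp only [Finset.mem_insert, Finset.mem_singleton, Fin.mk.injEq, not_or]
      exact ⟨hab, fun h => hxa h.symm, fun h => hca h.symm⟩
    · simp only [Finset.mem_insert, Finset.mem_singleton, Fin.mk.injEq, not_or]
      exact ⟨by omega, by omega, by omega, by omega⟩
  have := Finset.card_le_card hsub
  omega

theorem DD_star (H : NV M) {y : ℕ} (hy : 0 < y) (hy' : y < 64)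
    (h : ∀ k < 4, dotB (wd p0 (M k)) y = false ∧ dotB (wd p1 (M k)) y = false) :
    ∃ a b, 0 < a ∧ a < 16 ∧ 0 < b ∧ b < 16 ∧ a ≠ b ∧ DD M a y ∧ DD M b y := by
  have hinj : Function.Injective (fun e : Fin 16 => VM M e.val y) := by
    intro e f h
    exact Fin.ext (inj_row H hy hy' e.isLt f.isLt h)
  have hH : ∀ e : ℕ, p0 (VM M e y) = false ∧ p1 (VM M e y) = false := by
    intro e
    rw [par_VM par0, par_VM par1, dotB_PW, dotB_PW]
    rw [(h 0 (by norm_num)).1, (h 1 (by norm_num)).1, (h 2 (by norm_num)).1, (h 3 (by norm_num)).1,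
      (h 0 (by norm_num)).2, (h 1 (by norm_num)).2, (h 2 (by norm_num)).2, (h 3 (by norm_num)).2]
    simp
  have himg : (Finset.univ.image (fun e : Fin 16 => VM M e.val y)) = Finset.univ.filter (fun g : GG => p0 g = false ∧ p1 g = false) := by
    apply Finset.eq_of_subset_of_card_le
    · intro g hg
      simp only [Finset.mem_image, Finset.mem_univ, true_and] at hg
      obtain ⟨e, rfl⟩ := hg
      simp only [Finset.mem_filter, Finset.mem_univ, true_and]
      exact hH e.val
    · rw [cardH, Finset.card_image_of_injective _ hinj]; simp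
  have hc : (Finset.univ.filter (fun e : Fin 16 => Q (VM M e.val y))).card = 4 := by
    rw [← cardQ]
    apply Finset.card_bij (fun e _ => VM M e.val y)
    · intro e he; simpa using he
    · intro e _ f _ h; exact hinj h
    · intro g hg
      simp only [Finset.mem_filter, Finset.mem_univ, true_and] at hg
      have : g ∈ (Finset.univ.image (fun e : Fin 16 => VM M e.val y)) := by
        rw [himg]; simp only [Finset.mem_filter, Finset.mem_univ, true_and]; exact ⟨hg.1, hg.2.1⟩
      simp only [Finset.mem_image, Finset.mem_univ, true_and] at this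
      obtain ⟨e, rfl⟩ := this
      exact ⟨e, by simpa using hg, rfl⟩
  have h0 : (⟨0, by norm_num⟩ : Fin 16) ∈ (Finset.univ.filter (fun e : Fin 16 => Q (VM M e.val y))) := by
    simp only [Finset.mem_filter, Finset.mem_univ, true_and]; exact Q_zero_left y
  have hc3 : ((Finset.univ.filter (fun e : Fin 16 => Q (VM M e.val y))).erase ⟨0, by norm_num⟩).card = 3 := by
    rw [Finset.card_erase_of_mem h0, hc]
  obtain ⟨e, f, g, hef, _, _, he⟩ := Finset.card_eq_three.mp hc3
  have key : ∀ w : Fin 16, w ∈ ((Finset.univ.filter (fun e : Fin 16 => Q (VM M e.val y))).erase ⟨0, by norm_num⟩) → 0 < w.val ∧ DD M w.val y := by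
    intro w hw
    rw [Finset.mem_erase] at hw
    simp only [Finset.mem_filter, Finset.mem_univ, true_and] at hw
    refine ⟨?_, hy, hy', hw.2⟩
    rcases Nat.eq_zero_or_pos w.val with h | h
    · exact absurd (Fin.ext h) hw.1
    · exact h
  have k1 := key e (by rw [he]; simp)
  have k2 := key f (by rw [he]; simp)
  exact ⟨e.val, f.val, k1.1, e.isLt, k2.1, f.isLt, fun h => hef (Fin.ext h), k1.2, k2.2⟩

end

end CDM
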