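import Pool.Agent.Helper83.CDM.LeafD

/-! Soundness of the second level. -/
namespace CDM

noncomputable def mkPD (W : ℕ → ℕ) (b : ℕ) : PD :=
  PD.mk b (rx b (W 0) (W 1) (W 2) (W 3)) (15 - b) (rx (15 - b) (W 0) (W 1) (W 2) (W 3))

theorem pds_eq (W : ℕ → ℕ) : pds (W 0) (W 1) (W 2) (W 3) = reps.map (mkPD W) := rfl

theorem onPD_t {G : ℕ → ℕ → RL → ℕ} {W : ℕ → ℕ} (hW : ∀ k < 4, W k < 64) {i b : ℕ}
    (h : ∀ a, (a = b ∨ a = 15 - b) → (G a (PW W a) (rx a (W 0) (W 1) (W 2) (W 3))).testBit i = true) :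
    (onPD G (mkPD W b)).testBit i = true := by
  have e : onPD G (mkPD W b) = sand (lit64 (PW W b) (fun s => G b s (rx b (W 0) (W 1) (W 2) (W 3))))
    (lit64 (PW W (15 - b)) (fun s => G (15 - b) s (rx (15 - b) (W 0) (W 1) (W 2) (W 3)))) := rfl
  rw [e, lit64_eq (PW_lt hW b), lit64_eq (PW_lt hW (15 - b)), t_sand, h b (Or.inl rfl), h _ (Or.inr rfl)]; rfl

theorem reps_bound : ∀ b ∈ reps, 0 < b ∧ b < 15 ∧ 0 < 15 - b ∧ 15 - b < 15 := by decide

theorem exists_bit : ∀ x < 64, x ≠ 0 → ∃ j < 6, x.testBit j = true := by decide +kernel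

section
variable {W X : ℕ → ℕ} {D : ℕ → ℕ → Prop} {y0 y1 y2 : ℕ}

theorem pds_step (S : Sys W X D) (T : Top D y0 y1 y2) {gn g0 g1 g2 ga : PD → ℕ} {i : ℕ} {pd : ℕ → PD}
    (hpd : ∀ b, (pd b).fst = b)
    (hn : ∀ b ∈ reps, (∀ a, a = b ∨ a = 15 - b → ∀ l < 3, ∃ y, offTop y0 y1 y2 y ∧ En W X l a y) → (gn (pd b)).testBit i = true)
    (h0 : ∀ b ∈ reps, (∀ a, a = b ∨ a = 15 - b → ∀ l < 3, (∃ y, offTop y0 y1 y2 y ∧ En W X l a y) ∨ En W X l a y0) → (g0 (pd b)).testBit i = true)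
    (h1 : ∀ b ∈ reps, (∀ a, a = b ∨ a = 15 - b → ∀ l < 3, (∃ y, offTop y0 y1 y2 y ∧ En W X l a y) ∨ En W X l a y1) → (g1 (pd b)).testBit i = true)
    (h2 : ∀ b ∈ reps, (∀ a, a = b ∨ a = 15 - b → ∀ l < 3, (∃ y, offTop y0 y1 y2 y ∧ En W X l a y) ∨ En W X l a y2) → (g2 (pd b)).testBit i = true)
    (hA : ∀ b ∈ reps, (∀ a, a = b ∨ a = 15 - b → ∀ l < 3, En W X l a y0 ∨ En W X l a y1 ∨ En W X l a y2) → (ga (pd b)).testBit i = true)
    {star : Bool} (hstar : star = true → ∀ k < 4, dotB (W k) y0 = false ∧ dotB (X k) y0 = false)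
    {acc : ℕ} (hacc : acc.testBit i = true) :
    (dp gn g0 g1 g2 ga star (reps.map pd) acc 0 0 0 0 0 0 0).testBit i = true := by
  have := dp_sound (gn := gn) (g0 := g0) (g1 := g1) (g2 := g2) (ga := ga) (star := star) (i := i)
    (fun p => trc D y0 y1 y2 p.fst) (reps.map pd) 0 (fun j => match j with | 0 => acc | _ => 0) (by norm_num) hacc ?_ ?_ ?_ ?_
  · exact this
  · intro p hp
    rw [List.mem_map] at hp
    obtain ⟨b, hb, rfl⟩ := hp
    rw [hpd]
    have hbb := reps_bound b hb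
    have A := stepOK S T hbb.1 hbb.2.1
    have B := stepOK S T hbb.2.2.1 hbb.2.2.2
    rw [trc_compl S T hbb.1 hbb.2.1] at B
    rcases A with ⟨t, A⟩ | ⟨t, A⟩ | ⟨t, A⟩ | ⟨t, A⟩ | ⟨t, A⟩ <;> rcases B with ⟨t', B⟩ | ⟨t', B⟩ | ⟨t', B⟩ | ⟨t', B⟩ | ⟨t', B⟩ <;>
      rw [t] at t' ⊢ <;> first | (exact absurd t' (by decide)) | skip
    · exact Or.inl ⟨rfl, hn b hb (by rintro a (rfl | rfl); exacts [A, B])⟩
    · exact Or.inr (Or.inl ⟨rfl, h0 b hb (by rintro a (rfl | rfl); exacts [A, B])⟩)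
    · exact Or.inr (Or.inr (Or.inl ⟨rfl, h1 b hb (by rintro a (rfl | rfl); exacts [A, B])⟩))
    · exact Or.inr (Or.inr (Or.inr (Or.inl ⟨rfl, h2 b hb (by rintro a (rfl | rfl); exacts [A, B])⟩)))
    · exact Or.inr (Or.inr (Or.inr (Or.inr ⟨rfl, hA b hb (by rintro a (rfl | rfl); exacts [A, B])⟩)))
  · intro p _; exact Nat.zero_and _
  · rw [List.pairwise_map]
    exact (trc_disj S T).imp (fun {a b} h => by rw [hpd, hpd]; exact h)
  · intro hs
    right
    obtain ⟨b, hb, h⟩ := trc_star S T (hstar hs)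
    exact ⟨pd b, List.mem_map_of_mem hb, by rw [hpd]; exact h⟩

theorem lvl1_sound (S : Sys W X D) (T : Top D y0 y1 y2) {c : Cfg} {i : ℕ} (hi : i < 65536) (hR : ∀ k < 4, rowOf c k i = X k)
    {star : Bool} (hstar : star = true → ∀ k < 4, dotB (W k) y0 = false ∧ dotB (X k) y0 = false)
    {ys : List ℕ} (hys : ∀ y, offTop y0 y1 y2 y → y ∈ ys) {acc : ℕ} (hacc : acc.testBit i = true) :
    (lvl1 c star ys y0 y1 y2 (W 0) (W 1) (W 2) (W 3) acc).testBit i = true := by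
  unfold lvl1
  rw [pds_eq]
  have hW := S.W_lt
  refine pds_step S T (pd := mkPD W) (fun _ => rfl) ?_ ?_ ?_ ?_ ?_ hstar hacc
  · intro b _ h
    refine onPD_t hW (fun a ha => t_gN hW hi hR ?_)
    intro l hl
    obtain ⟨y, hy, hE⟩ := h a ha l hl
    exact ⟨y, hys y hy, hE⟩
  · intro b _ h
    refine onPD_t hW (fun a ha => t_gQ hW hi hR ?_)
    intro l hl
    rcases h a ha l hl with ⟨y, hy, hE⟩ | hE
    · exact Or.inl ⟨y, hys y hy, hE⟩
    · exact Or.inr hE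
  · intro b _ h
    refine onPD_t hW (fun a ha => t_gQ hW hi hR ?_)
    intro l hl
    rcases h a ha l hl with ⟨y, hy, hE⟩ | hE
    · exact Or.inl ⟨y, hys y hy, hE⟩
    · exact Or.inr hE
  · intro b _ h
    refine onPD_t hW (fun a ha => t_gQ hW hi hR ?_)
    intro l hl
    rcases h a ha l hl with ⟨y, hy, hE⟩ | hE
    · exact Or.inl ⟨y, hys y hy, hE⟩
    · exact Or.inr hE
  · intro b _ h
    exact onPD_t hW (fun a ha => t_gA hW hi hR (h a ha))

theorem nzAll_sound {c : Cfg} {R : ℕ → ℕ} {i : ℕ} (hi : i < 65536) (hR : ∀ k < 4, rowOf c k i = R k) (hlt : ∀ k < 4, R k < 64)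
    (hnz : ∀ a, 0 < a → a < 16 → PW R a ≠ 0) : (nzAll c).testBit i = true := by
  unfold nzAll
  rw [t_andL]
  refine ⟨t_full hi, ?_⟩
  intro a ha
  have hb : ∀ a ∈ [1,2,3,4,5,6,7,8,9,10,11,12,13,14,15], 0 < a ∧ a < 16 := by decide
  have := hb a ha
  obtain ⟨j, hj, hjt⟩ := exists_bit _ (PW_lt hlt a) (hnz a this.1 this.2)
  rw [t_orL]
  refine ⟨j, ?_, ?_⟩
  · interval_cases j <;> simp
  · rw [t_SA hi, PW_congr (W' := R) hR]; exact hjt

theorem zsum_sound {c : Cfg} {R : ℕ → ℕ} {i m : ℕ} (hi : i < 65536) (hR : ∀ k < 4, rowOf c k i = R k) (hlt : ∀ k < 4, R k < 64)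
    (hnz : ∀ a, 0 < a → a < 16 → PW R a ≠ 0) (hm : PW R 15 &&& m = 0) : (zsum c m).testBit i = true := by
  unfold zsum
  rw [t_andL]
  refine ⟨nzAll_sound hi hR hlt hnz, ?_⟩
  intro j hj
  rw [mem_bits6] at hj
  rw [t_NSA hi, PW_congr (W' := R) hR, tb_false_of_and hm hj.2]; rfl

theorem NE_sound {c : Cfg} {R : ℕ → ℕ} {i a s : ℕ} (hi : i < 65536) (hR : ∀ k < 4, rowOf c k i = R k) (hlt : ∀ k < 4, R k < 64)
    (hs : s < 64) (hne : s ^^^ PW R a ≠ 0) : (NE c a s).testBit i = true := by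
  unfold NE
  obtain ⟨j, hj, hjt⟩ := exists_bit _ (Sys.xor_lt hs (PW_lt hlt a)) hne
  rw [t_orL]
  refine ⟨j, ?_, ?_⟩
  · interval_cases j <;> simp
  · rw [tb_eq, t_sel, t_NSA hi, t_SA hi, PW_congr (W' := R) hR]
    rw [Nat.testBit_xor] at hjt
    revert hjt
    cases s.testBit j <;> cases (PW R a).testBit j <;> simp

theorem neAll_cons (c : Cfg) (p : PD) (l : List PD) (i : ℕ) :
    neAll c (p :: l) i = Nat.land (onPD (fun a s _ => NE c a s) p) (neAll c l i) := rfl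

theorem acc1_sound (S : Sys W X D) {c : Cfg} {i m : ℕ} (hi : i < 65536) (hR : ∀ k < 4, rowOf c k i = X k)
    (hm : PW X 15 &&& m = 0) : (acc1 c m (W 0) (W 1) (W 2) (W 3)).testBit i = true := by
  have hne : ∀ a, 0 < a → a < 16 → PW W a ^^^ PW X a ≠ 0 := by
    intro a ha ha'
    have := S.nz a 2 ha ha' (by norm_num)
    rw [← PW_xor]; exact this
  unfold acc1
  rw [pds_eq]
  have hbase : (Nat.land (zsum c m) (lit64 (Nat.xor (W 0) (Nat.xor (W 1) (Nat.xor (W 2) (W 3)))) (fun s => NE c 15 s))).testBit i = true := by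
    have e : Nat.xor (W 0) (Nat.xor (W 1) (Nat.xor (W 2) (W 3))) = PW W 15 := by
      rw [PW_eq]; rfl
    rw [e, lit64_eq (PW_lt S.W_lt 15), t_land, Bool.and_eq_true]
    refine ⟨zsum_sound hi hR S.X_lt (fun a ha ha' => S.nz a 1 ha ha' (by norm_num)) hm, ?_⟩
    exact NE_sound hi hR S.X_lt (PW_lt S.W_lt 15) (hne 15 (by norm_num) (by norm_num))
  have key : ∀ l : List ℕ, (∀ b ∈ l, b ∈ reps) → ∀ x : ℕ, x.testBit i = true → (neAll c (l.map (mkPD W)) x).testBit i = true := by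
    intro l
    induction l with
    | nil => intro _ x hx; exact hx
    | cons b l ih =>
      intro hl x hx
      rw [List.map_cons, neAll_cons, t_land, Bool.and_eq_true]
      refine ⟨?_, ih (fun b hb => hl b (by simp [hb])) x hx⟩
      have hb := reps_bound b (hl b (by simp))
      apply onPD_t S.W_lt
      rintro a (rfl | rfl)
      · exact NE_sound hi hR S.X_lt (PW_lt S.W_lt _) (hne _ hb.1 (by omega))
      · exact NE_sound hi hR S.X_lt (PW_lt S.W_lt _) (hne _ hb.2.2.1 (by omega))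
  exact key reps (fun b hb => hb) _ hbase

theorem nzCol_sound {c : Cfg} {i x : ℕ} (hi : i < 65536) (hR : ∀ k < 4, rowOf c k i = X k) (hx : x.testBit i = true)
    (h : ∀ j < 6, ∃ k < 4, (W k).testBit j = true ∨ (X k).testBit j = true) :
    (nzCol c (Nat.lor (W 0) (Nat.lor (W 1) (Nat.lor (W 2) (W 3)))) x).testBit i = true := by
  unfold nzCol
  rw [t_andL]
  refine ⟨hx, ?_⟩
  intro j hj
  have hj : j < 6 := by
    revert hj; simp only [List.mem_cons, List.not_mem_nil, or_false]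
    rintro (rfl | rfl | rfl | rfl | rfl | rfl) <;> norm_num
  rw [tb_eq, t_sel, t_full hi]
  split_ifs with h2
  · rfl
  · rw [t_orL]
    obtain ⟨k, hk, h3⟩ := h j hj
    rcases h3 with h3 | h3
    · exfalso; apply h2
      simp only [t_lor]
      interval_cases k <;> simp [h3]
    · refine ⟨k, ?_, ?_⟩
      · interval_cases k <;> simp
      · rw [t_X hk hi, hR k hk]; exact h3

theorem withRows_eq {c : Cfg} {i : ℕ} {R : ℕ → ℕ} (hR : ∀ k < 4, rowOf c k i = R k) (hlt : ∀ k < 4, R k < 64)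
    (f : ℕ → ℕ → ℕ → ℕ → Bool) : withRows c i f = f (R 0) (R 1) (R 2) (R 3) := by
  unfold withRows
  rw [hR 0 (by norm_num), hR 1 (by norm_num), hR 2 (by norm_num), hR 3 (by norm_num),
    lit64_eq (hlt 0 (by norm_num)), lit64_eq (hlt 1 (by norm_num)), lit64_eq (hlt 2 (by norm_num)), lit64_eq (hlt 3 (by norm_num))]

theorem chk1_sound (S : Sys W X D) (T : Top D y0 y1 y2) {c : Cfg} {i : ℕ} (hi : i < 65536) (hR : ∀ k < 4, rowOf c k i = X k)
    {star nz : Bool} (hstar : star = true → ∀ k < 4, dotB (W k) y0 = false ∧ dotB (X k) y0 = false)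
    (hnz : nz = true → ∀ j < 6, ∃ k < 4, (W k).testBit j = true ∨ (X k).testBit j = true)
    {m1 : ℕ} (hm : PW X 15 &&& m1 = 0)
    {ys : List ℕ} (hys : ∀ y, offTop y0 y1 y2 y → y ∈ ys)
    (h : chk1 c star nz m1 ys y0 y1 y2 (W 0) (W 1) (W 2) (W 3) = true) : False := by
  unfold chk1 at h
  have hacc := acc1_sound S hi hR hm
  have h2 := loopT_sound _ _ _ i h (by norm_num; exact hi) (lvl1_sound S T hi hR hstar hys (by
    cases nz
    · exact hacc
    · exact nzCol_sound hi hR hacc (hnz rfl)))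
  rw [Nat.zero_add] at h2
  rw [withRows_eq hR S.X_lt] at h2
  exact leaf_sound S T h2

end

end CDM
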