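import Pool.Agent.Helper83.CDM.Chk

/-! Soundness of the first level. -/
namespace CDM

/-- u ≤ v, bitwise -/
def leB (u v : ℕ) : Bool :=
  (!u.testBit 5 && v.testBit 5) || ((!(u.testBit 5 ^^ v.testBit 5)) && ((!u.testBit 4 && v.testBit 4) ||
  ((!(u.testBit 4 ^^ v.testBit 4)) && ((!u.testBit 3 && v.testBit 3) || ((!(u.testBit 3 ^^ v.testBit 3)) &&
  ((!u.testBit 2 && v.testBit 2) || ((!(u.testBit 2 ^^ v.testBit 2)) && ((!u.testBit 1 && v.testBit 1) ||
  ((!(u.testBit 1 ^^ v.testBit 1)) && ((!u.testBit 0 && v.testBit 0) || ((!(u.testBit 0 ^^ v.testBit 0)) && true)))))))))))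

theorem leB_of_le : ∀ u < 64, ∀ v < 64, u ≤ v → leB u v = true := by decide +kernel

/-- column j is lexicographically at least column j' -/
def geB (W : ℕ → ℕ) (j j' : ℕ) : Bool :=
  ((W 0).testBit j && !(W 0).testBit j') || ((!((W 0).testBit j ^^ (W 0).testBit j')) &&
  (((W 1).testBit j && !(W 1).testBit j') || ((!((W 1).testBit j ^^ (W 1).testBit j')) &&
  (((W 2).testBit j && !(W 2).testBit j') || ((!((W 2).testBit j ^^ (W 2).testBit j')) &&
  (((W 3).testBit j && !(W 3).testBit j') || ((!((W 3).testBit j ^^ (W 3).testBit j')) && true)))))))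

/-- the sorting conditions -/
structure Canon (W : ℕ → ℕ) (m12 : Bool) (y0 y1 : ℕ) : Prop where
  r01 : W 0 ≤ W 1
  r12 : m12 = true → W 1 ≤ W 2
  r23 : W 2 ≤ W 3
  col : ∀ j < 5, y0.testBit j = y0.testBit (j + 1) → y1.testBit j = y1.testBit (j + 1) → geB W j (j + 1) = true

section
variable {W : ℕ → ℕ} {c : Cfg} {i : ℕ}

theorem t_xnor (hi : i < 65536) (x y : ℕ) : (xnor x y).testBit i = !(x.testBit i ^^ y.testBit i) := by
  unfold xnor; rw [t_xor, t_xor, t_full hi]; simp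

theorem leT_sound (hi : i < 65536) (hR : ∀ k < 4, rowOf c k i = W k) (hlt : ∀ k < 4, W k < 64) {k k' : ℕ} (hk : k < 4) (hk' : k' < 4)
    (h : W k ≤ W k') : (leT c k k').testBit i = true := by
  have h2 := leB_of_le _ (hlt k hk) _ (hlt k' hk') h
  rw [← h2]
  unfold leT leB
  simp only [t_lor, t_land, t_NX hk hi, t_X hk hi, t_X hk' hi, t_xnor hi, hR k hk, hR k' hk', t_full hi]

theorem geC_sound (hi : i < 65536) (hR : ∀ k < 4, rowOf c k i = W k) {j j' : ℕ} (h : geB W j j' = true) :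
    (geC c j j').testBit i = true := by
  rw [← h]
  unfold geC geB
  simp only [t_lor, t_land, t_NX (show 0 < 4 by norm_num) hi, t_X (show 0 < 4 by norm_num) hi,
    t_NX (show 1 < 4 by norm_num) hi, t_X (show 1 < 4 by norm_num) hi, t_NX (show 2 < 4 by norm_num) hi,
    t_X (show 2 < 4 by norm_num) hi, t_NX (show 3 < 4 by norm_num) hi, t_X (show 3 < 4 by norm_num) hi, t_xnor hi,
    hR 0 (by norm_num), hR 1 (by norm_num), hR 2 (by norm_num), hR 3 (by norm_num), t_full hi]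

theorem beq_shift (y j j' : ℕ) : Nat.beq (Nat.land (Nat.shiftRight y j) 1) (Nat.land (Nat.shiftRight y j') 1) = true →
    y.testBit j = y.testBit j' := by
  intro h
  rw [← tb_eq, ← tb_eq]
  unfold tb
  rw [Nat.eq_of_beq_eq_true h]

theorem geS_sound (hi : i < 65536) (hR : ∀ k < 4, rowOf c k i = W k) {y0 y1 j : ℕ}
    (h : y0.testBit j = y0.testBit (j + 1) → y1.testBit j = y1.testBit (j + 1) → geB W j (j + 1) = true) :
    (geS c y0 y1 j (j + 1)).testBit i = true := by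
  unfold geS
  cases hs : sameCl y0 y1 j (j + 1)
  · rw [sel_false, t_full hi]
  · rw [sel_true]
    unfold sameCl at hs
    rw [band_eq, Bool.and_eq_true] at hs
    exact geC_sound hi hR (h (beq_shift _ _ _ hs.1) (beq_shift _ _ _ hs.2))

theorem base0_sound (hi : i < 65536) (hR : ∀ k < 4, rowOf c k i = W k) (hlt : ∀ k < 4, W k < 64) {m12 : Bool} {y0 y1 : ℕ}
    (hC : Canon W m12 y0 y1) (hnz : ∀ a, 0 < a → a < 16 → PW W a ≠ 0) (hm : PW W 15 &&& (y0 ||| y1) = 0) :
    (base0 c m12 y0 y1).testBit i = true := by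
  unfold base0 sortT
  simp only [t_land, Bool.and_eq_true]
  refine ⟨leT_sound hi hR hlt (by norm_num) (by norm_num) hC.r01, ?_, leT_sound hi hR hlt (by norm_num) (by norm_num) hC.r23,
    geS_sound hi hR (hC.col 0 (by norm_num)), geS_sound hi hR (hC.col 1 (by norm_num)), geS_sound hi hR (hC.col 2 (by norm_num)),
    geS_sound hi hR (hC.col 3 (by norm_num)), geS_sound hi hR (hC.col 4 (by norm_num)), zsum_sound hi hR hlt hnz hm⟩
  cases m12
  · rw [sel_false, t_full hi]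
  · rw [sel_true]; exact leT_sound hi hR hlt (by norm_num) (by norm_num) (hC.r12 rfl)

end

noncomputable def mkPD0 (b : ℕ) : PD := PD.mk b .nil (15 - b) .nil

theorem pds0_eq : pds0 = reps.map mkPD0 := rfl

theorem onPD_t0 {G : ℕ → ℕ} {i b : ℕ} (h : ∀ a, (a = b ∨ a = 15 - b) → (G a).testBit i = true) :
    (onPD (fun a _ _ => G a) (mkPD0 b)).testBit i = true := by
  have e : onPD (fun a _ _ => G a) (mkPD0 b) = sand (lit64 0 (fun _ => G b)) (lit64 0 (fun _ => G (15 - b))) := rfl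
  rw [e, lit64_eq (by norm_num), lit64_eq (by norm_num), t_sand, h b (Or.inl rfl), h _ (Or.inr rfl)]; rfl

section
variable {W X : ℕ → ℕ} {D : ℕ → ℕ → Prop} {y0 y1 y2 : ℕ}

theorem T0_sound (S : Sys W X D) (T : Top D y0 y1 y2) {c : Cfg} {i : ℕ} (hi : i < 65536) (hR : ∀ k < 4, rowOf c k i = W k)
    {star m12 : Bool} (hstar : star = true → ∀ k < 4, dotB (W k) y0 = false ∧ dotB (X k) y0 = false)
    {ys : List ℕ} (hys : ∀ y, offTop y0 y1 y2 y → y ∈ ys) (hC : Canon W m12 y0 y1) (hm : PW W 15 &&& (y0 ||| y1) = 0) :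
    (T0 c star m12 ys y0 y1 y2).testBit i = true := by
  unfold T0
  rw [pds0_eq]
  have hbase := base0_sound hi hR S.W_lt hC (fun a ha ha' => S.nz a 0 ha ha' (by norm_num)) hm
  have hany : ∀ a, (∃ y, offTop y0 y1 y2 y ∧ En W X 0 a y) → (anyE c ys a).testBit i = true := by
    rintro a ⟨y, hy, hE⟩
    unfold anyE
    rw [t_orL]
    exact ⟨y, hys y hy, t_E1c hi hR hE.ev⟩
  refine pds_step S T (pd := mkPD0) (fun _ => rfl) ?_ ?_ ?_ ?_ ?_ hstar hbase
  · intro b _ h
    refine onPD_t0 (G := fun a => anyE c ys a) (fun a ha => hany a (h a ha 0 (by norm_num)))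
  · intro b _ h
    refine onPD_t0 (G := fun a => Nat.lor (anyE c ys a) (E1c c a y0)) (fun a ha => ?_)
    rw [t_lor, Bool.or_eq_true]
    rcases h a ha 0 (by norm_num) with h | h
    · exact Or.inl (hany a h)
    · exact Or.inr (t_E1c hi hR h.ev)
  · intro b _ h
    refine onPD_t0 (G := fun a => Nat.lor (anyE c ys a) (E1c c a y1)) (fun a ha => ?_)
    rw [t_lor, Bool.or_eq_true]
    rcases h a ha 0 (by norm_num) with h | h
    · exact Or.inl (hany a h)
    · exact Or.inr (t_E1c hi hR h.ev)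
  · intro b _ h
    refine onPD_t0 (G := fun a => Nat.lor (anyE c ys a) (E1c c a y2)) (fun a ha => ?_)
    rw [t_lor, Bool.or_eq_true]
    rcases h a ha 0 (by norm_num) with h | h
    · exact Or.inl (hany a h)
    · exact Or.inr (t_E1c hi hR h.ev)
  · intro b _ h
    refine onPD_t0 (G := fun a => Nat.lor (E1c c a y0) (Nat.lor (E1c c a y1) (E1c c a y2))) (fun a ha => ?_)
    rw [t_lor, t_lor, Bool.or_eq_true, Bool.or_eq_true]
    rcases h a ha 0 (by norm_num) with h | h | h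
    · exact Or.inl (t_E1c hi hR h.ev)
    · exact Or.inr (Or.inl (t_E1c hi hR h.ev))
    · exact Or.inr (Or.inr (t_E1c hi hR h.ev))

theorem ysC_mem {y : ℕ} (h : offTop y0 y1 y2 y) : y ∈ ysC y0 y1 y2 := by
  have h63 : ∀ y < 64, 0 < y → y ∈ ys63 := by decide +kernel
  have key : ∀ l : List ℕ, y ∈ l → y ∈ (@List.rec Nat (fun _ => List Nat) [] (fun y _ ih => consB (bnot (bor (Nat.beq y y0) (bor (Nat.beq y y1) (Nat.beq y y2)))) y ih) l) := by
    intro l
    induction l with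
    | nil => intro h; exact h
    | cons a l ih =>
      intro hy
      show y ∈ consB (bnot (bor (Nat.beq a y0) (bor (Nat.beq a y1) (Nat.beq a y2)))) a _
      rw [mem_consB]
      rw [List.mem_cons] at hy
      rcases hy with rfl | hy
      · left
        refine ⟨?_, rfl⟩
        rw [beq_eq, beq_eq, beq_eq]
        simp [h.2.2.1, h.2.2.2.1, h.2.2.2.2]
      · right; exact ih hy
  exact key ys63 (h63 y h.2.1 h.1)

theorem chk_sound (S : Sys W X D) (T : Top D y0 y1 y2) {vs b0 e0 b1 e : ℕ} {es : List ℕ} (he : e ∈ es)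
    {star m12 nz : Bool} {m1 lo hi : ℕ} {i0 i1 : ℕ} (hi0 : i0 < 65536) (hi1 : i1 < 65536)
    (hR0 : ∀ k < 4, rowOf ⟨vs, b0, e0⟩ k i0 = W k) (hR1 : ∀ k < 4, rowOf ⟨vs, b1, e⟩ k i1 = X k)
    (hstar : star = true → ∀ k < 4, dotB (W k) y0 = false ∧ dotB (X k) y0 = false)
    (hnz : nz = true → ∀ j < 6, ∃ k < 4, (W k).testBit j = true ∨ (X k).testBit j = true)
    (hC : Canon W m12 y0 y1) (hm0 : PW W 15 &&& (y0 ||| y1) = 0) (hm1 : PW X 15 &&& m1 = 0)
    (hlo : lo ≤ i0) (hhi : i0 < hi)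
    (h : chk vs b0 e0 b1 es star m12 nz m1 (ysC y0 y1 y2) y0 y1 y2 lo hi = true) : False := by
  unfold chk at h
  have hT0 := T0_sound S T hi0 hR0 hstar (fun y hy => ysC_mem hy) hC hm0
  have hT : (Nat.shiftRight (Nat.land (T0 ⟨vs, b0, e0⟩ star m12 (ysC y0 y1 y2) y0 y1 y2) (Nat.sub (Nat.pow 2 hi) 1)) lo).testBit (i0 - lo) = true := by
    have e1 : ∀ x y : ℕ, Nat.shiftRight x y = x >>> y := fun _ _ => rfl
    have e2 : Nat.sub (Nat.pow 2 hi) 1 = 2 ^ hi - 1 := rfl
    rw [e1, Nat.testBit_shiftRight, t_land, show lo + (i0 - lo) = i0 by omega, hT0, e2, Nat.testBit_two_pow_sub_one]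
    simpa using hhi
  have h2 := loopT_sound _ _ _ (i0 - lo) h (by norm_num; omega) hT
  rw [show lo + (i0 - lo) = i0 by omega] at h2
  rw [withRows_eq hR0 S.W_lt] at h2
  rw [allL_iff] at h2
  exact chk1_sound S T hi1 hR1 hstar hnz hm1 (fun y hy => ysC_mem hy) (h2 e he)

end

end CDM
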