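import Pool.Agent.Helper83.CDM.Chk0

/-! Soundness of the check for a common zero column. -/
namespace CDM

section
variable {W X : ℕ → ℕ} {D : ℕ → ℕ → Prop} {y0 y1 : ℕ}

/-- y without bit j -/
def clr (j y : ℕ) : ℕ := if y.testBit j = true then y ^^^ 2 ^ j else y

theorem clr_facts : ∀ j < 6, ∀ y < 64, (clr j y) < 64 ∧ (clr j y).testBit j = false ∧ (clr j y) &&& y = clr j y ∧
    (clr j y = 0 → y = 0 ∨ y = 2 ^ j) := by
  decide +kernel

theorem dotB_pow (w j : ℕ) (hj : j < 6) (h : w.testBit j = false) : dotB w (2 ^ j) = false := by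
  have hp : ∀ k, (2 ^ j).testBit k = decide (j = k) := fun k => Nat.testBit_two_pow
  unfold dotB
  simp only [hp]
  interval_cases j <;> simp [h]

theorem dotB_clr {w j y : ℕ} (hj : j < 6) (h : w.testBit j = false) : dotB w (clr j y) = dotB w y := by
  unfold clr
  split_ifs with h2
  · rw [dotB_xor', dotB_pow w j hj h]; simp
  · rfl

theorem En_clr {l a y j : ℕ} (hl : l < 3) (hj : j < 6) (hy : y < 64) (hz : ∀ k < 4, (W k).testBit j = false ∧ (X k).testBit j = false)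
    (h : En W X l a y) : En W X l a (clr j y) := by
  have hM : ∀ l < 3, ∀ k < 4, (mat W X l k).testBit j = false := by
    intro l hl k hk
    interval_cases l
    · exact (hz k hk).1
    · exact (hz k hk).2
    · show (W k ^^^ X k).testBit j = false
      rw [Nat.testBit_xor, (hz k hk).1, (hz k hk).2]; rfl
  have hP : ∀ l < 3, (PW (mat W X l) a).testBit j = false := by
    intro l hl
    rw [t_PW, hM l hl 0 (by norm_num), hM l hl 1 (by norm_num), hM l hl 2 (by norm_num), hM l hl 3 (by norm_num)]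
    simp
  have hc := clr_facts j hj y hy
  refine ⟨⟨?_, ?_⟩, ?_, ?_⟩
  · rw [← hc.2.2.1, Nat.and_comm (clr j y) y, ← Nat.and_assoc, h.ev.z, Nat.zero_and]
  · intro k hk hak
    rw [dotB_clr hj (hM l hl k hk)]; exact h.ev.d k hk hak
  · have h0 : (PW W a).testBit j = false := hP 0 (by norm_num)
    rw [dotB_clr hj h0]; exact h.d0
  · have h1 : (PW X a).testBit j = false := hP 1 (by norm_num)
    rw [dotB_clr hj h1]; exact h.d1

theorem compl_spec0 : ((List.range 16).all fun a => (List.range 16).all fun b =>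
    (a == 0 || b == 0 || a == b || a == 15 || b == 15 || a ^^^ b == 15) ||
    compl.any fun l => l.all fun c => decide (0 < c ∧ c < 16 ∧ c ≠ a ∧ c ≠ b ∧ c ≠ a ^^^ b)) = true := by
  decide +kernel

theorem compl_spec {a b : ℕ} (ha' : a < 16) (hb' : b < 16) (ha : 0 < a) (hb : 0 < b) (hab : a ≠ b) (h1 : a ≠ 15) (h2 : b ≠ 15)
    (h3 : a ^^^ b ≠ 15) : ∃ l ∈ compl, ∀ c ∈ l, 0 < c ∧ c < 16 ∧ c ≠ a ∧ c ≠ b ∧ c ≠ a ^^^ b := by
  have h := compl_spec0
  rw [List.all_eq_true] at h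
  have h4 := h a (List.mem_range.mpr ha')
  rw [List.all_eq_true] at h4
  have h5 := h4 b (List.mem_range.mpr hb')
  have ha0 : a ≠ 0 := by omega
  have hb0 : b ≠ 0 := by omega
  simp only [beq_iff_eq, Bool.or_eq_true, ha0, hb0, hab, h1, h2, h3, false_or, List.any_eq_true, List.all_eq_true, decide_eq_true_eq] at h5
  exact h5

theorem t_orLL {l : List (List ℕ)} {f : List ℕ → ℕ} {i : ℕ} (h : ∃ a ∈ l, (f a).testBit i = true) : (orLL l f).testBit i = true := by
  induction l with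
  | nil => simp at h
  | cons a l ih =>
    have e : orLL (a :: l) f = Nat.lor (f a) (orLL l f) := rfl
    rw [e, t_lor, Bool.or_eq_true]
    obtain ⟨b, hb, h⟩ := h
    rw [List.mem_cons] at hb
    rcases hb with rfl | hb
    · exact Or.inl h
    · exact Or.inr (ih ⟨b, hb, h⟩)

theorem ysZ_mem {j y : ℕ} (hy : 0 < y) (hy' : y < 64) (h : y.testBit j = false) : y ∈ ysZ j := by
  have h63 : ∀ y < 64, 0 < y → y ∈ ys63 := by decide +kernel
  have key : ∀ l : List ℕ, y ∈ l → y ∈ (@List.rec Nat (fun _ => List Nat) [] (fun y _ ih => consB (bnot (tb y j)) y ih) l) := by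
    intro l
    induction l with
    | nil => intro h; exact h
    | cons a l ih =>
      intro hy
      show y ∈ consB (bnot (tb a j)) a _
      rw [mem_consB]
      rw [List.mem_cons] at hy
      rcases hy with rfl | hy
      · left
        refine ⟨?_, rfl⟩
        rw [tb_eq, bnot_eq, h]; rfl
      · right; exact ih hy
  exact key ys63 (h63 y hy' hy)

theorem chkZ_sound (S : Sys W X D) (hT : ∀ y, D 15 y → ∃ k < 4, dotB (W k) y = true ∨ dotB (X k) y = true)
    {vs b0 b1 e j : ℕ} {m12 : Bool} {i0 i1 : ℕ} (hi0 : i0 < 65536) (hi1 : i1 < 65536) (hj : j < 6)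
    (hR0 : ∀ k < 4, rowOf ⟨vs, b0, e⟩ k i0 = W k) (hR1 : ∀ k < 4, rowOf ⟨vs, b1, e⟩ k i1 = X k)
    (hz : ∀ k < 4, (W k).testBit j = false ∧ (X k).testBit j = false)
    (hC : Canon W m12 y0 y1) (hm0 : PW W 15 &&& (y0 ||| y1) = 0) (hm1 : PW X 15 &&& (y0 ||| y1) = 0)
    (h : chkZ vs b0 b1 e m12 y0 y1 j = true) : False := by
  unfold chkZ at h
  have hpow : 0 < 2 ^ j ∧ 2 ^ j < 64 := by interval_cases j <;> norm_num
  obtain ⟨a, b, ha, ha', hb, hb', hab, hDa, hDb⟩ := S.star (2 ^ j) hpow.1 hpow.2 (fun k hk =>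
    ⟨dotB_pow _ j hj (hz k hk).1, dotB_pow _ j hj (hz k hk).2⟩)
  have h15 : ¬ D 15 (2 ^ j) := by
    intro h
    obtain ⟨k, hk, h⟩ := hT _ h
    rw [dotB_pow _ j hj (hz k hk).1, dotB_pow _ j hj (hz k hk).2] at h
    simp at h
  have ha15 : a ≠ 15 := by rintro rfl; exact h15 hDa
  have hb15 : b ≠ 15 := by rintro rfl; exact h15 hDb
  have hab15 : a ^^^ b ≠ 15 := by
    intro h
    have := S.add a b _ ha ha' hb hb' hab hDa hDb
    rw [h] at this; exact h15 this
  obtain ⟨l, hl, hcl⟩ := compl_spec ha' hb' ha hb hab ha15 hb15 hab15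
  have key : ∀ c ∈ l, ∀ t < 3, ∃ y, y ∈ ysZ j ∧ En W X t c y := by
    intro c hc t ht
    obtain ⟨hc0, hc', hca, hcb, hcab⟩ := hcl c hc
    have hnD : ¬ D c (2 ^ j) := fun h => S.small a b c _ ha ha' hb hb' hc0 hc' hab hca hcb hcab hDa hDb h
    obtain ⟨y, hy, hE⟩ := S.E4 c t hc0 hc' ht
    have hb := S.bound hc0 hc' hy
    have hcf := clr_facts j hj y hb.2
    refine ⟨clr j y, ysZ_mem ?_ hcf.1 hcf.2.1, En_clr ht hj hb.2 hz hE⟩
    rcases Nat.eq_zero_or_pos (clr j y) with h0 | h0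
    · exfalso
      rcases hcf.2.2.2 h0 with h | h
      · omega
      · rw [h] at hy; exact hnD hy
    · exact h0
  have hcol : ∀ (c : Cfg) (i : ℕ) (R : ℕ → ℕ), i < 65536 → (∀ k < 4, rowOf c k i = R k) → (∀ k < 4, (R k).testBit j = false) →
      (colZ c j).testBit i = true := by
    intro c i R hi hR hz
    unfold colZ
    rw [t_andL]
    refine ⟨t_full hi, ?_⟩
    intro k hk
    have hk : k < 4 := by
      revert hk; simp only [List.mem_cons, List.not_mem_nil, or_false]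
      rintro (rfl | rfl | rfl | rfl) <;> norm_num
    rw [t_NX hk hi, hR k hk, hz k hk]; rfl
  have h0 : (subsp (Nat.land (colZ ⟨vs,b0,e⟩ j) (base0 ⟨vs,b0,e⟩ m12 y0 y1)) (fun a => anyE ⟨vs,b0,e⟩ (ysZ j) a)).testBit i0 = true := by
    unfold subsp
    apply t_orLL
    refine ⟨l, hl, t_sandL ?_ ?_⟩
    · rw [t_land, hcol _ _ W hi0 hR0 (fun k hk => (hz k hk).1),
        base0_sound hi0 hR0 S.W_lt hC (fun a ha ha' => S.nz a 0 ha ha' (by norm_num)) hm0]; rfl
    · intro c hc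
      obtain ⟨y, hy, hE⟩ := key c hc 0 (by norm_num)
      unfold anyE
      rw [t_orL]
      exact ⟨y, hy, t_E1c hi0 hR0 hE.ev⟩
  have h2 := loopT_sound _ _ _ i0 h (by norm_num; omega) h0
  rw [Nat.zero_add, withRows_eq hR0 S.W_lt] at h2
  have h3 := Nat.eq_of_beq_eq_true h2
  have h4 : (subsp (Nat.land (colZ ⟨vs,b1,e⟩ j) (acc1 ⟨vs,b1,e⟩ (Nat.lor y0 y1) (W 0) (W 1) (W 2) (W 3)))
      (fun a => lit64 (rsum (rx a (W 0) (W 1) (W 2) (W 3))) (fun s => gN ⟨vs,b1,e⟩ (ysZ j) a s (rx a (W 0) (W 1) (W 2) (W 3))))).testBit i1 = true := by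
    unfold subsp
    apply t_orLL
    refine ⟨l, hl, t_sandL ?_ ?_⟩
    · have hacc := acc1_sound (m := Nat.lor y0 y1) S hi1 hR1 hm1
      rw [t_land, hcol _ _ X hi1 hR1 (fun k hk => (hz k hk).2), hacc]; rfl
    · intro c hc
      have e : rsum (rx c (W 0) (W 1) (W 2) (W 3)) = PW W c := rfl
      rw [e, lit64_eq (PW_lt S.W_lt c)]
      exact t_gN S.W_lt hi1 hR1 (fun t ht => key c hc t ht)
  rw [h3] at h4
  simp at h4

end

end CDM
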