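import Pool.Agent.Helper83.CDM.Min

/-! Existence of a configuration. -/
namespace CDM

section
variable {W X : ℕ → ℕ} {D : ℕ → ℕ → Prop} {y0 y1 : ℕ}

theorem En_all {a y l l' : ℕ} (hl : l < 3) (hl' : l' < 3) (hne : l ≠ l') (h : En W X l a y) (h' : En W X l' a y) :
    ∀ t < 3, En W X t a y := by
  -- the three matrices sum to zero
  have key : ∀ {A B : ℕ → ℕ}, Ev A a y → Ev B a y → Ev (fun k => A k ^^^ B k) a y := by
    intro A B hA hB
    refine ⟨?_, ?_⟩
    · rw [PW_xor]
      apply Nat.eq_of_testBit_eq; intro j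
      have g0 := congrArg (fun z => Nat.testBit z j) hA.z
      have g1 := congrArg (fun z => Nat.testBit z j) hB.z
      simp only [Nat.testBit_and, Nat.testBit_xor, Nat.zero_testBit] at g0 g1 ⊢
      revert g0 g1
      cases (PW A a).testBit j <;> cases (PW B a).testBit j <;> cases y.testBit j <;> simp
    · intro k hk hak
      rw [dotB_xor, hA.d k hk hak, hB.d k hk hak]; rfl
  have e0 : ∀ k < 4, (X k ^^^ (W k ^^^ X k)) = W k := fun k _ => Sys.xor_xor_cancel' _ _
  have e1 : ∀ k < 4, (W k ^^^ (W k ^^^ X k)) = X k := fun k _ => Sys.xor_xor_self' _ _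
  have H0 : Ev W a y ∧ Ev X a y ∧ Ev (fun k => W k ^^^ X k) a y := by
    have hh := h.ev; have hh' := h'.ev
    interval_cases l <;> interval_cases l' <;> first | (exact absurd rfl hne) | skip
    · exact ⟨hh, hh', key hh hh'⟩
    · have hh : Ev W a y := hh
      have hh' : Ev (fun k => W k ^^^ X k) a y := hh'
      exact ⟨hh, Ev_congr e1 (key hh hh'), hh'⟩
    · exact ⟨hh', hh, key hh' hh⟩
    · have hh : Ev X a y := hh
      have hh' : Ev (fun k => W k ^^^ X k) a y := hh'
      exact ⟨Ev_congr e0 (key hh hh'), hh, hh'⟩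
    · have hh : Ev (fun k => W k ^^^ X k) a y := hh
      have hh' : Ev W a y := hh'
      exact ⟨hh', Ev_congr e1 (key hh' hh), hh⟩
    · have hh : Ev (fun k => W k ^^^ X k) a y := hh
      have hh' : Ev X a y := hh'
      exact ⟨Ev_congr e0 (key hh' hh), hh', hh⟩
  intro t ht
  refine ⟨?_, h.d0, h.d1⟩
  interval_cases t
  · exact H0.1
  · exact H0.2.1
  · exact H0.2.2

theorem sig' (h0 : En W X 0 15 y0) (h1 : En W X 1 15 y1) (h2 : En W X 2 15 (y0 ^^^ y1)) : ∀ k < 4, dotB (X k) y0 = dotB (W k) y1 := by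
  intro k hk
  have h : dotB (W k ^^^ X k) (y0 ^^^ y1) = false := h2.ev.d k hk (t15 hk)
  have hW : dotB (W k) y0 = false := h0.ev.d k hk (t15 hk)
  have hX : dotB (X k) y1 = false := h1.ev.d k hk (t15 hk)
  rw [dotB_xor, dotB_xor', dotB_xor', hW, hX] at h
  revert h
  cases dotB (X k) y0 <;> cases dotB (W k) y1 <;> simp

theorem supp' (h0 : En W X 0 15 y0) (h1 : En W X 1 15 y1) (h2 : En W X 2 15 (y0 ^^^ y1)) : PW X 15 &&& y0 = 0 := by
  have h0 : PW W 15 &&& y0 = 0 := h0.ev.z
  have h1 : PW X 15 &&& y1 = 0 := h1.ev.z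
  have h2 : (PW W 15 ^^^ PW X 15) &&& (y0 ^^^ y1) = 0 := by rw [← PW_xor]; exact h2.ev.z
  apply Nat.eq_of_testBit_eq; intro j
  have g0 := congrArg (fun z => Nat.testBit z j) h0
  have g1 := congrArg (fun z => Nat.testBit z j) h1
  have g2 := congrArg (fun z => Nat.testBit z j) h2
  simp only [Nat.testBit_and, Nat.testBit_xor, Nat.zero_testBit] at g0 g1 g2 ⊢
  revert g0 g1 g2
  cases (PW W 15).testBit j <;> cases (PW X 15).testBit j <;> cases y0.testBit j <;> cases y1.testBit j <;> simp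

theorem conf_exists (S : Sys W X D) : (∃ W X D y0 y1, ConfI W X D y0 y1) ∨ (∃ W X D y0 y1, ConfT W X D y0 y1) := by
  by_cases hA : ∃ y, D 15 y ∧ ∀ l < 3, En W X l 15 y
  · left
    obtain ⟨y0, hy0, hE⟩ := hA
    obtain ⟨y1, hy1, hne⟩ : ∃ y1, D 15 y1 ∧ y0 ≠ y1 := by
      obtain ⟨p, q, _, _, _, _, hpq, H⟩ := S.dim 15 (by norm_num) (by norm_num)
      by_cases h : y0 = p
      · exact ⟨q, (H q).mpr (by simp), by rw [h]; exact hpq⟩
      · exact ⟨p, (H p).mpr (by simp), h⟩
    have top : Top D y0 y1 (y0 ^^^ y1) := ⟨hne, rfl, S.all3 (by norm_num) (by norm_num) hy0 hy1 hne⟩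
    obtain ⟨l, hl, hE1⟩ := S.E5 15 y1 (by norm_num) (by norm_num) hy1
    interval_cases l
    · exact ⟨W, X, D, y0, y1, S, top, hE, hE1⟩
    · refine ⟨X, W, D, y0, y1, sys01 S, top, fun l hl => En01 hl (hE _ ?_), En01 (by norm_num) hE1⟩
      interval_cases l <;> decide
    · have hE' : ∀ l < 3, En W (fun k => W k ^^^ X k) l 15 y0 := fun l hl => En12 hl (hE _ (by interval_cases l <;> decide))
      refine ⟨fun k => W k ^^^ X k, W, D, y0, y1, sys01 (sys12 S), top, fun l hl => En01 hl (hE' _ ?_), En01 (by norm_num) (En12 (by norm_num) hE1)⟩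
      interval_cases l <;> decide
  · right
    obtain ⟨y0, hy0, h0⟩ := S.E4 15 0 (by norm_num) (by norm_num) (by norm_num)
    obtain ⟨y1, hy1, h1⟩ := S.E4 15 1 (by norm_num) (by norm_num) (by norm_num)
    obtain ⟨y2, hy2, h2⟩ := S.E4 15 2 (by norm_num) (by norm_num) (by norm_num)
    have n01 : y0 ≠ y1 := by
      rintro rfl
      exact hA ⟨y0, hy0, En_all (by norm_num) (by norm_num) (by norm_num) h0 h1⟩
    have n02 : y0 ≠ y2 := by
      rintro rfl
      exact hA ⟨y0, hy0, En_all (by norm_num) (by norm_num) (by norm_num) h0 h2⟩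
    have n12 : y1 ≠ y2 := by
      rintro rfl
      exact hA ⟨y1, hy1, En_all (by norm_num) (by norm_num) (by norm_num) h1 h2⟩
    have hall := S.all3 (by norm_num) (by norm_num) hy0 hy1 n01
    have e2 : y2 = y0 ^^^ y1 := by
      rcases (hall y2).mp hy2 with h | h | h
      · exact absurd h.symm n02
      · exact absurd h.symm n12
      · exact h
    subst e2
    refine ⟨W, X, D, y0, y1, S, ⟨n01, rfl, hall⟩, h0, h1, h2, ?_⟩
    by_contra hne
    push_neg at hne
    have hs := sig' h0 h1 h2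
    have hE1 : En W X 1 15 y0 := by
      refine ⟨⟨supp' h0 h1 h2, ?_⟩, h0.d0, h0.d1⟩
      intro k hk _
      show dotB (X k) y0 = false
      rw [hs k hk]
      have := hne k hk
      simpa using this
    exact hA ⟨y0, hy0, En_all (by norm_num) (by norm_num) (by norm_num) h0 hE1⟩

end

end CDM
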