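import Pool.Agent.Helper83.CDM.CdmE

/-! The configurations are excluded by the checks. -/
namespace CDM

section
variable {W X : ℕ → ℕ} {D : ℕ → ℕ → Prop} {y0 y1 y2 : ℕ}

theorem even_mem : ∀ s < 16, (s.testBit 0 ^^ (s.testBit 1 ^^ (s.testBit 2 ^^ s.testBit 3))) = false → s ∈ [0,3,5,6,9,10,12,15] := by
  decide +kernel

theorem doneI {vs bv : ℕ} (C : ConfI W X D y0 y1) (hy2 : y2 = y0 ^^^ y1) (hC : Canon W true y0 y1)
    (hidx : idxOK vs bv y0 y1 = true)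
    (hrun : ∀ e ∈ [0,3,5,6,9,10,12,15], ∀ i < 65536, ∃ es lo hi, e ∈ es ∧ lo ≤ i ∧ i < hi ∧
      chk vs bv 0 bv es true true false y0 (ysC y0 y1 y2) y0 y1 y2 lo hi = true) : False := by
  subst hy2
  have S := C.S
  have he : sgm X y1 ∈ [0,3,5,6,9,10,12,15] := by
    refine even_mem _ (sgm_lt _ _) ?_
    rw [t_sgm _ _ (by norm_num), t_sgm _ _ (by norm_num), t_sgm _ _ (by norm_num), t_sgm _ _ (by norm_num)]
    have h := dotB_PW X 15 y1
    rw [C.e1.d1, t15 (by norm_num), t15 (by norm_num), t15 (by norm_num), t15 (by norm_num)] at h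
    simp only [Bool.true_and] at h
    exact h.symm
  have hW0 : ∀ k < 4, dotB (W k) y0 = false := fun k hk => (C.e0 0 (by norm_num)).ev.d k hk (t15 hk)
  have hX0 : ∀ k < 4, dotB (X k) y0 = false := fun k hk => (C.e0 1 (by norm_num)).ev.d k hk (t15 hk)
  have hW1 : ∀ k < 4, dotB (W k) y1 = false := fun k hk => C.e1.ev.d k hk (t15 hk)
  obtain ⟨i0, hi0, hR0⟩ := idx_exists (eps := 0) hidx S.W_lt hW0 (fun k hk => by rw [hW1 k hk]; simp)
  obtain ⟨i1, hi1, hR1⟩ := idx_exists (eps := sgm X y1) hidx S.X_lt hX0 (fun k hk => (t_sgm X y1 hk).symm)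
  obtain ⟨es, lo, hi, hes, hlo, hhi, hchk⟩ := hrun _ he i0 hi0
  have hz0 : PW W 15 &&& y0 = 0 := (C.e0 0 (by norm_num)).ev.z
  have hz1 : PW W 15 &&& y1 = 0 := C.e1.ev.z
  refine chk_sound S C.top hes hi0 hi1 hR0 hR1 (fun _ k hk => ⟨hW0 k hk, hX0 k hk⟩) (fun h => absurd h (by decide)) hC ?_ ?_ hlo hhi hchk
  · rw [Nat.and_or_distrib_left, hz0, hz1]; rfl
  · exact (C.e0 1 (by norm_num)).ev.z

theorem doneT {vs bu bv s m1 : ℕ} {m12 : Bool} (C : ConfT W X D y0 y1) (hy2 : y2 = y0 ^^^ y1) (hs : sgm W y1 = s)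
    (hC : Canon W m12 y0 y1) (hidx0 : idxOK vs bv y0 y1 = true) (hidx1 : idxOK vs bu y1 y0 = true) (hm1 : m1 = y0 ||| y1)
    (hrun : ∀ i < 65536, ∃ lo hi, lo ≤ i ∧ i < hi ∧
      chk vs bv s bu [s] false m12 true m1 (ysC y0 y1 y2) y0 y1 y2 lo hi = true)
    (hZ : ∀ j < 6, chkZ vs bv bu s m12 y0 y1 j = true) : False := by
  subst hy2 hm1
  have S := C.S
  have hW0 := C.dW0
  have hX1 := C.dX1
  obtain ⟨i0, hi0, hR0⟩ := idx_exists (eps := s) hidx0 S.W_lt hW0 (fun k hk => by rw [← hs, t_sgm W y1 hk])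
  obtain ⟨i1, hi1, hR1⟩ := idx_exists (eps := s) hidx1 S.X_lt hX1 (fun k hk => by rw [← hs, t_sgm W y1 hk, C.sig k hk])
  obtain ⟨hz0, hz1⟩ := C.supp
  by_cases hz : ∃ j < 6, ∀ k < 4, (W k).testBit j = false ∧ (X k).testBit j = false
  · obtain ⟨j, hj, hz⟩ := hz
    refine chkZ_sound S ?_ hi0 hi1 hj hR0 hR1 hz hC hz0 hz1 (hZ j hj)
    intro y hy
    obtain ⟨k, hk, hk1⟩ := C.ne
    rcases (C.top.h y).mp hy with rfl | rfl | rfl
    · exact ⟨k, hk, Or.inr (by rw [C.sig k hk]; exact hk1)⟩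
    · exact ⟨k, hk, Or.inl hk1⟩
    · exact ⟨k, hk, Or.inl (by rw [dotB_xor', hW0 k hk, hk1]; rfl)⟩
  · obtain ⟨lo, hi, hlo, hhi, hchk⟩ := hrun i0 hi0
    refine chk_sound S C.top (List.mem_singleton.mpr rfl) hi0 hi1 hR0 hR1 (fun h => absurd h (by decide)) (fun _ j hj => ?_) hC hz0 hz1 hlo hhi hchk
    by_contra hn
    apply hz
    refine ⟨j, hj, fun k hk => ?_⟩
    constructor
    · by_contra h; exact hn ⟨k, hk, Or.inl (by simpa using h)⟩
    · by_contra h; exact hn ⟨k, hk, Or.inr (by simpa using h)⟩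

end

end CDM
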