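import Pool.Agent.Helper83.CDM.Lvl

/-! Soundness of the assignment DP. -/
namespace CDM

def PD.fst : PD → ℕ
  | .mk b _ _ _ => b

theorem dpStep_eq (n q0 q1 q2 al : ℕ) (k : ℕ → ℕ → ℕ → ℕ → ℕ → ℕ → ℕ → ℕ → ℕ) (s0 s1 s2 s3 s4 s5 s6 s7 i : ℕ)
    (h : (Nat.lor s0 (Nat.lor s1 (Nat.lor s2 (Nat.lor s3 (Nat.lor s4 (Nat.lor s5 (Nat.lor s6 s7))))))).testBit i = true) :
    dpStep n q0 q1 q2 al k s0 s1 s2 s3 s4 s5 s6 s7 =
   (k (sand s0 n)
     (Nat.lor (sand s1 n) (sand s0 q0))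
     (Nat.lor (sand s2 n) (sand s0 q1))
     (Nat.lor (sand s3 n) (Nat.lor (sand s2 q0) (sand s1 q1)))
     (Nat.lor (sand s4 n) (sand s0 q2))
     (Nat.lor (sand s5 n) (Nat.lor (sand s4 q0) (sand s1 q2)))
     (Nat.lor (sand s6 n) (Nat.lor (sand s4 q1) (sand s2 q2)))
     (Nat.lor (sand s7 n) (Nat.lor (sand s6 q0) (Nat.lor (sand s5 q1) (Nat.lor (sand s3 q2) (sand s0 al)))))) := by
  unfold dpStep
  have h2 : Nat.beq (Nat.lor s0 (Nat.lor s1 (Nat.lor s2 (Nat.lor s3 (Nat.lor s4 (Nat.lor s5 (Nat.lor s6 s7))))))) 0 = false := by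
    rw [beq_eq]
    apply decide_eq_false
    intro h3
    rw [h3] at h
    simp at h
  rw [h2]

theorem dp_sound {gn g0 g1 g2 ga : PD → ℕ} {star : Bool} {i : ℕ} (tr : PD → ℕ) :
    ∀ (l : List PD) (m : ℕ) (s : ℕ → ℕ), m < 8 → (s m).testBit i = true →
      (∀ p ∈ l, (tr p = 0 ∧ (gn p).testBit i = true) ∨ (tr p = 1 ∧ (g0 p).testBit i = true) ∨
        (tr p = 2 ∧ (g1 p).testBit i = true) ∨ (tr p = 4 ∧ (g2 p).testBit i = true) ∨ (tr p = 7 ∧ (ga p).testBit i = true)) →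
      (∀ p ∈ l, m &&& tr p = 0) → l.Pairwise (fun p q => tr p &&& tr q = 0) →
      (star = true → m.testBit 0 = true ∨ ∃ p ∈ l, (tr p).testBit 0 = true) →
      (dp gn g0 g1 g2 ga star l (s 0) (s 1) (s 2) (s 3) (s 4) (s 5) (s 6) (s 7)).testBit i = true := by
  intro l
  induction l with
  | nil =>
    intro m s hm hs _ _ _ hst
    show (dpEnd star (s 0) (s 1) (s 2) (s 3) (s 4) (s 5) (s 6) (s 7)).testBit i = true
    cases star
    · show (Nat.lor (s 0) (Nat.lor (s 1) (Nat.lor (s 2) (Nat.lor (s 3) (Nat.lor (s 4) (Nat.lor (s 5) (Nat.lor (s 6) (s 7)))))))).testBit i = true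
      simp only [t_lor]
      interval_cases m <;> simp [hs]
    · show (Nat.lor (s 1) (Nat.lor (s 3) (Nat.lor (s 5) (s 7)))).testBit i = true
      simp only [t_lor]
      have hm0 : m.testBit 0 = true := by
        rcases hst rfl with h | ⟨p, hp, _⟩
        · exact h
        · simp at hp
      interval_cases m <;> first | (exfalso; revert hm0; decide) | (simp [hs]; done)
  | cons p l ih =>
    intro m s hm hs hstep hdis hpw hst
    show (dpStep (gn p) (g0 p) (g1 p) (g2 p) (ga p) (dp gn g0 g1 g2 ga star l) (s 0) (s 1) (s 2) (s 3) (s 4) (s 5) (s 6) (s 7)).testBit i = true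
    rw [dpStep_eq (i := i)]
    swap
    · simp only [t_lor]
      interval_cases m <;> simp [hs]
    have hd : m &&& tr p = 0 := hdis p (by simp)
    have hp := hstep p (by simp)
    rw [List.pairwise_cons] at hpw
    have key := ih (m ||| tr p) (fun j => match j with
      | 0 => (sand (s 0) (gn p))
      | 1 => (Nat.lor (sand (s 1) (gn p)) (sand (s 0) (g0 p)))
      | 2 => (Nat.lor (sand (s 2) (gn p)) (sand (s 0) (g1 p)))
      | 3 => (Nat.lor (sand (s 3) (gn p)) (Nat.lor (sand (s 2) (g0 p)) (sand (s 1) (g1 p))))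
      | 4 => (Nat.lor (sand (s 4) (gn p)) (sand (s 0) (g2 p)))
      | 5 => (Nat.lor (sand (s 5) (gn p)) (Nat.lor (sand (s 4) (g0 p)) (sand (s 1) (g2 p))))
      | 6 => (Nat.lor (sand (s 6) (gn p)) (Nat.lor (sand (s 4) (g1 p)) (sand (s 2) (g2 p))))
      | _ => (Nat.lor (sand (s 7) (gn p)) (Nat.lor (sand (s 6) (g0 p)) (Nat.lor (sand (s 5) (g1 p)) (Nat.lor (sand (s 3) (g2 p)) (sand (s 0) (ga p)))))))
    refine key ?_ ?_ ?_ ?_ ?_ ?_
    · have : tr p < 8 := by rcases hp with h | h | h | h | h <;> omega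
      exact Nat.or_lt_two_pow (n := 3) hm this
    · clear key ih hstep hdis hpw hst
      rcases hp with ⟨h, hg⟩ | ⟨h, hg⟩ | ⟨h, hg⟩ | ⟨h, hg⟩ | ⟨h, hg⟩ <;> rw [h] at hd ⊢ <;> interval_cases m <;>
        first
        | (exfalso; revert hd; decide)
        | (simp [hs, hg])
    · intro q hq
      exact hstep q (by simp [hq])
    · intro q hq
      have h1 := hdis q (by simp [hq])
      have h2 := hpw.1 q hq
      rw [Nat.and_comm] at h1 h2 ⊢
      rw [Nat.and_or_distrib_left, h1, h2]; rfl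
    · exact hpw.2
    · intro h
      rcases hst h with h1 | ⟨q, hq, h1⟩
      · left; rw [Nat.testBit_or, h1]; rfl
      · rw [List.mem_cons] at hq
        rcases hq with rfl | hq
        · left; rw [Nat.testBit_or, h1]; simp
        · right; exact ⟨q, hq, h1⟩

end CDM
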