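/-
Engine for the non-existence of a (Z4^2 x Z2^2, 4, 0) contracted difference matrix.
All functions are written with direct recursors so that kernel evaluation is fast.
Truth tables are natural numbers: bit i of a table is the truth value at assignment i < 65536.
-/
set_option autoImplicit false
noncomputable section
namespace CDM

/-- bit x is the parity of the number of ones of x, for x < 64 -/
def PAR : Nat := 0x6996966996696996
def tb (x i : Nat) : Bool := Nat.beq (Nat.land (Nat.shiftRight x i) 1) 1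
def dot (w y : Nat) : Bool := tb PAR (Nat.land w y)
def sel (b : Bool) (x y : Nat) : Nat := @Bool.rec (fun _ => Nat) y x b
def bnot (b : Bool) : Bool := @Bool.rec (fun _ => Bool) true false b
def band (a b : Bool) : Bool := @Bool.rec (fun _ => Bool) false b a
def bor (a b : Bool) : Bool := @Bool.rec (fun _ => Bool) b true a
/-- land, with short cut if the first argument vanishes -/
def sand (x y : Nat) : Nat := @Bool.rec (fun _ => Nat) (Nat.land x y) 0 (Nat.beq x 0)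
def orL (l : List Nat) (f : Nat → Nat) : Nat := @List.rec Nat (fun _ => Nat) 0 (fun a _ ih => Nat.lor (f a) ih) l
def andL (i : Nat) (l : List Nat) (f : Nat → Nat) : Nat := @List.rec Nat (fun _ => Nat) i (fun a _ ih => Nat.land (f a) ih) l
/-- conjunction with short cut -/
def sandL (i : Nat) (l : List Nat) (f : Nat → Nat) : Nat :=
  @List.rec Nat (fun _ => Nat → Nat) (fun x => x) (fun a _ ih x => @Bool.rec (fun _ => Nat) (ih (Nat.land x (f a))) 0 (Nat.beq x 0)) l i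
def xorL (i : Nat) (l : List Nat) (f : Nat → Nat) : Nat := @List.rec Nat (fun _ => Nat) i (fun a _ ih => Nat.xor (f a) ih) l
def allL (l : List Nat) (f : Nat → Bool) : Bool := @List.rec Nat (fun _ => Bool) true (fun a _ ih => band (f a) ih) l
def anyL (l : List Nat) (f : Nat → Bool) : Bool := @List.rec Nat (fun _ => Bool) false (fun a _ ih => bor (f a) ih) l
def consB (b : Bool) (x : Nat) (l : List Nat) : List Nat := @Bool.rec (fun _ => List Nat) l (x :: l) b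
def bits6 (y : Nat) : List Nat :=
  consB (tb y 0) 0 (consB (tb y 1) 1 (consB (tb y 2) 2 (consB (tb y 3) 3 (consB (tb y 4) 4 (consB (tb y 5) 5 [])))))
def bits4 (y : Nat) : List Nat :=
  consB (tb y 0) 0 (consB (tb y 1) 1 (consB (tb y 2) 2 (consB (tb y 3) 3 [])))
/-- field i of a number packed in base 64 -/
def fld (w i : Nat) : Nat := Nat.land (Nat.shiftRight w (Nat.mul 6 i)) 63
/-- replace a number < 64 by the literal -/
def lit64 {α : Type} (x : Nat) (f : Nat → α) : α := (@Bool.rec (fun _ => α) (@Bool.rec (fun _ => α) (@Bool.rec (fun _ => α) (@Bool.rec (fun _ => α) (@Bool.rec (fun _ => α) (@Bool.rec (fun _ => α) (f 0) (f 1) (tb x 0)) (@Bool.rec (fun _ => α) (f 2) (f 3) (tb x 0)) (tb x 1)) (@Bool.rec (fun _ => α) (@Bool.rec (fun _ => α) (f 4) (f 5) (tb x 0)) (@Bool.rec (fun _ => α) (f 6) (f 7) (tb x 0)) (tb x 1)) (tb x 2)) (@Bool.rec (fun _ => α) (@Bool.rec (fun _ => α) (@Bool.rec (fun _ => α) (f 8) (f 9) (tb x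 0)) (@Bool.rec (fun _ => α) (f 10) (f 11) (tb x 0)) (tb x 1)) (@Bool.rec (fun _ => α) (@Bool.rec (fun _ => α) (f 12) (f 13) (tb x 0)) (@Bool.rec (fun _ => α) (f 14) (f 15) (tb x 0)) (tb x 1)) (tb x 2)) (tb x 3)) (@Bool.rec (fun _ => α) (@Bool.rec (fun _ => α) (@Bool.rec (fun _ => α) (@Bool.rec (fun _ => α) (f 16) (f 17) (tb x 0)) (@Bool.rec (fun _ => α) (f 18) (f 19) (tb x 0)) (tb x 1)) (@Bool.rec (fun _ => α) (@Bool.rec (fun _ => α) (f 20) (f 21) (tb x 0)) (@Bool.rec (fun _ => α) (f 22) (f 23) (tb x 0)) (tb x 1)) (tb x 2)) (@Bool.rec (fun _ => α) (@Bool.rec (fun _ => α) (@Bool.rec (fun _ => α) (f 24) (f 25) (tb x 0)) (@Bool.rec (fun _ => α) (f 26) (f 27) (tb x 0)) (tb x 1)) (@Bool.rec (fun _ => α) (@Bool.rec (fun _ => α) (f 28) (f 29) (tb x 0)) (@Bool.rec (fun _ => α) (f 30) (f 31) (tb x 0)) (tb x 1)) (tb x 2)) (tb x 3)) (tb x 4)) (@Bool.rec (fun _ => α) (@Bool.rec (fun _ => α) (@Bool.rec (fun _ => α) (@Bool.rec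 (fun _ => α) (@Bool.rec (fun _ => α) (f 32) (f 33) (tb x 0)) (@Bool.rec (fun _ => α) (f 34) (f 35) (tb x 0)) (tb x 1)) (@Bool.rec (fun _ => α) (@Bool.rec (fun _ => α) (f 36) (f 37) (tb x 0)) (@Bool.rec (fun _ => α) (f 38) (f 39) (tb x 0)) (tb x 1)) (tb x 2)) (@Bool.rec (fun _ => α) (@Bool.rec (fun _ => α) (@Bool.rec (fun _ => α) (f 40) (f 41) (tb x 0)) (@Bool.rec (fun _ => α) (f 42) (f 43) (tb x 0)) (tb x 1)) (@Bool.rec (fun _ => α) (@Bool.rec (fun _ => α) (f 44) (f 45) (tb x 0)) (@Bool.rec (fun _ => α) (f 46) (f 47) (tb x 0)) (tb x 1)) (tb x 2)) (tb x 3)) (@Bool.rec (fun _ => α) (@Bool.rec (fun _ => α) (@Bool.rec (fun _ => α) (@Bool.rec (fun _ => α) (f 48) (f 49) (tb x 0)) (@Bool.rec (fun _ => α) (f 50) (f 51) (tb x 0)) (tb x 1)) (@Bool.rec (fun _ => α) (@Bool.rec (fun _ => α) (f 52) (f 53) (tb x 0)) (@Bool.rec (fun _ => α) (f 54) (f 55) (tb x 0)) (tb x 1)) (tb x 2)) (@Bool.rec (fun _ => α) (@Bool.rec (fun _ =>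 α) (@Bool.rec (fun _ => α) (f 56) (f 57) (tb x 0)) (@Bool.rec (fun _ => α) (f 58) (f 59) (tb x 0)) (tb x 1)) (@Bool.rec (fun _ => α) (@Bool.rec (fun _ => α) (f 60) (f 61) (tb x 0)) (@Bool.rec (fun _ => α) (f 62) (f 63) (tb x 0)) (tb x 1)) (tb x 2)) (tb x 3)) (tb x 4)) (tb x 5))

/-- all ones table -/
def full : Nat := Nat.sub (Nat.pow 2 65536) 1
/-- n times: x := x ||| (x <<< s), s := 2 s -/
def dbl (n : Nat) : Nat → Nat → Nat :=
  @Nat.rec (fun _ => Nat → Nat → Nat) (fun _ x => x) (fun _ ih s x => ih (Nat.mul 2 s) (Nat.lor x (Nat.shiftLeft x s))) n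
/-- table of the i-th variable -/
def V (i : Nat) : Nat :=
  dbl (Nat.sub 15 i) (Nat.pow 2 (Nat.add i 1)) (Nat.shiftLeft (Nat.sub (Nat.pow 2 (Nat.pow 2 i)) 1) (Nat.pow 2 i))

/-- parametrisation of the rows of a 4 x 6 matrix over F_2:
row k = (combination of the four words vs with coefficients bits 4k..4k+3 of the index) + (bit k of eps) b -/
structure Cfg where
  vs : Nat
  b : Nat
  eps : Nat

def rowOf (c : Cfg) (k i : Nat) : Nat :=
  xorL (sel (tb c.eps k) c.b 0) [0,1,2,3] (fun l => sel (tb i (Nat.add (Nat.mul 4 k) l)) (fld c.vs l) 0)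
/-- table: bit j of row k -/
def X (c : Cfg) (k j : Nat) : Nat :=
  xorL (sel (tb c.b j) (sel (tb c.eps k) full 0) 0) [0,1,2,3] (fun l => sel (tb (fld c.vs l) j) (V (Nat.add (Nat.mul 4 k) l)) 0)
def NX (c : Cfg) (k j : Nat) : Nat := Nat.xor full (X c k j)
/-- table: (row k) . y -/
def XY (c : Cfg) (k y : Nat) : Nat := xorL 0 (bits6 y) (fun j => X c k j)
def NXY (c : Cfg) (k y : Nat) : Nat := Nat.xor full (XY c k y)
/-- table: bit j of the sum of the rows in a -/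
def SA (c : Cfg) (a j : Nat) : Nat := xorL 0 (bits4 a) (fun k => X c k j)
def NSA (c : Cfg) (a j : Nat) : Nat := Nat.xor full (SA c a j)
/-- table: (sum of the rows in a) . y = 0 -/
def NSY (c : Cfg) (a y : Nat) : Nat := xorL full (bits4 a) (fun k => XY c k y)

/-- list of (row index, row word) -/
inductive RL where
 | nil : RL
 | cons : Nat → Nat → RL → RL
def rsum (r : RL) : Nat := @RL.rec (fun _ => Nat) 0 (fun _ w _ ih => Nat.xor w ih) r
def allR (r : RL) (f : Nat → Bool) : Bool := @RL.rec (fun _ => Bool) true (fun _ w _ ih => band (f w) ih) r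
def andR (i : Nat) (r : RL) (f : Nat → Nat → Nat) : Nat := @RL.rec (fun _ => Nat) i (fun k w _ ih => Nat.land (f k w) ih) r
def rx (a : Nat) (w0 w1 w2 w3 : Nat) : RL :=
  (fun r3 => (fun r2 => (fun r1 => @Bool.rec (fun _ => RL) r1 (.cons 0 w0 r1) (tb a 0))
    (@Bool.rec (fun _ => RL) r2 (.cons 1 w1 r2) (tb a 1)))
    (@Bool.rec (fun _ => RL) r3 (.cons 2 w2 r3) (tb a 2)))
    (@Bool.rec (fun _ => RL) .nil (.cons 3 w3 .nil) (tb a 3))

/-- the three even-submatrix conditions; s = sum of the rows r of the first matrix -/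
def E0 (c : Cfg) (a s : Nat) (r : RL) (y : Nat) : Nat :=
  sel (Nat.beq (Nat.land s y) 0) (sel (allR r (fun w => bnot (dot w y))) (NSY c a y) 0) 0
def E1c (c : Cfg) (a y : Nat) : Nat := andL (andL full (bits6 y) (fun j => NSA c a j)) (bits4 a) (fun k => NXY c k y)
def E1 (c : Cfg) (a s y : Nat) : Nat := sel (dot s y) 0 (E1c c a y)
def E2 (c : Cfg) (a s : Nat) (r : RL) (y : Nat) : Nat := sel (dot s y) 0
  (andR (andL full (bits6 y) (fun j => sel (tb s j) (SA c a j) (NSA c a j))) r (fun k w => sel (dot w y) (XY c k y) (NXY c k y)))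
def R0 (c : Cfg) (a s : Nat) (r : RL) (ys : List Nat) : Nat := orL ys (fun y => E0 c a s r y)
def R1 (c : Cfg) (a s : Nat) (ys : List Nat) : Nat := orL ys (fun y => E1 c a s y)
def R2 (c : Cfg) (a s : Nat) (r : RL) (ys : List Nat) : Nat := orL ys (fun y => E2 c a s r y)

def gN (c : Cfg) (ys : List Nat) (a s : Nat) (r : RL) : Nat := sand (R0 c a s r ys) (sand (R1 c a s ys) (R2 c a s r ys))
def gQ (c : Cfg) (ys : List Nat) (yq : Nat) (a s : Nat) (r : RL) : Nat :=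
  sand (Nat.lor (R0 c a s r ys) (E0 c a s r yq)) (sand (Nat.lor (R1 c a s ys) (E1 c a s yq)) (Nat.lor (R2 c a s r ys) (E2 c a s r yq)))
def gA (c : Cfg) (y0 y1 y2 : Nat) (a s : Nat) (r : RL) : Nat :=
  sand (Nat.lor (E0 c a s r y0) (Nat.lor (E0 c a s r y1) (E0 c a s r y2)))
  (sand (Nat.lor (E1 c a s y0) (Nat.lor (E1 c a s y1) (E1 c a s y2)))
   (Nat.lor (E2 c a s r y0) (Nat.lor (E2 c a s r y1) (E2 c a s r y2))))

/-- pair of complementary row sets: (b, rows of b, 15-b, rows of 15-b) -/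
inductive PD where
 | mk : Nat → RL → Nat → RL → PD
def onPD (G : Nat → Nat → RL → Nat) (p : PD) : Nat :=
  @PD.rec (fun _ => Nat) (fun b rb b' rb' => sand (lit64 (rsum rb) (fun s => G b s rb)) (lit64 (rsum rb') (fun s => G b' s rb'))) p
def pds (w0 w1 w2 w3 : Nat) : List PD :=
  [.mk 1 (.cons 0 w0 .nil) 14 (.cons 1 w1 (.cons 2 w2 (.cons 3 w3 .nil))),
   .mk 2 (.cons 1 w1 .nil) 13 (.cons 0 w0 (.cons 2 w2 (.cons 3 w3 .nil))),
   .mk 4 (.cons 2 w2 .nil) 11 (.cons 0 w0 (.cons 1 w1 (.cons 3 w3 .nil))),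
   .mk 8 (.cons 3 w3 .nil) 7 (.cons 0 w0 (.cons 1 w1 (.cons 2 w2 .nil))),
   .mk 3 (.cons 0 w0 (.cons 1 w1 .nil)) 12 (.cons 2 w2 (.cons 3 w3 .nil)),
   .mk 5 (.cons 0 w0 (.cons 2 w2 .nil)) 10 (.cons 1 w1 (.cons 3 w3 .nil)),
   .mk 6 (.cons 1 w1 (.cons 2 w2 .nil)) 9 (.cons 0 w0 (.cons 3 w3 .nil))]

/-- one step of the assignment DP; state bit mask = set of elements of D already attached -/
def dpStep (n q0 q1 q2 al : Nat) (k : Nat → Nat → Nat → Nat → Nat → Nat → Nat → Nat → Nat)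
   (s0 s1 s2 s3 s4 s5 s6 s7 : Nat) : Nat :=
  @Bool.rec (fun _ => Nat)
   (k (sand s0 n)
     (Nat.lor (sand s1 n) (sand s0 q0))
     (Nat.lor (sand s2 n) (sand s0 q1))
     (Nat.lor (sand s3 n) (Nat.lor (sand s2 q0) (sand s1 q1)))
     (Nat.lor (sand s4 n) (sand s0 q2))
     (Nat.lor (sand s5 n) (Nat.lor (sand s4 q0) (sand s1 q2)))
     (Nat.lor (sand s6 n) (Nat.lor (sand s4 q1) (sand s2 q2)))
     (Nat.lor (sand s7 n) (Nat.lor (sand s6 q0) (Nat.lor (sand s5 q1) (Nat.lor (sand s3 q2) (sand s0 al))))))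
   0
   (Nat.beq (Nat.lor s0 (Nat.lor s1 (Nat.lor s2 (Nat.lor s3 (Nat.lor s4 (Nat.lor s5 (Nat.lor s6 s7))))))) 0)
def dpEnd (star : Bool) (s0 s1 s2 s3 s4 s5 s6 s7 : Nat) : Nat :=
  @Bool.rec (fun _ => Nat) (Nat.lor s0 (Nat.lor s1 (Nat.lor s2 (Nat.lor s3 (Nat.lor s4 (Nat.lor s5 (Nat.lor s6 s7)))))))
   (Nat.lor s1 (Nat.lor s3 (Nat.lor s5 s7))) star
def dp (gn g0 g1 g2 ga : PD → Nat) (star : Bool) (l : List PD) : Nat → Nat → Nat → Nat → Nat → Nat → Nat → Nat → Nat :=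
  @List.rec PD (fun _ => Nat → Nat → Nat → Nat → Nat → Nat → Nat → Nat → Nat) (dpEnd star)
    (fun p _ ih => dpStep (gn p) (g0 p) (g1 p) (g2 p) (ga p) ih) l

/-- all sums of rows are non zero -/
def nzAll (c : Cfg) : Nat := andL full [1,2,3,4,5,6,7,8,9,10,11,12,13,14,15] (fun a => orL [0,1,2,3,4,5] (fun j => SA c a j))
/-- sum of the rows of a is different from s -/
def NE (c : Cfg) (a s : Nat) : Nat := orL [0,1,2,3,4,5] (fun j => sel (tb s j) (NSA c a j) (SA c a j))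
/-- sum of all rows vanishes on m -/
def zsum (c : Cfg) (m : Nat) : Nat := andL (nzAll c) (bits6 m) (fun j => NSA c 15 j)
def neAll (c : Cfg) (l : List PD) (i : Nat) : Nat :=
  @List.rec PD (fun _ => Nat) i (fun p _ ih => Nat.land (onPD (fun a s _ => NE c a s) p) ih) l
def acc1 (c : Cfg) (m : Nat) (w0 w1 w2 w3 : Nat) : Nat :=
  neAll c (pds w0 w1 w2 w3) (Nat.land (zsum c m) (lit64 (Nat.xor w0 (Nat.xor w1 (Nat.xor w2 w3))) (fun s => NE c 15 s)))
/-- each column which vanishes in the first matrix (w = union of its rows) is non zero in the second -/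
def nzCol (c : Cfg) (w : Nat) (i : Nat) : Nat :=
  andL i [0,1,2,3,4,5] (fun j => sel (tb w j) full (orL [0,1,2,3] (fun k => X c k j)))

def lvl1 (c : Cfg) (star : Bool) (ys : List Nat) (y0 y1 y2 : Nat) (w0 w1 w2 w3 : Nat) (acc : Nat) : Nat :=
  dp (onPD (gN c ys)) (onPD (gQ c ys y0)) (onPD (gQ c ys y1)) (onPD (gQ c ys y2)) (onPD (gA c y0 y1 y2)) star (pds w0 w1 w2 w3)
    acc 0 0 0 0 0 0 0

/-! level 0 -/
def xnor (x y : Nat) : Nat := Nat.xor full (Nat.xor x y)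
/-- row k is at most row k' -/
def leT (c : Cfg) (k k' : Nat) : Nat :=
  @List.rec Nat (fun _ => Nat) full (fun j _ ih => Nat.lor (Nat.land (NX c k j) (X c k' j)) (Nat.land (xnor (X c k j) (X c k' j)) ih)) [5,4,3,2,1,0]
/-- column j is lexicographically at least column j' -/
def geC (c : Cfg) (j j' : Nat) : Nat :=
  @List.rec Nat (fun _ => Nat) full (fun k _ ih => Nat.lor (Nat.land (X c k j) (NX c k j')) (Nat.land (xnor (X c k j) (X c k j')) ih)) [0,1,2,3]
def sameCl (y0 y1 j j' : Nat) : Bool :=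
  band (Nat.beq (Nat.land (Nat.shiftRight y0 j) 1) (Nat.land (Nat.shiftRight y0 j') 1)) (Nat.beq (Nat.land (Nat.shiftRight y1 j) 1) (Nat.land (Nat.shiftRight y1 j') 1))
def geS (c : Cfg) (y0 y1 j j' : Nat) : Nat := sel (sameCl y0 y1 j j') (geC c j j') full
/-- sorted rows (rows 1,2 are not compared if m12 = false) and sorted columns -/
def sortT (c : Cfg) (m12 : Bool) (y0 y1 : Nat) (i : Nat) : Nat :=
  Nat.land (leT c 0 1) (Nat.land (sel m12 (leT c 1 2) full) (Nat.land (leT c 2 3)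
  (Nat.land (geS c y0 y1 0 1) (Nat.land (geS c y0 y1 1 2) (Nat.land (geS c y0 y1 2 3) (Nat.land (geS c y0 y1 3 4) (Nat.land (geS c y0 y1 4 5) i)))))))
def anyE (c : Cfg) (ys : List Nat) (a : Nat) : Nat := orL ys (fun y => E1c c a y)
def base0 (c : Cfg) (m12 : Bool) (y0 y1 : Nat) : Nat := sortT c m12 y0 y1 (zsum c (Nat.lor y0 y1))
def pds0 : List PD := [.mk 1 .nil 14 .nil, .mk 2 .nil 13 .nil, .mk 4 .nil 11 .nil, .mk 8 .nil 7 .nil, .mk 3 .nil 12 .nil, .mk 5 .nil 10 .nil, .mk 6 .nil 9 .nil]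
def T0 (c : Cfg) (star m12 : Bool) (ys : List Nat) (y0 y1 y2 : Nat) : Nat :=
  dp (onPD (fun a _ _ => anyE c ys a)) (onPD (fun a _ _ => Nat.lor (anyE c ys a) (E1c c a y0))) (onPD (fun a _ _ => Nat.lor (anyE c ys a) (E1c c a y1)))
    (onPD (fun a _ _ => Nat.lor (anyE c ys a) (E1c c a y2))) (onPD (fun a _ _ => Nat.lor (E1c c a y0) (Nat.lor (E1c c a y1) (E1c c a y2)))) star pds0
    (base0 c m12 y0 y1) 0 0 0 0 0 0 0
/-- column j vanishes -/
def colZ (c : Cfg) (j : Nat) : Nat := andL full [0,1,2,3] (fun k => NX c k j)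
def orLL (l : List (List Nat)) (f : List Nat → Nat) : Nat := @List.rec (List Nat) (fun _ => Nat) 0 (fun a _ ih => Nat.lor (f a) ih) l
/-- complements of the two-dimensional subspaces not containing 15 -/
def compl : List (List Nat) := [[7, 11, 13, 14, 5, 6, 9, 10, 12, 4, 8], [7, 11, 13, 14, 3, 6, 9, 10, 12, 2, 8], [11, 13, 14, 3, 5, 9, 10, 12, 2, 4, 8], [7, 11, 13, 14, 3, 5, 6, 10, 12, 2, 4], [7, 13, 14, 3, 5, 6, 9, 12, 2, 4, 8], [7, 11, 14, 3, 5, 6, 9, 10, 2, 4, 8], [7, 11, 13, 14, 3, 5, 9, 10, 12, 1, 8], [11, 13, 14, 3, 6, 9, 10, 12, 1, 4, 8], [7, 11, 13, 14, 3, 5, 6, 9, 12, 1, 4], [7, 13, 14, 3, 5, 6, 10, 12, 1, 4, 8], [7, 11, 13, 3, 5, 6, 9, 10, 1, 4, 8], [11, 13, 14, 5, 6, 9, 10, 12, 1, 2, 8], [7, 11, 13, 14, 9, 10, 12, 1, 2, 4, 8], [7, 13, 14, 5, 6, 9, 10, 12, 1, 2, 4], [7, 11, 13, 14, 5, 6, 12, 1, 2, 4, 8], [7, 11, 5, 6, 9, 10, 12, 1, 2, 4, 8], [7, 11, 13, 14, 3, 5, 6, 9, 10, 1, 2], [7, 11, 14, 3, 5, 6, 10,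 12, 1, 2, 8], [7, 11, 13, 3, 5, 6, 9, 12, 1, 2, 8], [7, 11, 14, 3, 6, 9, 10, 12, 1, 2, 4], [7, 11, 13, 14, 3, 6, 10, 1, 2, 4, 8], [7, 13, 3, 6, 9, 10, 12, 1, 2, 4, 8], [7, 11, 13, 3, 5, 9, 10, 12, 1, 2, 4], [7, 11, 13, 14, 3, 5, 9, 1, 2, 4, 8], [7, 14, 3, 5, 9, 10, 12, 1, 2, 4, 8], [11, 13, 3, 5, 6, 10, 12, 1, 2, 4, 8], [11, 14, 3, 5, 6, 9, 12, 1, 2, 4, 8], [13, 14, 3, 5, 6, 9, 10, 1, 2, 4, 8]]
def subsp (i : Nat) (f : Nat → Nat) : Nat := orLL compl (fun l => sandL i l f)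

/-! loops over set bits -/
def lowH (m T : Nat) : Nat := Nat.land T (Nat.sub (Nat.pow 2 (Nat.pow 2 m)) 1)
def highH (m T : Nat) : Nat := Nat.shiftRight T (Nat.pow 2 m)
/-- f holds at b + i for all set bits i < 2^n of T -/
def loopT (f : Nat → Bool) (n : Nat) : Nat → Nat → Bool :=
  @Nat.rec (fun _ => Nat → Nat → Bool) (fun T b => @Bool.rec (fun _ => Bool) (f b) true (Nat.beq T 0))
   (fun m ih T b => @Bool.rec (fun _ => Bool) (band (ih (lowH m T) b) (ih (highH m T) (Nat.add b (Nat.pow 2 m)))) true (Nat.beq T 0)) n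
/-- list of the set bits i < 2^n of T, shifted by b, prepended to acc -/
def bitsT (n : Nat) : Nat → Nat → List Nat → List Nat :=
  @Nat.rec (fun _ => Nat → Nat → List Nat → List Nat) (fun T b acc => consB (bnot (Nat.beq T 0)) b acc)
   (fun m ih T b acc => @Bool.rec (fun _ => List Nat) (ih (lowH m T) b (ih (highH m T) (Nat.add b (Nat.pow 2 m)) acc)) acc (Nat.beq T 0)) n
def withRows (c : Cfg) (i : Nat) (f : Nat → Nat → Nat → Nat → Bool) : Bool :=
  lit64 (rowOf c 0 i) (fun w0 => lit64 (rowOf c 1 i) (fun w1 => lit64 (rowOf c 2 i) (fun w2 => lit64 (rowOf c 3 i) (fun w3 => f w0 w1 w2 w3))))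

/-! leaf check -/
/-- bits 64 w .. 64 w + 63: the set of y with w.y = 0 -/
def ZT : Nat := 0x96696996699696693cc3c33cc33c3cc35aa5a55aa55a5aa5f00f0ff00ff0f00f6699996699666699cc3333cc33cccc33aa5555aa55aaaa5500ffff00ff0000ff6969969696966969c3c33c3c3c3cc3c3a5a55a5a5a5aa5a50f0ff0f0f0f00f0f99996666666699993333cccccccc33335555aaaaaaaa5555ffff00000000ffff6996699696699669c33cc33c3cc33cc3a55aa55a5aa55aa50ff00ff0f00ff00f996699666699669933cc33cccc33cc3355aa55aaaa55aa55ff00ff0000ff00ff96969696696969693c3c3c3cc3c3c3c35a5a5a5aa5a5a5a5f0f0f0f00f0f0f0f6666666699999999cccccccc33333333aaaaaaaa5555555500000000ffffffff6996966969969669c33c3cc3c33c3cc3a55a5aa5a55a5aa50ff0f00f0ff0f00f996666999966669933cccc3333cccc3355aaaa5555aaaa55ff0000ffff0000ff96966969969669693c3cc3c33c3cc3c35a5aa5a55a5aa5a5f0f00f0ff0f00f0f6666999966669999cccc3333cccc3333aaaa5555aaaa55550000ffff0000ffff96699669966996693cc33cc33cc33cc35aa55aa55aa55aa5f00ff00ff00ff00f6699669966996699cc33cc33cc33cc33aa55aa55aa55aa5500ff00ff00ff00ff6969696969696969c3c3c3c3c3c3c3c3a5a5a5a5a5a5a5a50f0f0f0f0f0f0f0f999999999999999933333333333333335555555555555555ffffffffffffffff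
/-- bits 64 w .. 64 w + 63: the set of y disjoint from w -/
def NT : Nat := 0x100000000000000030000000000000005000000000000000f00000000000000110000000000000033000000000000005500000000000000ff0000000000000101000000000000030300000000000005050000000000000f0f000000000000111100000000000033330000000000005555000000000000ffff00000000000100010000000000030003000000000005000500000000000f000f0000000000110011000000000033003300000000005500550000000000ff00ff000000000101010100000000030303030000000005050505000000000f0f0f0f00000000111111110000000033333333000000005555555500000000ffffffff0000000100000001000000030000000300000005000000050000000f0000000f000000110000001100000033000000330000005500000055000000ff000000ff00000101000001010000030300000303000005050000050500000f0f00000f0f0000111100001111000033330000333300005555000055550000ffff0000ffff000100010001000100030003000300030005000500050005000f000f000f000f00110011001100110033003300330033005500550055005500ff00ff00ff00ff0101010101010101030303030303030305050505050505050f0f0f0f0f0f0f0f111111111111111133333333333333335555555555555555ffffffffffffffff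
def F64 : Nat := 0xffffffffffffffff
def F63 : Nat := 0xfffffffffffffffe
def Zt (w : Nat) : Nat := Nat.land (Nat.shiftRight ZT (Nat.mul 64 w)) F64
def Nt (w : Nat) : Nat := Nat.land (Nat.shiftRight NT (Nat.mul 64 w)) F64
def sgl (t : Nat) : Nat := sel (Nat.beq (Nat.land t (Nat.sub t 1)) 0) t 0
def Z2 (s0 s1 : Nat) : Nat := Nat.land F63 (Nat.land (Zt s0) (Zt s1))
def ZR (r : RL) : Nat := andR F63 r (fun _ w => Zt w)
def emask (s s0 s1 : Nat) (r : RL) : Nat := Nat.land (Nt s) (Nat.land (Z2 s0 s1) (ZR r))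

/-- a full leaf: first and second matrix, their sum, and the mask of the set D of a = 15 -/
structure Leaf where
  w0 : Nat
  w1 : Nat
  w2 : Nat
  w3 : Nat
  x0 : Nat
  x1 : Nat
  x2 : Nat
  x3 : Nat
  z0 : Nat
  z1 : Nat
  z2 : Nat
  z3 : Nat
  D : Nat
/-- masks of E0, E1, E2 passed to k -/
def withE {α : Type} (a : Nat) (L : Leaf) (k : Nat → Nat → Nat → α) : α :=
  (fun s0 s1 => k (emask s0 s0 s1 (rx a L.w0 L.w1 L.w2 L.w3)) (emask s1 s0 s1 (rx a L.x0 L.x1 L.x2 L.x3))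
    (emask (Nat.xor s0 s1) s0 s1 (rx a L.z0 L.z1 L.z2 L.z3)))
   (rsum (rx a L.w0 L.w1 L.w2 L.w3)) (rsum (rx a L.x0 L.x1 L.x2 L.x3))
def dr (x : Nat) : Nat := Nat.land x (Nat.sub x 1)
/-- at most three bits -/
def le3 (x : Nat) : Bool := Nat.beq (dr (dr (dr x))) 0
/-- candidate masks containing the bit e -/
def candE (e0 e1 e2 u e : Nat) (acc : List Nat) : List Nat :=
  @List.rec Nat (fun _ => List Nat) acc (fun v _ ih =>
    @Bool.rec (fun _ => List Nat) ih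
     ((fun m => consB (band (bnot (Nat.beq (Nat.land e0 m) 0)) (band (bnot (Nat.beq (Nat.land e1 m) 0)) (bnot (Nat.beq (Nat.land e2 m) 0)))) m ih)
       (Nat.lor (Nat.pow 2 e) (Nat.lor (Nat.pow 2 v) (Nat.pow 2 (Nat.xor e v)))))
     (band (bnot (Nat.beq e v)) (tb u (Nat.xor e v)))) (bitsT 6 u 0 [])
def candF (e0 e1 e2 u : Nat) (es : List Nat) : List Nat :=
  @List.rec Nat (fun _ => List Nat) [] (fun e _ ih => candE e0 e1 e2 u e ih) es
def cands (e0 e1 e2 : Nat) : Option (List Nat) :=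
  (fun u => @Bool.rec (fun _ => Option (List Nat))
    (@Bool.rec (fun _ => Option (List Nat))
      (@Bool.rec (fun _ => Option (List Nat)) none (some (candF e0 e1 e2 u (bitsT 6 e2 0 []))) (le3 e2))
      (some (candF e0 e1 e2 u (bitsT 6 e1 0 []))) (le3 e1))
    (some (candF e0 e1 e2 u (bitsT 6 e0 0 []))) (le3 e0)) (Nat.lor e0 (Nat.lor e1 e2))
def candA (L : Leaf) (a : Nat) : Option (List Nat) :=
  @Bool.rec (fun _ => Option (List Nat)) (withE a L (fun e0 e1 e2 => cands e0 e1 e2)) (some [L.D]) (Nat.beq a 15)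
/-- elements known to lie in D_a -/
def must0 (L : Leaf) (a : Nat) : Nat :=
  @Bool.rec (fun _ => Nat) (withE a L (fun e0 e1 e2 => Nat.lor (sgl e0) (Nat.lor (sgl e1) (sgl e2)))) L.D (Nat.beq a 15)
def must1 (L : Leaf) (a : Nat) : Nat := @Option.rec (List Nat) (fun _ => Nat) 0 (fun l => andL F64 l (fun m => m)) (candA L a)
def idx15 : List Nat := [1,2,3,4,5,6,7,8,9,10,11,12,13,14,15]
def pairsOr (mf : Nat → Nat) (cond : Nat → Nat → Bool) (l : List Nat) : Nat :=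
  @List.rec Nat (fun _ => Nat) 0 (fun a t ih => @Bool.rec (fun _ => Nat) (Nat.lor (orL t (fun b => sel (cond a b) (Nat.land (mf a) (mf b)) 0)) ih) ih (Nat.beq (mf a) 0)) l
def fC (mf : Nat → Nat) (c : Nat) : Nat := pairsOr mf (fun a b => Nat.beq (Nat.xor a b) c) idx15
def gC (mf : Nat → Nat) (c : Nat) : Nat := pairsOr mf (fun a b => band (bnot (Nat.beq a c)) (band (bnot (Nat.beq b c)) (bnot (Nat.beq (Nat.xor a b) c)))) idx15
def deadC (mf : Nat → Nat) (L : Leaf) (c : Nat) : Bool :=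
  @Option.rec (List Nat) (fun _ => Bool) false
   (fun l => allL l (fun m => bor (bnot (Nat.beq (Nat.land (fC mf c) m) (fC mf c))) (bnot (Nat.beq (Nat.land (gC mf c) m) 0)))) (candA L c)
def leafDead (L : Leaf) : Bool :=
  bor (anyL [13,7,11,14,4,3,5,6,9,10,12,15] (fun c => deadC (must0 L) L c))
   (anyL [7,11,4,3,13,5,14,15] (fun c => deadC (must1 L) L c))
def leaf (y0 y1 y2 : Nat) (w0 w1 w2 w3 x0 x1 x2 x3 : Nat) : Bool :=
  lit64 (Nat.xor w0 x0) (fun z0 => lit64 (Nat.xor w1 x1) (fun z1 => lit64 (Nat.xor w2 x2) (fun z2 => lit64 (Nat.xor w3 x3) (fun z3 =>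
   leafDead ⟨w0,w1,w2,w3,x0,x1,x2,x3,z0,z1,z2,z3, Nat.lor (Nat.pow 2 y0) (Nat.lor (Nat.pow 2 y1) (Nat.pow 2 y2))⟩))))

def ys63 : List Nat := [1,2,3,4,5,6,7,8,9,10,11,12,13,14,15,16,17,18,19,20,21,22,23,24,25,26,27,28,29,30,31,32,33,34,35,36,37,38,39,40,41,42,43,44,45,46,47,48,49,50,51,52,53,54,55,56,57,58,59,60,61,62,63]
/-- all y in 1..63 except y0, y1, y2 -/
def ysC (y0 y1 y2 : Nat) : List Nat :=
  @List.rec Nat (fun _ => List Nat) [] (fun y _ ih => consB (bnot (bor (Nat.beq y y0) (bor (Nat.beq y y1) (Nat.beq y y2)))) y ih) ys63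
/-- all y in 1..63 with bit j zero -/
def ysZ (j : Nat) : List Nat := @List.rec Nat (fun _ => List Nat) [] (fun y _ ih => consB (bnot (tb y j)) y ih) ys63

/-- second level: all second matrices for a given first matrix -/
def chk1 (c : Cfg) (star nz : Bool) (m1 : Nat) (ys : List Nat) (y0 y1 y2 : Nat) (w0 w1 w2 w3 : Nat) : Bool :=
  loopT (fun i1 => withRows c i1 (fun x0 x1 x2 x3 => leaf y0 y1 y2 w0 w1 w2 w3 x0 x1 x2 x3)) 16
    (lvl1 c star ys y0 y1 y2 w0 w1 w2 w3 (@Bool.rec (fun _ => Nat) (acc1 c m1 w0 w1 w2 w3)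
      (nzCol c (Nat.lor w0 (Nat.lor w1 (Nat.lor w2 w3))) (acc1 c m1 w0 w1 w2 w3)) nz)) 0
/-- all first matrices with index in [lo, hi), all second matrices with parameter eps in es -/
def chk (vs b0 e0 b1 : Nat) (es : List Nat) (star m12 nz : Bool) (m1 : Nat) (ys : List Nat) (y0 y1 y2 lo hi : Nat) : Bool :=
  loopT (fun i => withRows ⟨vs,b0,e0⟩ i (fun w0 w1 w2 w3 =>
     allL es (fun e => chk1 ⟨vs,b1,e⟩ star nz m1 ys y0 y1 y2 w0 w1 w2 w3))) 16
   (Nat.shiftRight (Nat.land (T0 ⟨vs,b0,e0⟩ star m12 ys y0 y1 y2) (Nat.sub (Nat.pow 2 hi) 1)) lo) lo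
/-- case of a zero column j in both matrices, T configurations -/
def chkZ (vs b0 b1 e : Nat) (m12 : Bool) (y0 y1 j : Nat) : Bool :=
  loopT (fun i => withRows ⟨vs,b0,e⟩ i (fun w0 w1 w2 w3 =>
    Nat.beq (subsp (Nat.land (colZ ⟨vs,b1,e⟩ j) (acc1 ⟨vs,b1,e⟩ (Nat.lor y0 y1) w0 w1 w2 w3))
      (fun a => lit64 (rsum (rx a w0 w1 w2 w3)) (fun s => gN ⟨vs,b1,e⟩ (ysZ j) a s (rx a w0 w1 w2 w3)))) 0)) 16
   (subsp (Nat.land (colZ ⟨vs,b0,e⟩ j) (base0 ⟨vs,b0,e⟩ m12 y0 y1)) (fun a => anyE ⟨vs,b0,e⟩ (ysZ j) a)) 0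
end CDM
end
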