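import Pool.Agent.Helper83.CDM.ChkZ

/-! Every admissible matrix has an index. -/
namespace CDM

noncomputable def comb (vs n z : ℕ) : ℕ := xorL z [0,1,2,3] (fun l => sel (tb n l) (fld vs l) 0)

noncomputable def idxOK (vs b u v : ℕ) : Bool :=
  (List.range 64).all fun w => dot w u || (List.range 16).any fun n => Nat.beq (comb vs n (sel (dot w v) b 0)) w

theorem nibbles (n0 n1 n2 n3 : ℕ) (h0 : n0 < 16) (h1 : n1 < 16) (h2 : n2 < 16) (h3 : n3 < 16) :
    ∃ i < 65536, ∀ l < 4, i.testBit l = n0.testBit l ∧ i.testBit (4 + l) = n1.testBit l ∧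
      i.testBit (8 + l) = n2.testBit l ∧ i.testBit (12 + l) = n3.testBit l := by
  refine ⟨n0 + 16 * (n1 + 16 * (n2 + 16 * n3)), by omega, ?_⟩
  intro l hl
  have e1 : ∀ a b k : ℕ, a < 16 → k < 4 → (a + 16 * b).testBit k = a.testBit k := by
    intro a b k ha hk
    have := Nat.testBit_two_pow_mul_add (a := b) (i := 4) (b := a) (by simpa using ha) k
    rw [show a + 16 * b = 2 ^ 4 * b + a by ring, this]; simp [hk]
  have e2 : ∀ a b k : ℕ, a < 16 → (a + 16 * b).testBit (4 + k) = b.testBit k := by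
    intro a b k ha
    have := Nat.testBit_two_pow_mul_add (a := b) (i := 4) (b := a) (by simpa using ha) (4 + k)
    rw [show a + 16 * b = 2 ^ 4 * b + a by ring, this]; simp
  refine ⟨e1 _ _ _ h0 hl, ?_, ?_, ?_⟩
  · rw [e2 _ _ _ h0, e1 _ _ _ h1 hl]
  · rw [show 8 + l = 4 + (4 + l) by ring, e2 _ _ _ h0, e2 _ _ _ h1, e1 _ _ _ h2 hl]
  · rw [show 12 + l = 4 + (4 + (4 + l)) by ring, e2 _ _ _ h0, e2 _ _ _ h1, e2 _ _ _ h2]

theorem idx_exists {vs b u v eps : ℕ} (h : idxOK vs b u v = true) {R : ℕ → ℕ} (hlt : ∀ k < 4, R k < 64)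
    (hu : ∀ k < 4, dotB (R k) u = false) (hv : ∀ k < 4, dotB (R k) v = eps.testBit k) :
    ∃ i < 65536, ∀ k < 4, rowOf ⟨vs, b, eps⟩ k i = R k := by
  have key : ∀ k < 4, ∃ n < 16, comb vs n (sel (eps.testBit k) b 0) = R k := by
    intro k hk
    unfold idxOK at h
    rw [List.all_eq_true] at h
    have h2 := h (R k) (List.mem_range.mpr (hlt k hk))
    rw [dot_eq (hlt k hk), dot_eq (hlt k hk), hu k hk, hv k hk, Bool.false_or, List.any_eq_true] at h2
    obtain ⟨n, hn, h3⟩ := h2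
    exact ⟨n, List.mem_range.mp hn, Nat.eq_of_beq_eq_true h3⟩
  obtain ⟨n0, h0, e0⟩ := key 0 (by norm_num)
  obtain ⟨n1, h1, e1⟩ := key 1 (by norm_num)
  obtain ⟨n2, h2, e2⟩ := key 2 (by norm_num)
  obtain ⟨n3, h3, e3⟩ := key 3 (by norm_num)
  obtain ⟨i, hi, H⟩ := nibbles n0 n1 n2 n3 h0 h1 h2 h3
  refine ⟨i, hi, ?_⟩
  have H0 := H 0 (by norm_num); have H1 := H 1 (by norm_num); have H2 := H 2 (by norm_num); have H3 := H 3 (by norm_num)
  have e : ∀ k l, Nat.add (Nat.mul 4 k) l = 4 * k + l := fun _ _ => rfl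
  intro k hk
  have gen : ∀ n, (∀ l < 4, i.testBit (4 * k + l) = n.testBit l) → rowOf ⟨vs, b, eps⟩ k i = comb vs n (sel (eps.testBit k) b 0) := by
    intro n hn
    unfold rowOf comb
    simp only [xorL_cons, xorL_nil, e, tb_eq]
    rw [hn 0 (by norm_num), hn 1 (by norm_num), hn 2 (by norm_num), hn 3 (by norm_num)]
  interval_cases k
  · rw [gen n0 ?_, e0]
    intro l hl; interval_cases l
    · exact H0.1
    · exact H1.1
    · exact H2.1
    · exact H3.1
  · rw [gen n1 ?_, e1]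
    intro l hl; interval_cases l
    · exact H0.2.1
    · exact H1.2.1
    · exact H2.2.1
    · exact H3.2.1
  · rw [gen n2 ?_, e2]
    intro l hl; interval_cases l
    · exact H0.2.2.1
    · exact H1.2.2.1
    · exact H2.2.2.1
    · exact H3.2.2.1
  · rw [gen n3 ?_, e3]
    intro l hl; interval_cases l
    · exact H0.2.2.2
    · exact H1.2.2.2
    · exact H2.2.2.2
    · exact H3.2.2.2

end CDM
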