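import Pool.Agent.Helper83.CDM.LeafS

/-! Soundness of the leaf check, second part. -/
namespace CDM

noncomputable def mkLeaf (W X : ℕ → ℕ) (m : ℕ) : Leaf :=
  ⟨W 0, W 1, W 2, W 3, X 0, X 1, X 2, X 3, W 0 ^^^ X 0, W 1 ^^^ X 1, W 2 ^^^ X 2, W 3 ^^^ X 3, m⟩

/-- the mask of E_l(a, .) -/
noncomputable def em (W X : ℕ → ℕ) (l a : ℕ) : ℕ :=
  emask (PW (mat W X l) a) (PW W a) (PW X a) (rx a (mat W X l 0) (mat W X l 1) (mat W X l 2) (mat W X l 3))

theorem withE_eq {α : Type} (W X : ℕ → ℕ) (m a : ℕ) (k : ℕ → ℕ → ℕ → α) :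
    withE a (mkLeaf W X m) k = k (em W X 0 a) (em W X 1 a) (em W X 2 a) := by
  have e : em W X 2 a = emask (Nat.xor (PW W a) (PW X a)) (PW W a) (PW X a)
      (rx a (W 0 ^^^ X 0) (W 1 ^^^ X 1) (W 2 ^^^ X 2) (W 3 ^^^ X 3)) := by
    show emask (PW (fun k => W k ^^^ X k) a) _ _ _ = _
    rw [PW_xor]; rfl
  rw [e]; rfl

section
variable {W X : ℕ → ℕ} {D : ℕ → ℕ → Prop} {m : ℕ}

theorem t_em (S : Sys W X D) {l a y : ℕ} (hy : 0 < y) (hy' : y < 64) (hl : l < 3) (h : En W X l a y) :
    (em W X l a).testBit y = true := by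
  have hM : ∀ k < 4, mat W X l k < 64 := by
    intro k hk
    interval_cases l
    · exact S.W_lt k hk
    · exact S.X_lt k hk
    · exact Sys.xor_lt (S.W_lt k hk) (S.X_lt k hk)
  exact t_emask (PW_lt hM a) (PW_lt S.W_lt a) (PW_lt S.X_lt a) hM hy hy' h.ev.z h.d0 h.d1 h.ev.d

theorem candA_sound (S : Sys W X D) (hm : ∀ z, m.testBit z = true ↔ D 15 z) {a : ℕ} (ha : 0 < a) (ha' : a < 16)
    {l : List ℕ} (h : candA (mkLeaf W X m) a = some l) : ∃ q ∈ l, ∀ z, q.testBit z = true ↔ D a z := by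
  unfold candA at h
  rw [beq_eq] at h
  by_cases h15 : a = 15
  · subst h15
    simp only [decide_true] at h
    have h2 : some [m] = some l := h
    rw [← Option.some.inj h2]
    exact ⟨m, by simp, hm⟩
  · simp only [h15, decide_false] at h
    rw [withE_eq] at h
    obtain ⟨p, q, hp, hp', hq, hq', hpq, H⟩ := S.dim a ha ha'
    have k : ∀ l < 3, ∃ y, D a y ∧ (em W X l a).testBit y = true := by
      intro l hl
      obtain ⟨y, hy, hE⟩ := S.E4 a l ha ha' hl
      have := S.bound ha ha' hy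
      exact ⟨y, hy, t_em S this.1 this.2 hl hE⟩
    refine cands_sound H hpq hp' hq hq' (k 0 (by norm_num)) (k 1 (by norm_num)) (k 2 (by norm_num)) ?_ h
    intro y hy
    obtain ⟨l, hl, hE⟩ := S.E5 a y ha ha' hy
    have hb := S.bound ha ha' hy
    have := t_em S hb.1 hb.2 hl hE
    interval_cases l
    · exact Or.inl this
    · exact Or.inr (Or.inl this)
    · exact Or.inr (Or.inr this)

theorem must0_sound (S : Sys W X D) (hm : ∀ z, m.testBit z = true ↔ D 15 z) {a z : ℕ} (ha : 0 < a) (ha' : a < 16)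
    (h : (must0 (mkLeaf W X m) a).testBit z = true) : D a z := by
  unfold must0 at h
  rw [beq_eq] at h
  by_cases h15 : a = 15
  · subst h15
    simp only [decide_true] at h
    exact (hm z).mp h
  · simp only [h15, decide_false] at h
    rw [withE_eq] at h
    have k : ∀ l < 3, (sgl (em W X l a)).testBit z = true → D a z := by
      intro l hl h
      obtain ⟨y, hy, hE⟩ := S.E4 a l ha ha' hl
      have hb := S.bound ha ha' hy
      have := sgl_sound h (t_em S hb.1 hb.2 hl hE)
      rw [← this]; exact hy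
    rw [t_lor, t_lor, Bool.or_eq_true, Bool.or_eq_true] at h
    rcases h with h | h | h
    · exact k 0 (by norm_num) h
    · exact k 1 (by norm_num) h
    · exact k 2 (by norm_num) h

theorem must1_sound (S : Sys W X D) (hm : ∀ z, m.testBit z = true ↔ D 15 z) {a z : ℕ} (ha : 0 < a) (ha' : a < 16)
    (h : (must1 (mkLeaf W X m) a).testBit z = true) : D a z := by
  unfold must1 at h
  cases hc : candA (mkLeaf W X m) a with
  | none => rw [hc] at h; simp at h
  | some l =>
    rw [hc] at h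
    obtain ⟨q, hq, H⟩ := candA_sound S hm ha ha' hc
    have h2 : (andL F64 l (fun m => m)).testBit z = true := h
    rw [t_andL] at h2
    exact (H z).mp (h2.2 q hq)

theorem pairsOr_sound {mf : ℕ → ℕ} {cond : ℕ → ℕ → Bool} {z : ℕ} : ∀ (l : List ℕ), l.Pairwise (· < ·) →
    (pairsOr mf cond l).testBit z = true → ∃ a ∈ l, ∃ b ∈ l, a < b ∧ cond a b = true ∧ (mf a).testBit z = true ∧ (mf b).testBit z = true := by
  intro l
  induction l with
  | nil => intro _ h; have h2 : (0 : ℕ).testBit z = true := h; simp at h2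
  | cons a t ih =>
    intro hp h
    rw [List.pairwise_cons] at hp
    have e : pairsOr mf cond (a :: t) = (@Bool.rec (fun _ => Nat) (Nat.lor (orL t (fun b => sel (cond a b) (Nat.land (mf a) (mf b)) 0))
      (pairsOr mf cond t)) (pairsOr mf cond t) (Nat.beq (mf a) 0)) := rfl
    rw [e] at h
    have ih' : (pairsOr mf cond t).testBit z = true → ∃ a_1 ∈ a :: t, ∃ b ∈ a :: t, a_1 < b ∧ cond a_1 b = true ∧ (mf a_1).testBit z = true ∧ (mf b).testBit z = true := by
      intro h
      obtain ⟨u, hu, v, hv, h1⟩ := ih hp.2 h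
      exact ⟨u, by simp [hu], v, by simp [hv], h1⟩
    cases hb : Nat.beq (mf a) 0
    · rw [hb] at h
      have h2 : (Nat.lor (orL t (fun b => sel (cond a b) (Nat.land (mf a) (mf b)) 0)) (pairsOr mf cond t)).testBit z = true := h
      rw [t_lor, Bool.or_eq_true, t_orL] at h2
      rcases h2 with ⟨b, hb, h3⟩ | h3
      · rw [t_sel] at h3
        by_cases hc : cond a b = true
        · rw [if_pos hc, t_land, Bool.and_eq_true] at h3
          exact ⟨a, by simp, b, by simp [hb], hp.1 b hb, hc, h3.1, h3.2⟩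
        · rw [if_neg hc] at h3; simp at h3
      · exact ih' h3
    · rw [hb] at h; exact ih' h

theorem deadC_sound (S : Sys W X D) (hm : ∀ z, m.testBit z = true ↔ D 15 z) {mf : ℕ → ℕ}
    (hmf : ∀ a, 0 < a → a < 16 → ∀ z, (mf a).testBit z = true → D a z) {c : ℕ} (hc : 0 < c) (hc' : c < 16)
    (h : deadC mf (mkLeaf W X m) c = true) : False := by
  unfold deadC at h
  have hidx : ∀ a ∈ idx15, 0 < a ∧ a < 16 := by decide
  have hpw : idx15.Pairwise (· < ·) := by decide
  cases hcA : candA (mkLeaf W X m) c with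
  | none =>
    rw [hcA] at h
    have h2 : false = true := h
    exact absurd h2 (by decide)
  | some l =>
    rw [hcA] at h
    obtain ⟨q, hq, H⟩ := candA_sound S hm hc hc' hcA
    have h2 : allL l (fun m => bor (bnot (Nat.beq (Nat.land (fC mf c) m) (fC mf c))) (bnot (Nat.beq (Nat.land (gC mf c) m) 0))) = true := h
    rw [allL_iff] at h2
    have h3 := h2 q hq
    rw [bor_eq, bnot_eq, bnot_eq, beq_eq, beq_eq] at h3
    have hf : Nat.land (fC mf c) q = fC mf c := by
      apply Nat.eq_of_testBit_eq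
      intro z
      rw [t_land]
      cases hz : (fC mf c).testBit z
      · rfl
      · obtain ⟨a, ha, b, hb, hab, hcond, h1, h2⟩ := pairsOr_sound idx15 hpw hz
        rw [beq_eq] at hcond
        have hcond : Nat.xor a b = c := by simpa using hcond
        have ha := hidx a ha
        have hb := hidx b hb
        have := S.add a b z ha.1 ha.2 hb.1 hb.2 (by omega) (hmf a ha.1 ha.2 z h1) (hmf b hb.1 hb.2 z h2)
        have e : a ^^^ b = c := hcond
        rw [e] at this
        rw [(H z).mpr this]; rfl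
    have hg : Nat.land (gC mf c) q = 0 := by
      apply Nat.eq_of_testBit_eq
      intro z
      rw [t_land, Nat.zero_testBit]
      cases hz : (gC mf c).testBit z
      · rfl
      · cases hz2 : q.testBit z
        · rfl
        · exfalso
          obtain ⟨a, ha, b, hb, hab, hcond, h1, h2⟩ := pairsOr_sound idx15 hpw hz
          simp only [band_eq, bnot_eq, beq_eq, Bool.and_eq_true, Bool.not_eq_true', decide_eq_false_iff_not] at hcond
          have ha := hidx a ha
          have hb := hidx b hb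
          refine S.small a b c z ha.1 ha.2 hb.1 hb.2 hc hc' (by omega) (fun h => hcond.1 h.symm) (fun h => hcond.2.1 h.symm)
            (fun h => hcond.2.2 h.symm) (hmf a ha.1 ha.2 z h1) (hmf b hb.1 hb.2 z h2) ((H z).mp hz2)
    rw [hf, hg] at h3
    simp at h3

theorem leafDead_sound (S : Sys W X D) (hm : ∀ z, m.testBit z = true ↔ D 15 z) (h : leafDead (mkLeaf W X m) = true) : False := by
  unfold leafDead at h
  rw [bor_eq, Bool.or_eq_true, anyL_iff, anyL_iff] at h
  rcases h with ⟨c, hc, h⟩ | ⟨c, hc, h⟩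
  · have h3 : ∀ c ∈ [13,7,11,14,4,3,5,6,9,10,12,15], 0 < c ∧ c < 16 := by decide
    exact deadC_sound S hm (fun a ha ha' z hz => must0_sound S hm ha ha' hz) (h3 c hc).1 (h3 c hc).2 h
  · have h3 : ∀ c ∈ [7,11,4,3,13,5,14,15], 0 < c ∧ c < 16 := by decide
    exact deadC_sound S hm (fun a ha ha' z hz => must1_sound S hm ha ha' hz) (h3 c hc).1 (h3 c hc).2 h

theorem leaf_sound (S : Sys W X D) {y0 y1 y2 : ℕ} (T : Top D y0 y1 y2)
    (h : leaf y0 y1 y2 (W 0) (W 1) (W 2) (W 3) (X 0) (X 1) (X 2) (X 3) = true) : False := by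
  unfold leaf at h
  have hl : ∀ k < 4, Nat.xor (W k) (X k) < 64 := fun k hk => Sys.xor_lt (S.W_lt k hk) (S.X_lt k hk)
  rw [lit64_eq (hl 0 (by norm_num)), lit64_eq (hl 1 (by norm_num)), lit64_eq (hl 2 (by norm_num)), lit64_eq (hl 3 (by norm_num))] at h
  refine leafDead_sound S (m := Nat.lor (Nat.pow 2 y0) (Nat.lor (Nat.pow 2 y1) (Nat.pow 2 y2))) ?_ h
  intro z
  have e : ∀ n, Nat.pow 2 n = 2 ^ n := fun _ => rfl
  rw [t_lor, t_lor, e, e, e, Nat.testBit_two_pow, Nat.testBit_two_pow, Nat.testBit_two_pow, T.h z]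
  simp only [Bool.or_eq_true, decide_eq_true_eq]
  rw [eq_comm, @eq_comm _ y1, @eq_comm _ y2]

end

end CDM
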