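import Pool.Agent.Helper83.CDM.Sys

/-! Soundness of the leaf check. -/
namespace CDM

theorem t_Zt {w y : ℕ} (hw : w < 64) (hy : y < 64) : (Zt w).testBit y = !dotB w y := by
  have h : ∀ w < 64, ∀ y < 64, tb (Zt w) y = !dot w y := by decide +kernel
  have := h w hw y hy
  rwa [tb_eq, dot_eq hw] at this

theorem t_Nt {w y : ℕ} (hw : w < 64) (hy : y < 64) (h : w &&& y = 0) : (Nt w).testBit y = true := by
  have h' : ∀ w < 64, ∀ y < 64, tb (Nt w) y = Nat.beq (Nat.land w y) 0 := by decide +kernel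
  have := h' w hw y hy
  rw [tb_eq, beq_eq] at this
  rw [this]
  exact decide_eq_true h

theorem t_F63 {y : ℕ} (hy : 0 < y) (hy' : y < 64) : F63.testBit y = true := by
  have h : ∀ y < 64, 0 < y → tb F63 y = true := by decide +kernel
  have := h y hy' hy
  rwa [tb_eq] at this

theorem t_emask {s s0 s1 a y : ℕ} {W : ℕ → ℕ} (hs : s < 64) (hs0 : s0 < 64) (hs1 : s1 < 64) (hW : ∀ k < 4, W k < 64)
    (hy : 0 < y) (hy' : y < 64) (h : s &&& y = 0) (h0 : dotB s0 y = false) (h1 : dotB s1 y = false)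
    (h2 : ∀ k < 4, a.testBit k = true → dotB (W k) y = false) :
    (emask s s0 s1 (rx a (W 0) (W 1) (W 2) (W 3))).testBit y = true := by
  unfold emask Z2 ZR
  simp only [t_land, Bool.and_eq_true]
  refine ⟨t_Nt hs hy' h, ⟨t_F63 hy hy', ?_, ?_⟩, ?_⟩
  · rw [t_Zt hs0 hy', h0]; rfl
  · rw [t_Zt hs1 hy', h1]; rfl
  · apply andR_rx (t_F63 hy hy')
    intro k hk hak
    show (Zt (W k)).testBit y = true
    rw [t_Zt (hW k hk) hy', h2 k hk hak]; rfl

theorem sgl_sound {t z z' : ℕ} (h : (sgl t).testBit z = true) (h' : t.testBit z' = true) : z' = z := by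
  unfold sgl at h
  rw [beq_eq] at h
  by_cases h0 : Nat.land t (Nat.sub t 1) = 0
  · have hz : t.testBit z = true := by rw [h0] at h; simpa using h
    have key : ∀ u v, u < v → t.testBit u = true → t.testBit v = true → False := by
      intro u v huv hu hv
      have h1 : (t - 1) / 2 ^ v = t / 2 ^ v := by
        have hm : t % 2 ^ v ≠ 0 := by
          intro hm
          have := Nat.testBit_mod_two_pow t v u
          rw [hm] at this
          simp [huv, hu] at this
        have hp : 0 < 2 ^ v := by positivity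
        have hd := Nat.div_add_mod t (2 ^ v)
        have hr := Nat.mod_lt t hp
        apply Nat.div_eq_of_lt_le
        · rw [Nat.mul_comm]; omega
        · rw [Nat.add_mul, Nat.mul_comm]; omega
      have h2 : (t - 1).testBit v = true := by
        rw [Nat.testBit_eq_decide_div_mod_eq] at hv ⊢
        rw [h1]; exact hv
      have h3 := congrArg (fun x => Nat.testBit x v) h0
      simp only [t_land, Nat.zero_testBit, hv, Bool.true_and] at h3
      have e : Nat.sub t 1 = t - 1 := rfl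
      rw [e, h2] at h3
      exact absurd h3 (by decide)
    rcases lt_trichotomy z z' with h1 | h1 | h1
    · exact (key _ _ h1 hz h').elim
    · exact h1.symm
    · exact (key _ _ h1 h' hz).elim
  · rw [decide_eq_false h0] at h
    simp at h

theorem loopT_sound {f : ℕ → Bool} : ∀ (n T b i : ℕ), loopT f n T b = true → i < 2 ^ n → T.testBit i = true → f (b + i) = true := by
  intro n
  induction n with
  | zero =>
    intro T b i h hi hT
    have hi : i = 0 := by simpa using hi
    subst hi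
    have e : loopT f 0 T b = (@Bool.rec (fun _ => Bool) (f b) true (Nat.beq T 0)) := rfl
    rw [e, beq_eq] at h
    have hT0 : T ≠ 0 := by rintro rfl; simp at hT
    simpa [hT0] using h
  | succ n ih =>
    intro T b i h hi hT
    have e : loopT f (n + 1) T b = (@Bool.rec (fun _ => Bool) (band (loopT f n (lowH n T) b) (loopT f n (highH n T) (b + 2 ^ n))) true (Nat.beq T 0)) := rfl
    rw [e, beq_eq] at h
    have hT0 : T ≠ 0 := by rintro rfl; simp at hT
    simp only [hT0, decide_false, band_eq, Bool.and_eq_true] at h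
    by_cases h1 : i < 2 ^ n
    · refine ih _ _ _ h.1 h1 ?_
      have e : lowH n T = Nat.land T (2 ^ 2 ^ n - 1) := rfl
      rw [e, t_land, hT, Nat.testBit_two_pow_sub_one]; simpa using h1
    · have := ih (highH n T) (b + 2 ^ n) (i - 2 ^ n) h.2 (by rw [pow_succ] at hi; omega) ?_
      · rwa [show b + 2 ^ n + (i - 2 ^ n) = b + i by omega] at this
      · have e : highH n T = T >>> (2 ^ n) := rfl
        rw [e, Nat.testBit_shiftRight, show 2 ^ n + (i - 2 ^ n) = i by omega]; exact hT

theorem bitsT_sound : ∀ (n T b : ℕ) (acc : List ℕ), (∀ z ∈ acc, z ∈ bitsT n T b acc) ∧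
    ∀ i, i < 2 ^ n → T.testBit i = true → (b + i) ∈ bitsT n T b acc := by
  intro n
  induction n with
  | zero =>
    intro T b acc
    have e : bitsT 0 T b acc = consB (bnot (Nat.beq T 0)) b acc := rfl
    rw [e]
    constructor
    · intro z hz; rw [mem_consB]; exact Or.inr hz
    · intro i hi hT
      have hi : i = 0 := by simpa using hi
      subst hi
      rw [mem_consB]
      left
      have hT0 : T ≠ 0 := by rintro rfl; simp at hT
      rw [beq_eq]; simp [hT0]
  | succ n ih =>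
    intro T b acc
    have e : bitsT (n + 1) T b acc = (@Bool.rec (fun _ => List ℕ) (bitsT n (lowH n T) b (bitsT n (highH n T) (b + 2 ^ n) acc)) acc (Nat.beq T 0)) := rfl
    rw [e, beq_eq]
    by_cases hT0 : T = 0
    · subst hT0
      constructor
      · intro z hz; simpa using hz
      · intro i _ hT; simp at hT
    · simp only [hT0, decide_false]
      have A := ih (lowH n T) b (bitsT n (highH n T) (b + 2 ^ n) acc)
      have B := ih (highH n T) (b + 2 ^ n) acc
      constructor
      · intro z hz; exact A.1 z (B.1 z hz)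
      · intro i hi hT
        by_cases h1 : i < 2 ^ n
        · apply A.2 i h1
          have e : lowH n T = Nat.land T (2 ^ 2 ^ n - 1) := rfl
          rw [e, t_land, hT, Nat.testBit_two_pow_sub_one]; simpa using h1
        · apply A.1
          have := B.2 (i - 2 ^ n) (by rw [pow_succ] at hi; omega) ?_
          · rwa [show b + 2 ^ n + (i - 2 ^ n) = b + i by omega] at this
          · have e : highH n T = T >>> (2 ^ n) := rfl
            rw [e, Nat.testBit_shiftRight, show 2 ^ n + (i - 2 ^ n) = i by omega]; exact hT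

/-- list of pairs as in candE, over an arbitrary list -/
noncomputable def candE' (e0 e1 e2 u e : ℕ) (acc : List ℕ) (l : List ℕ) : List ℕ :=
  @List.rec Nat (fun _ => List Nat) acc (fun v _ ih =>
    @Bool.rec (fun _ => List Nat) ih
     ((fun m => consB (band (bnot (Nat.beq (Nat.land e0 m) 0)) (band (bnot (Nat.beq (Nat.land e1 m) 0)) (bnot (Nat.beq (Nat.land e2 m) 0)))) m ih)
       (Nat.lor (Nat.pow 2 e) (Nat.lor (Nat.pow 2 v) (Nat.pow 2 (Nat.xor e v)))))
     (band (bnot (Nat.beq e v)) (tb u (Nat.xor e v)))) l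

theorem candE'_acc (e0 e1 e2 u e : ℕ) (acc l : List ℕ) : ∀ m ∈ acc, m ∈ candE' e0 e1 e2 u e acc l := by
  induction l with
  | nil => intro m hm; exact hm
  | cons v l ih =>
    intro m hm
    show m ∈ (@Bool.rec (fun _ => List Nat) (candE' e0 e1 e2 u e acc l)
     ((fun m => consB (band (bnot (Nat.beq (Nat.land e0 m) 0)) (band (bnot (Nat.beq (Nat.land e1 m) 0)) (bnot (Nat.beq (Nat.land e2 m) 0)))) m (candE' e0 e1 e2 u e acc l))
       (Nat.lor (Nat.pow 2 e) (Nat.lor (Nat.pow 2 v) (Nat.pow 2 (Nat.xor e v)))))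
     (band (bnot (Nat.beq e v)) (tb u (Nat.xor e v))))
    cases (band (bnot (Nat.beq e v)) (tb u (Nat.xor e v)))
    · exact ih m hm
    · show m ∈ consB _ _ _
      rw [mem_consB]; exact Or.inr (ih m hm)

theorem candE'_mem {e0 e1 e2 u e : ℕ} {acc l : List ℕ} {v : ℕ} (hv : v ∈ l) (hne : e ≠ v) (hu : u.testBit (e ^^^ v) = true)
    (h0 : e0 &&& (2 ^ e ||| (2 ^ v ||| 2 ^ (e ^^^ v))) ≠ 0) (h1 : e1 &&& (2 ^ e ||| (2 ^ v ||| 2 ^ (e ^^^ v))) ≠ 0)
    (h2 : e2 &&& (2 ^ e ||| (2 ^ v ||| 2 ^ (e ^^^ v))) ≠ 0) :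
    (2 ^ e ||| (2 ^ v ||| 2 ^ (e ^^^ v))) ∈ candE' e0 e1 e2 u e acc l := by
  induction l with
  | nil => simp at hv
  | cons w l ih =>
    show _ ∈ (@Bool.rec (fun _ => List Nat) (candE' e0 e1 e2 u e acc l)
     ((fun m => consB (band (bnot (Nat.beq (Nat.land e0 m) 0)) (band (bnot (Nat.beq (Nat.land e1 m) 0)) (bnot (Nat.beq (Nat.land e2 m) 0)))) m (candE' e0 e1 e2 u e acc l))
       (Nat.lor (Nat.pow 2 e) (Nat.lor (Nat.pow 2 w) (Nat.pow 2 (Nat.xor e w)))))
     (band (bnot (Nat.beq e w)) (tb u (Nat.xor e w))))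
    rw [List.mem_cons] at hv
    rcases hv with rfl | hv
    · have hb : (band (bnot (Nat.beq e v)) (tb u (Nat.xor e v))) = true := by
        rw [beq_eq, tb_eq]
        simp [hne, hu]
      rw [hb]
      show _ ∈ consB _ _ _
      rw [mem_consB]
      left
      refine ⟨?_, rfl⟩
      rw [beq_eq, beq_eq, beq_eq]
      have g0 : ¬ (Nat.land e0 (Nat.lor (Nat.pow 2 e) (Nat.lor (Nat.pow 2 v) (Nat.pow 2 (Nat.xor e v)))) = 0) := h0
      have g1 : ¬ (Nat.land e1 (Nat.lor (Nat.pow 2 e) (Nat.lor (Nat.pow 2 v) (Nat.pow 2 (Nat.xor e v)))) = 0) := h1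
      have g2 : ¬ (Nat.land e2 (Nat.lor (Nat.pow 2 e) (Nat.lor (Nat.pow 2 v) (Nat.pow 2 (Nat.xor e v)))) = 0) := h2
      simp only [g0, g1, g2, decide_false]; rfl
    · have := ih hv
      cases (band (bnot (Nat.beq e w)) (tb u (Nat.xor e w)))
      · exact this
      · show _ ∈ consB _ _ _
        rw [mem_consB]; exact Or.inr this

theorem candF_sound {e0 e1 e2 u : ℕ} {P : ℕ → Prop} {e v : ℕ} (hP : ∀ z, P z ↔ (z = e ∨ z = v ∨ z = e ^^^ v))
    (hne : e ≠ v) (hv : v < 64)
    (h0 : ∃ y, P y ∧ e0.testBit y = true) (h1 : ∃ y, P y ∧ e1.testBit y = true) (h2 : ∃ y, P y ∧ e2.testBit y = true)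
    (hu : ∀ y, P y → u.testBit y = true) {es : List ℕ} (hes : e ∈ es) :
    ∃ m ∈ candF e0 e1 e2 u es, ∀ z, m.testBit z = true ↔ P z := by
  have hm : ∀ z, (2 ^ e ||| (2 ^ v ||| 2 ^ (e ^^^ v))).testBit z = true ↔ P z := by
    intro z
    rw [hP z, Nat.testBit_or, Nat.testBit_or, Nat.testBit_two_pow, Nat.testBit_two_pow, Nat.testBit_two_pow]
    simp only [Bool.or_eq_true, decide_eq_true_eq]
    constructor
    · rintro (h | h | h) <;> subst h <;> simp
    · rintro (h | h | h) <;> subst h <;> simp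
  have key : ∀ x : ℕ, (∃ y, P y ∧ x.testBit y = true) → x &&& (2 ^ e ||| (2 ^ v ||| 2 ^ (e ^^^ v))) ≠ 0 := by
    rintro x ⟨y, hy, hx⟩ h
    have := congrArg (fun z => Nat.testBit z y) h
    simp only [Nat.testBit_and, Nat.zero_testBit, hx, (hm y).mpr hy] at this
    exact absurd this (by decide)
  refine ⟨_, ?_, hm⟩
  induction es with
  | nil => simp at hes
  | cons w es ih =>
    show _ ∈ candE' e0 e1 e2 u w (candF e0 e1 e2 u es) (bitsT 6 u 0 [])
    rw [List.mem_cons] at hes
    rcases hes with rfl | hes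
    · apply candE'_mem _ hne (hu _ ((hP _).mpr (Or.inr (Or.inr rfl)))) (key _ h0) (key _ h1) (key _ h2)
      have := (bitsT_sound 6 u 0 []).2 v (by simpa using hv) (hu _ ((hP _).mpr (Or.inr (Or.inl rfl))))
      simpa using this
    · exact candE'_acc _ _ _ _ _ _ _ _ (ih hes)

theorem cands_sound {e0 e1 e2 : ℕ} {P : ℕ → Prop} {p q : ℕ} (hP : ∀ z, P z ↔ (z = p ∨ z = q ∨ z = p ^^^ q))
    (hpq : p ≠ q) (hp : p < 64) (hq0 : 0 < q) (hq : q < 64)
    (h0 : ∃ y, P y ∧ e0.testBit y = true) (h1 : ∃ y, P y ∧ e1.testBit y = true) (h2 : ∃ y, P y ∧ e2.testBit y = true)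
    (hu : ∀ y, P y → e0.testBit y = true ∨ e1.testBit y = true ∨ e2.testBit y = true) {l : List ℕ}
    (h : cands e0 e1 e2 = some l) : ∃ m ∈ l, ∀ z, m.testBit z = true ↔ P z := by
  have hu' : ∀ y, P y → (Nat.lor e0 (Nat.lor e1 e2)).testBit y = true := by
    intro y hy
    rw [t_lor, t_lor]
    rcases hu y hy with h | h | h <;> simp [h]
  have key : ∀ e, P e → ∀ es : List ℕ, e ∈ es → ∃ m ∈ candF e0 e1 e2 (Nat.lor e0 (Nat.lor e1 e2)) es, ∀ z, m.testBit z = true ↔ P z := by
    intro e he es hes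
    obtain ⟨v, hv, hne, hlt⟩ : ∃ v, (∀ z, P z ↔ (z = e ∨ z = v ∨ z = e ^^^ v)) ∧ e ≠ v ∧ v < 64 := by
      rcases (hP e).mp he with rfl | rfl | rfl
      · exact ⟨q, hP, hpq, hq⟩
      · refine ⟨p, ?_, Ne.symm hpq, hp⟩
        intro z; rw [hP z, Nat.xor_comm p]; tauto
      · refine ⟨p, ?_, ?_, hp⟩
        · intro z; rw [hP z, Sys.xor_self_xor]; tauto
        · intro h
          have h3 := Sys.xor_xor_self' p q
          rw [h, Nat.xor_self] at h3
          omega
    exact candF_sound hv hne hlt h0 h1 h2 hu' hes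
  have hlt : ∀ y, P y → y < 64 := by
    intro y hy
    rcases (hP y).mp hy with rfl | rfl | rfl
    · exact hp
    · exact hq
    · exact Sys.xor_lt hp hq
  have kk : ∀ x : ℕ, (∃ y, P y ∧ x.testBit y = true) → ∃ m ∈ candF e0 e1 e2 (Nat.lor e0 (Nat.lor e1 e2)) (bitsT 6 x 0 []),
      ∀ z, m.testBit z = true ↔ P z := by
    rintro x ⟨y, hy, hx⟩
    apply key y hy
    have := (bitsT_sound 6 x 0 []).2 y (by simpa using hlt y hy) hx
    simpa using this
  unfold cands at h
  revert h
  cases le3 e0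
  · cases le3 e1
    · cases le3 e2
      · intro h; exact absurd h (by simp)
      · intro h; rw [← Option.some.inj h]; exact kk e2 h2
    · intro h; rw [← Option.some.inj h]; exact kk e1 h1
  · intro h; rw [← Option.some.inj h]; exact kk e0 h0

end CDM
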