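import Pool.Agent.Helper83.CDM.Tab

/-! Semantics of the tables of a configuration. -/
namespace CDM

theorem t_sel' (b : Bool) (x y i : ℕ) : Nat.testBit (sel b x y) i = ((b && x.testBit i) ^^ (!b && y.testBit i)) := by
  cases b <;> simp [sel]

theorem t_X {c : Cfg} {k j i : ℕ} (hk : k < 4) (hi : i < 65536) :
    (X c k j).testBit i = (rowOf c k i).testBit j := by
  have e : ∀ l, Nat.add (Nat.mul 4 k) l = 4 * k + l := fun _ => rfl
  unfold X rowOf
  simp only [xorL_cons, xorL_nil, t_xor, t_sel', tb_eq, e, t_full hi, Nat.zero_testBit, Bool.and_false, Bool.xor_false,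
    Bool.and_true]
  rw [t_V (by omega) hi, t_V (by omega) hi, t_V (by omega) hi, t_V (by omega) hi]
  simp only [Bool.and_comm]

theorem t_NX {c : Cfg} {k j i : ℕ} (hk : k < 4) (hi : i < 65536) :
    (NX c k j).testBit i = !(rowOf c k i).testBit j := by
  unfold NX
  rw [t_xor, t_full hi, t_X hk hi]; simp

theorem t_XY {c : Cfg} {k y i : ℕ} (hk : k < 4) (hi : i < 65536) :
    (XY c k y).testBit i = dotB (rowOf c k i) y := by
  unfold XY bits6
  simp only [t_consB_xorL, xorL_nil, t_X hk hi, tb_eq, Nat.zero_testBit, Bool.xor_false, dotB, Bool.and_comm]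

theorem t_NXY {c : Cfg} {k y i : ℕ} (hk : k < 4) (hi : i < 65536) :
    (NXY c k y).testBit i = !dotB (rowOf c k i) y := by
  unfold NXY
  rw [t_xor, t_full hi, t_XY hk hi]; simp

theorem t_SA {c : Cfg} {a j i : ℕ} (hi : i < 65536) :
    (SA c a j).testBit i = (PW (fun k => rowOf c k i) a).testBit j := by
  unfold SA bits4
  rw [t_PW]
  simp only [t_consB_xorL, xorL_nil, t_X (show 0 < 4 by norm_num) hi, t_X (show 1 < 4 by norm_num) hi,
    t_X (show 2 < 4 by norm_num) hi, t_X (show 3 < 4 by norm_num) hi, tb_eq, Nat.zero_testBit, Bool.xor_false]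

theorem t_NSA {c : Cfg} {a j i : ℕ} (hi : i < 65536) :
    (NSA c a j).testBit i = !(PW (fun k => rowOf c k i) a).testBit j := by
  unfold NSA
  rw [t_xor, t_full hi, t_SA hi]; simp

theorem t_NSY {c : Cfg} {a y i : ℕ} (hi : i < 65536) :
    (NSY c a y).testBit i = !dotB (PW (fun k => rowOf c k i) a) y := by
  unfold NSY bits4
  rw [dotB_PW]
  simp only [t_consB_xorL, xorL_nil, t_XY (show 0 < 4 by norm_num) hi, t_XY (show 1 < 4 by norm_num) hi,
    t_XY (show 2 < 4 by norm_num) hi, t_XY (show 3 < 4 by norm_num) hi, tb_eq, t_full hi]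
  simp only [Bool.xor_true, Bool.not_xor, Bool.xor_not]

/-- the submatrix (a, y) of W is even -/
structure Ev (W : ℕ → ℕ) (a y : ℕ) : Prop where
  z : PW W a &&& y = 0
  d : ∀ k < 4, a.testBit k = true → dotB (W k) y = false

theorem Ev.dot {W : ℕ → ℕ} {a y : ℕ} (h : Ev W a y) : dotB (PW W a) y = false := by
  rw [dotB_PW]
  have := h.d
  have key : ∀ k < 4, (a.testBit k && dotB (W k) y) = false := by
    intro k hk
    cases h' : a.testBit k
    · rfl
    · simp [this k hk h']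
  rw [key 0 (by norm_num), key 1 (by norm_num), key 2 (by norm_num), key 3 (by norm_num)]; rfl

/-- the second level matrices -/
def mat (W X : ℕ → ℕ) : ℕ → ℕ → ℕ
  | 0 => W
  | 1 => X
  | _ => fun k => W k ^^^ X k

theorem PW_xor (W X : ℕ → ℕ) (a : ℕ) : PW (fun k => W k ^^^ X k) a = PW W a ^^^ PW X a := by
  apply Nat.eq_of_testBit_eq
  intro j
  simp only [t_PW, Nat.testBit_xor]
  cases a.testBit 0 <;> cases a.testBit 1 <;> cases a.testBit 2 <;> cases a.testBit 3 <;> simp <;>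
    simp only [Bool.xor_comm, Bool.xor_left_comm]

/-- the condition E_l(a,y) -/
structure En (W X : ℕ → ℕ) (l a y : ℕ) : Prop where
  ev : Ev (mat W X l) a y
  d0 : dotB (PW W a) y = false
  d1 : dotB (PW X a) y = false

theorem tb_false_of_and {u y j : ℕ} (h : u &&& y = 0) (hj : y.testBit j = true) : u.testBit j = false := by
  have := congrArg (fun z => z.testBit j) h
  simp only [Nat.testBit_and, hj, Bool.and_true, Nat.zero_testBit] at this
  exact this

theorem allR_rx {a : ℕ} {W : ℕ → ℕ} {f : ℕ → Bool} (h : ∀ k < 4, a.testBit k = true → f (W k) = true) :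
    allR (rx a (W 0) (W 1) (W 2) (W 3)) f = true := by
  have h0 := h 0 (by norm_num)
  have h1 := h 1 (by norm_num)
  have h2 := h 2 (by norm_num)
  have h3 := h 3 (by norm_num)
  clear h
  unfold rx
  rw [tb_eq, tb_eq, tb_eq, tb_eq]
  revert h0 h1 h2 h3
  cases a.testBit 0 <;> cases a.testBit 1 <;> cases a.testBit 2 <;> cases a.testBit 3 <;>
    simp_all [allR]

theorem andR_rx {a i x : ℕ} {W : ℕ → ℕ} {f : ℕ → ℕ → ℕ} (hx : x.testBit i = true)
    (h : ∀ k < 4, a.testBit k = true → (f k (W k)).testBit i = true) :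
    (andR x (rx a (W 0) (W 1) (W 2) (W 3)) f).testBit i = true := by
  have h0 := h 0 (by norm_num)
  have h1 := h 1 (by norm_num)
  have h2 := h 2 (by norm_num)
  have h3 := h 3 (by norm_num)
  clear h
  unfold rx
  rw [tb_eq, tb_eq, tb_eq, tb_eq]
  revert h0 h1 h2 h3
  cases a.testBit 0 <;> cases a.testBit 1 <;> cases a.testBit 2 <;> cases a.testBit 3 <;>
    simp_all [andR]

section
variable {c : Cfg} {W R : ℕ → ℕ} {i a y : ℕ}

theorem PW_congr {W W' : ℕ → ℕ} (h : ∀ k < 4, W k = W' k) (a : ℕ) : PW W a = PW W' a := by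
  unfold PW; rw [h 0 (by norm_num), h 1 (by norm_num), h 2 (by norm_num), h 3 (by norm_num)]

theorem t_E1c (hi : i < 65536) (hR : ∀ k < 4, rowOf c k i = R k) (h : Ev R a y) :
    (E1c c a y).testBit i = true := by
  unfold E1c
  rw [t_andL]
  refine ⟨?_, ?_⟩
  · rw [t_andL]
    refine ⟨t_full hi, ?_⟩
    intro j hj
    rw [mem_bits6] at hj
    rw [t_NSA hi, PW_congr (W' := R) hR, tb_false_of_and h.z hj.2]; rfl
  · intro k hk
    rw [mem_bits4] at hk
    rw [t_NXY hk.1 hi, hR k hk.1, h.d k hk.1 hk.2]; rfl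

theorem t_E0 (hW : ∀ k < 4, W k < 64) (hi : i < 65536) (hR : ∀ k < 4, rowOf c k i = R k) (h : En W R 0 a y) :
    (E0 c a (PW W a) (rx a (W 0) (W 1) (W 2) (W 3)) y).testBit i = true := by
  unfold E0
  have hev : Ev W a y := h.ev
  have h1 : Nat.beq (Nat.land (PW W a) y) 0 = true := by
    rw [beq_eq]; simpa using hev.z
  rw [h1, sel_true, allR_rx, sel_true, t_NSY hi, PW_congr (W' := R) hR, h.d1]
  · rfl
  · intro k hk hak
    rw [bnot_eq, dot_eq (hW k hk), hev.d k hk hak]; rfl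

theorem t_E1 (hW : ∀ k < 4, W k < 64) (hi : i < 65536) (hR : ∀ k < 4, rowOf c k i = R k) (h : En W R 1 a y) :
    (E1 c a (PW W a) y).testBit i = true := by
  unfold E1
  rw [dot_eq (PW_lt hW a), h.d0, sel_false]
  exact t_E1c hi hR h.ev

theorem t_E2 (hW : ∀ k < 4, W k < 64) (hi : i < 65536) (hR : ∀ k < 4, rowOf c k i = R k) (h : En W R 2 a y) :
    (E2 c a (PW W a) (rx a (W 0) (W 1) (W 2) (W 3)) y).testBit i = true := by
  unfold E2
  rw [dot_eq (PW_lt hW a), h.d0, sel_false]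
  have hz : (PW W a ^^^ PW R a) &&& y = 0 := by
    have := h.ev.z
    rw [← PW_xor]; exact this
  apply andR_rx
  · rw [t_andL]
    refine ⟨t_full hi, ?_⟩
    intro j hj
    rw [mem_bits6] at hj
    have h1 := tb_false_of_and hz hj.2
    rw [Nat.testBit_xor] at h1
    rw [tb_eq, t_sel, t_SA hi, t_NSA hi, PW_congr (W' := R) hR]
    revert h1
    cases (PW W a).testBit j <;> cases (PW R a).testBit j <;> simp
  · intro k hk hak
    have h1 := h.ev.d k hk hak
    have h2 : dotB (W k ^^^ R k) y = false := h1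
    rw [dotB_xor] at h2
    rw [dot_eq (hW k hk), t_sel, t_XY hk hi, t_NXY hk hi, hR k hk]
    revert h2
    cases dotB (W k) y <;> cases dotB (R k) y <;> simp

theorem t_gN {ys : List ℕ} (hW : ∀ k < 4, W k < 64) (hi : i < 65536) (hR : ∀ k < 4, rowOf c k i = R k)
    (h : ∀ l < 3, ∃ y ∈ ys, En W R l a y) :
    (gN c ys a (PW W a) (rx a (W 0) (W 1) (W 2) (W 3))).testBit i = true := by
  unfold gN R0 R1 R2
  rw [t_sand, t_sand, Bool.and_eq_true, Bool.and_eq_true, t_orL, t_orL, t_orL]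
  refine ⟨?_, ?_, ?_⟩
  · obtain ⟨y, hy, h⟩ := h 0 (by norm_num); exact ⟨y, hy, t_E0 hW hi hR h⟩
  · obtain ⟨y, hy, h⟩ := h 1 (by norm_num); exact ⟨y, hy, t_E1 hW hi hR h⟩
  · obtain ⟨y, hy, h⟩ := h 2 (by norm_num); exact ⟨y, hy, t_E2 hW hi hR h⟩

theorem t_gQ {ys : List ℕ} {yq : ℕ} (hW : ∀ k < 4, W k < 64) (hi : i < 65536) (hR : ∀ k < 4, rowOf c k i = R k)
    (h : ∀ l < 3, (∃ y ∈ ys, En W R l a y) ∨ En W R l a yq) :
    (gQ c ys yq a (PW W a) (rx a (W 0) (W 1) (W 2) (W 3))).testBit i = true := by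
  unfold gQ R0 R1 R2
  rw [t_sand, t_sand, Bool.and_eq_true, Bool.and_eq_true, t_lor, t_lor, t_lor, Bool.or_eq_true, Bool.or_eq_true,
    Bool.or_eq_true, t_orL, t_orL, t_orL]
  refine ⟨?_, ?_, ?_⟩
  · rcases h 0 (by norm_num) with ⟨y, hy, h⟩ | h
    · exact Or.inl ⟨y, hy, t_E0 hW hi hR h⟩
    · exact Or.inr (t_E0 hW hi hR h)
  · rcases h 1 (by norm_num) with ⟨y, hy, h⟩ | h
    · exact Or.inl ⟨y, hy, t_E1 hW hi hR h⟩
    · exact Or.inr (t_E1 hW hi hR h)
  · rcases h 2 (by norm_num) with ⟨y, hy, h⟩ | h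
    · exact Or.inl ⟨y, hy, t_E2 hW hi hR h⟩
    · exact Or.inr (t_E2 hW hi hR h)

theorem t_gA {y0 y1 y2 : ℕ} (hW : ∀ k < 4, W k < 64) (hi : i < 65536) (hR : ∀ k < 4, rowOf c k i = R k)
    (h : ∀ l < 3, En W R l a y0 ∨ En W R l a y1 ∨ En W R l a y2) :
    (gA c y0 y1 y2 a (PW W a) (rx a (W 0) (W 1) (W 2) (W 3))).testBit i = true := by
  unfold gA
  simp only [t_sand, t_lor, Bool.and_eq_true, Bool.or_eq_true]
  refine ⟨?_, ?_, ?_⟩
  · rcases h 0 (by norm_num) with h | h | h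
    · exact Or.inl (t_E0 hW hi hR h)
    · exact Or.inr (Or.inl (t_E0 hW hi hR h))
    · exact Or.inr (Or.inr (t_E0 hW hi hR h))
  · rcases h 1 (by norm_num) with h | h | h
    · exact Or.inl (t_E1 hW hi hR h)
    · exact Or.inr (Or.inl (t_E1 hW hi hR h))
    · exact Or.inr (Or.inr (t_E1 hW hi hR h))
  · rcases h 2 (by norm_num) with h | h | h
    · exact Or.inl (t_E2 hW hi hR h)
    · exact Or.inr (Or.inl (t_E2 hW hi hR h))
    · exact Or.inr (Or.inr (t_E2 hW hi hR h))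

end

end CDM
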