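import Pool.Agent.Helper83.CDM.Wlog

/-! Canonical configurations. -/
namespace CDM

noncomputable def codeT (W : ℕ → ℕ) (y0 y1 : ℕ) : ℕ :=
  enc (pc y0) (pc (y0 &&& y1)) y0 y1 (sgm W y1) (W 0) (W 1) (W 2) (W 3)
noncomputable def codeI (W : ℕ → ℕ) (y0 y1 : ℕ) : ℕ :=
  enc 0 (pc (y0 &&& y1)) y0 y1 0 (W 0) (W 1) (W 2) (W 3)

def LT : List (ℕ × ℕ) := [(1, 2), (1, 6), (1, 14), (1, 30), (3, 5), (3, 12), (3, 13), (3, 28), (3, 29), (7, 25)]
def LI : List (ℕ × ℕ) := [(1, 2), (1, 6), (1, 14), (1, 30), (3, 1), (3, 4), (3, 5), (3, 12), (3, 13), (3, 28), (3, 29), (7, 1),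
  (7, 8), (7, 9), (7, 24), (7, 25), (15, 1), (15, 3), (15, 16), (15, 17), (15, 19), (31, 1), (31, 3)]

theorem classI0 : ((List.range 64).all fun y0 => (List.range 64).all fun y1 =>
    !((((decide (0 < y0) && decide (0 < y1)) && (decide (y0 ≠ y1) && decide (y0 ||| y1 ≠ 63))) &&
    ((List.range 5).all fun j => decide (y0 ≤ sw j y0))) &&
    (((List.range 5).all fun j => !decide (sw j y0 = y0) || decide (y1 ≤ sw j y1)) &&
    decide (pc (y0 &&& y1) ≤ pc (y0 &&& (y0 ^^^ y1))))) || LI.contains (y0, y1)) = true := by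
  decide +kernel

theorem classI (y0 : ℕ) (h0 : y0 < 64) (y1 : ℕ) (h1 : y1 < 64) (p0 : 0 < y0) (p1 : 0 < y1) (hne : y0 ≠ y1) (h63 : y0 ||| y1 ≠ 63)
    (ha : ∀ j < 5, y0 ≤ sw j y0) (hb : ∀ j < 5, sw j y0 = y0 → y1 ≤ sw j y1) (hc : pc (y0 &&& y1) ≤ pc (y0 &&& (y0 ^^^ y1))) :
    (y0, y1) ∈ LI := by
  have h := classI0
  rw [List.all_eq_true] at h
  have h4 := h y0 (List.mem_range.mpr h0)
  rw [List.all_eq_true] at h4
  have h5 := h4 y1 (List.mem_range.mpr h1)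
  have A : ((List.range 5).all fun j => decide (y0 ≤ sw j y0)) = true := by
    rw [List.all_eq_true]; intro j hj; exact decide_eq_true (ha j (List.mem_range.mp hj))
  have B : ((List.range 5).all fun j => !decide (sw j y0 = y0) || decide (y1 ≤ sw j y1)) = true := by
    rw [List.all_eq_true]; intro j hj
    by_cases e : sw j y0 = y0
    · simp [e, hb j (List.mem_range.mp hj) e]
    · simp [e]
  rw [A, B, decide_eq_true p0, decide_eq_true p1, decide_eq_true hne, decide_eq_true h63, decide_eq_true hc] at h5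
  simpa using h5

theorem classT0 : ∀ p ∈ LI, pc p.1 ≤ pc p.2 → pc p.1 ≤ pc (p.1 ^^^ p.2) → p ∈ LT := by decide +kernel

section
variable {W X : ℕ → ℕ} {D : ℕ → ℕ → Prop} {y0 y1 : ℕ}

theorem min_exists {P : (ℕ → ℕ) → (ℕ → ℕ) → (ℕ → ℕ → Prop) → ℕ → ℕ → Prop} {code : (ℕ → ℕ) → ℕ → ℕ → ℕ}
    (h : ∃ W X D y0 y1, P W X D y0 y1) : ∃ W X D y0 y1, P W X D y0 y1 ∧
      ∀ W' X' D' y0' y1', P W' X' D' y0' y1' → code W y0 y1 ≤ code W' y0' y1' := by
  classical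
  have h2 : ∃ n, ∃ W X D y0 y1, P W X D y0 y1 ∧ code W y0 y1 = n := by
    obtain ⟨W, X, D, y0, y1, h⟩ := h
    exact ⟨_, W, X, D, y0, y1, h, rfl⟩
  obtain ⟨W, X, D, y0, y1, hP, e⟩ := Nat.find_spec h2
  refine ⟨W, X, D, y0, y1, hP, ?_⟩
  intro W' X' D' y0' y1' h'
  rw [e]
  exact Nat.find_min' h2 ⟨W', X', D', y0', y1', h', rfl⟩

theorem col_eq {j y : ℕ} (h : y.testBit j = y.testBit (j + 1)) : sw j y = y := by unfold sw; rw [if_pos h]

theorem enc1 {p q u v s a b c d p' q' u' v' s' a' b' c' d' : ℕ}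
    (h : enc p q u v s a b c d ≤ enc p' q' u' v' s' a' b' c' d')
    (hq : q < 8) (hu : u < 64) (hv : v < 64) (hs : s < 16) (ha : a < 64) (hb : b < 64) (hc : c < 64) (hd : d < 64)
    (hq' : q' < 8) (hu' : u' < 64) (hv' : v' < 64) (hs' : s' < 16) (ha' : a' < 64) (hb' : b' < 64) (hc' : c' < 64) (hd' : d' < 64) :
    p ≤ p' ∧ (p = p' → q ≤ q' ∧ (q = q' → u ≤ u' ∧ (u = u' → v ≤ v' ∧ (v = v' → s ≤ s' ∧ (s = s' →
      ((a * 64 + b) * 64 + c) * 64 + d ≤ ((a' * 64 + b') * 64 + c') * 64 + d'))))) := by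
  unfold enc at h
  refine ⟨by omega, fun h1 => ⟨by omega, fun h2 => ⟨by omega, fun h3 => ⟨by omega, fun h4 => ⟨by omega, fun h5 => by omega⟩⟩⟩⟩⟩

theorem or_ne_63 {u y : ℕ} (hu : u ≠ 0) (hlt : u < 64) (h : u &&& y = 0) : y ≠ 63 := by
  rintro rfl
  have : ∀ u < 64, u ≠ 0 → u &&& 63 ≠ 0 := by decide +kernel
  exact this u hlt hu h

/-- type I: canonical form -/
theorem canonI (h : ∃ W X D y0 y1, ConfI W X D y0 y1) : ∃ W X D y0 y1, ConfI W X D y0 y1 ∧ (y0, y1) ∈ LI ∧ Canon W true y0 y1 := by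
  obtain ⟨W, X, D, y0, y1, C, hmin⟩ := min_exists (code := codeI) h
  have S := C.S
  have b0 := C.top.b0 S; have b1 := C.top.b1 S
  have L0 := S.W_lt 0 (by norm_num); have L1 := S.W_lt 1 (by norm_num); have L2 := S.W_lt 2 (by norm_num); have L3 := S.W_lt 3 (by norm_num)
  -- columns
  have hcol : ∀ j < 5, y0 ≤ sw j y0 ∧ (y0 = sw j y0 → y1 ≤ sw j y1 ∧ (y1 = sw j y1 →
      ((W 0 * 64 + W 1) * 64 + W 2) * 64 + W 3 ≤ ((sw j (W 0) * 64 + sw j (W 1)) * 64 + sw j (W 2)) * 64 + sw j (W 3))) := by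
    intro j hj
    have h := hmin _ _ _ _ _ (confI_col C hj)
    unfold codeI at h
    have hp : pc (sw j y0 &&& sw j y1) = pc (y0 &&& y1) := by
      rw [← sw_and j hj y0 b0.2 y1 b1.2, pc_sw j hj _ (lt_of_le_of_lt Nat.and_le_left b0.2)]
    rw [hp] at h
    have := enc1 h (pc_lt _) b0.2 b1.2 (by norm_num) L0 L1 L2 L3 (pc_lt _) (sw_lt j hj _ b0.2) (sw_lt j hj _ b1.2) (by norm_num)
      (sw_lt j hj _ L0) (sw_lt j hj _ L1) (sw_lt j hj _ L2) (sw_lt j hj _ L3)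
    have h2 := (this.2 rfl).2 rfl
    exact ⟨h2.1, fun e => ⟨(h2.2 e).1, fun e' => ((h2.2 e).2 e').2 rfl⟩⟩
  -- rows
  have hrow : ∀ k0 < 3, ((W 0 * 64 + W 1) * 64 + W 2) * 64 + W 3 ≤ ((W (sx k0 0) * 64 + W (sx k0 1)) * 64 + W (sx k0 2)) * 64 + W (sx k0 3) := by
    intro k0 h0
    have h := hmin _ _ _ _ _ (confI_row C h0)
    unfold codeI at h
    have hl : ∀ k < 4, W (sx k0 k) < 64 := fun k hk => S.W_lt _ (sx_lt h0 hk)
    have := enc1 h (pc_lt _) b0.2 b1.2 (by norm_num) L0 L1 L2 L3 (pc_lt _) b0.2 b1.2 (by norm_num)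
      (hl 0 (by norm_num)) (hl 1 (by norm_num)) (hl 2 (by norm_num)) (hl 3 (by norm_num))
    exact ((((this.2 rfl).2 rfl).2 rfl).2 rfl).2 rfl
  have hz : PW W 15 &&& (y0 ||| y1) = 0 := by
    have h0 : PW W 15 &&& y0 = 0 := (C.e0 0 (by norm_num)).ev.z
    have h1 : PW W 15 &&& y1 = 0 := C.e1.ev.z
    rw [Nat.and_or_distrib_left, h0, h1]; rfl
  have h63 : y0 ||| y1 ≠ 63 := or_ne_63 (S.nz 15 0 (by norm_num) (by norm_num) (by norm_num)) (PW_lt S.W_lt 15) hz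
  have hpc : pc (y0 &&& y1) ≤ pc (y0 &&& (y0 ^^^ y1)) := by
    have e : y0 ^^^ (y0 ^^^ y1) = y1 := Sys.xor_xor_self' _ _
    have hne : y0 ≠ y0 ^^^ y1 := by
      intro h
      have := Sys.xor_xor_self' y0 y1
      rw [← h, Nat.xor_self] at this; omega
    have hdot : ∀ k < 4, dotB (W k) y0 = false := fun k hk => (C.e0 0 (by norm_num)).ev.d k hk (t15 hk)
    have hdot1 : ∀ k < 4, dotB (W k) y1 = false := fun k hk => C.e1.ev.d k hk (t15 hk)
    have C' : ConfI W X D y0 (y0 ^^^ y1) := by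
      refine ⟨S, ⟨hne, rfl, ?_⟩, C.e0, ⟨⟨?_, ?_⟩, ?_, ?_⟩⟩
      · intro z; rw [e, C.top.h]; tauto
      · show PW W 15 &&& (y0 ^^^ y1) = 0
        apply Nat.eq_of_testBit_eq; intro j
        have g := congrArg (fun z => Nat.testBit z j) hz
        simp only [Nat.testBit_and, Nat.testBit_or, Nat.testBit_xor, Nat.zero_testBit] at g ⊢
        revert g
        cases (PW W 15).testBit j <;> cases y0.testBit j <;> cases y1.testBit j <;> simp
      · intro k hk _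
        show dotB (W k) (y0 ^^^ y1) = false
        rw [dotB_xor', hdot k hk, hdot1 k hk]; rfl
      · rw [dotB_xor', (C.e0 0 (by norm_num)).d0, C.e1.d0]; rfl
      · rw [dotB_xor', (C.e0 0 (by norm_num)).d1, C.e1.d1]; rfl
    have h := hmin _ _ _ _ _ C'
    unfold codeI at h
    have := enc1 h (pc_lt _) b0.2 b1.2 (by norm_num) L0 L1 L2 L3 (pc_lt _) b0.2 (Sys.xor_lt b0.2 b1.2) (by norm_num)
      L0 L1 L2 L3
    exact (this.2 rfl).1
  refine ⟨W, X, D, y0, y1, C, classI y0 b0.2 y1 b1.2 b0.1 b1.1 C.top.ne h63 (fun j hj => (hcol j hj).1)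
    (fun j hj e => ((hcol j hj).2 e.symm).1) hpc, ?_⟩
  have r0 := hrow 0 (by norm_num); have r1 := hrow 1 (by norm_num); have r2 := hrow 2 (by norm_num)
  simp only [sx] at r0 r1 r2
  refine ⟨?_, fun _ => ?_, ?_, ?_⟩
  · norm_num at r0; omega
  · norm_num at r1; omega
  · norm_num at r2; omega
  · intro j hj h0 h1
    exact ge_of_lex hj S.W_lt (((hcol j hj).2 (col_eq h0).symm).2 (col_eq h1).symm)

theorem sigma_class : ∀ s < 16, s ≠ 0 → (s.testBit 0 ^^ (s.testBit 1 ^^ (s.testBit 2 ^^ s.testBit 3))) = false →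
    (∀ k < 3, s ≤ sw k s) → s = 3 ∨ s = 15 := by decide +kernel

theorem dotB_of_and {u y : ℕ} (h : u &&& y = 0) : dotB u y = false := by
  rw [dotB_and, h]; rfl

/-- type T: canonical form -/
theorem canonT (h : ∃ W X D y0 y1, ConfT W X D y0 y1) : ∃ W X D y0 y1, ConfT W X D y0 y1 ∧ (y0, y1) ∈ LT ∧
    ((sgm W y1 = 3 ∧ Canon W false y0 y1) ∨ (sgm W y1 = 15 ∧ Canon W true y0 y1)) := by
  obtain ⟨W, X, D, y0, y1, C, hmin⟩ := min_exists (code := codeT) h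
  have S := C.S
  have b0 := C.top.b0 S; have b1 := C.top.b1 S
  have b2 : y0 ^^^ y1 < 64 := Sys.xor_lt b0.2 b1.2
  have L0 := S.W_lt 0 (by norm_num); have L1 := S.W_lt 1 (by norm_num); have L2 := S.W_lt 2 (by norm_num); have L3 := S.W_lt 3 (by norm_num)
  have Ls := sgm_lt W y1
  have hcol : ∀ j < 5, y0 ≤ sw j y0 ∧ (y0 = sw j y0 → y1 ≤ sw j y1 ∧ (y1 = sw j y1 →
      ((W 0 * 64 + W 1) * 64 + W 2) * 64 + W 3 ≤ ((sw j (W 0) * 64 + sw j (W 1)) * 64 + sw j (W 2)) * 64 + sw j (W 3))) := by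
    intro j hj
    have h := hmin _ _ _ _ _ (confT_col C hj)
    unfold codeT at h
    have hp : pc (sw j y0 &&& sw j y1) = pc (y0 &&& y1) := by
      rw [← sw_and j hj y0 b0.2 y1 b1.2, pc_sw j hj _ (lt_of_le_of_lt Nat.and_le_left b0.2)]
    rw [hp, pc_sw j hj _ b0.2, sw_dot' hj S.W_lt b1.2] at h
    have := enc1 h (pc_lt _) b0.2 b1.2 Ls L0 L1 L2 L3 (pc_lt _) (sw_lt j hj _ b0.2) (sw_lt j hj _ b1.2) Ls
      (sw_lt j hj _ L0) (sw_lt j hj _ L1) (sw_lt j hj _ L2) (sw_lt j hj _ L3)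
    have h2 := (this.2 rfl).2 rfl
    exact ⟨h2.1, fun e => ⟨(h2.2 e).1, fun e' => ((h2.2 e).2 e').2 rfl⟩⟩
  have hrow : ∀ k0 < 3, sgm W y1 ≤ sw k0 (sgm W y1) ∧ (sgm W y1 = sw k0 (sgm W y1) →
      ((W 0 * 64 + W 1) * 64 + W 2) * 64 + W 3 ≤ ((W (sx k0 0) * 64 + W (sx k0 1)) * 64 + W (sx k0 2)) * 64 + W (sx k0 3)) := by
    intro k0 h0
    have h := hmin _ _ _ _ _ (confT_row C h0)
    unfold codeT at h
    rw [sgm_row W y1 h0] at h
    have hl : ∀ k < 4, W (sx k0 k) < 64 := fun k hk => S.W_lt _ (sx_lt h0 hk)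
    have := enc1 h (pc_lt _) b0.2 b1.2 Ls L0 L1 L2 L3 (pc_lt _) b0.2 b1.2 (sw16 k0 h0 _ Ls).1
      (hl 0 (by norm_num)) (hl 1 (by norm_num)) (hl 2 (by norm_num)) (hl 3 (by norm_num))
    exact ((((this.2 rfl).2 rfl).2 rfl).2 rfl)
  have hz := C.supp.1
  have h63 : y0 ||| y1 ≠ 63 := or_ne_63 (S.nz 15 0 (by norm_num) (by norm_num) (by norm_num)) (PW_lt S.W_lt 15) hz
  have hp1 : pc y0 ≤ pc y1 := by
    have C' := confT_01 C
    have h := hmin _ _ _ _ _ C'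
    unfold codeT at h
    have LX := C'.S.W_lt
    exact (enc1 h (pc_lt _) b0.2 b1.2 Ls L0 L1 L2 L3 (pc_lt _) b1.2 b0.2 (sgm_lt _ _)
      (LX 0 (by norm_num)) (LX 1 (by norm_num)) (LX 2 (by norm_num)) (LX 3 (by norm_num))).1
  have hp2 : pc y0 ≤ pc (y0 ^^^ y1) := by
    have C' := confT_01 (confT_12 C)
    have h := hmin _ _ _ _ _ C'
    unfold codeT at h
    have LX := C'.S.W_lt
    exact (enc1 h (pc_lt _) b0.2 b1.2 Ls L0 L1 L2 L3 (pc_lt _) b2 b0.2 (sgm_lt _ _)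
      (LX 0 (by norm_num)) (LX 1 (by norm_num)) (LX 2 (by norm_num)) (LX 3 (by norm_num))).1
  have hp3 : pc (y0 &&& y1) ≤ pc (y0 &&& (y0 ^^^ y1)) := by
    have C' := confT_12 C
    have h := hmin _ _ _ _ _ C'
    unfold codeT at h
    exact ((enc1 h (pc_lt _) b0.2 b1.2 Ls L0 L1 L2 L3 (pc_lt _) b0.2 b2 (sgm_lt _ _) L0 L1 L2 L3).2 rfl).1
  have hLI := classI y0 b0.2 y1 b1.2 b0.1 b1.1 C.top.ne h63 (fun j hj => (hcol j hj).1)
    (fun j hj e => ((hcol j hj).2 e.symm).1) hp3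
  refine ⟨W, X, D, y0, y1, C, classT0 _ hLI hp1 hp2, ?_⟩
  have hs : sgm W y1 = 3 ∨ sgm W y1 = 15 := by
    refine sigma_class _ Ls ?_ ?_ (fun k hk => (hrow k hk).1)
    · obtain ⟨k, hk, h⟩ := C.ne
      intro h0
      have := t_sgm W y1 hk
      rw [h0, h] at this; simp at this
    · rw [t_sgm W y1 (by norm_num), t_sgm W y1 (by norm_num), t_sgm W y1 (by norm_num), t_sgm W y1 (by norm_num)]
      have hpw := dotB_PW W 15 y1
      have hz1 : PW W 15 &&& y1 = 0 := by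
        apply Nat.eq_of_testBit_eq; intro j
        have g := congrArg (fun z => Nat.testBit z j) hz
        simp only [Nat.testBit_and, Nat.testBit_or, Nat.zero_testBit] at g ⊢
        revert g
        cases (PW W 15).testBit j <;> cases y0.testBit j <;> cases y1.testBit j <;> simp
      rw [dotB_of_and hz1, t15 (by norm_num), t15 (by norm_num), t15 (by norm_num), t15 (by norm_num)] at hpw
      simp only [Bool.true_and] at hpw
      exact hpw.symm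
  have hcan : ∀ j < 5, y0.testBit j = y0.testBit (j + 1) → y1.testBit j = y1.testBit (j + 1) → geB W j (j + 1) = true := by
    intro j hj h0 h1
    exact ge_of_lex hj S.W_lt (((hcol j hj).2 (col_eq h0).symm).2 (col_eq h1).symm)
  have r0 := hrow 0 (by norm_num); have r1 := hrow 1 (by norm_num); have r2 := hrow 2 (by norm_num)
  simp only [sx] at r0 r1 r2
  norm_num at r0 r1 r2
  rcases hs with hs | hs <;> rw [hs] at r0 r1 r2
  · left
    refine ⟨hs, ⟨?_, fun h => by simp at h, ?_, hcan⟩⟩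
    · have := r0.2 (by decide); omega
    · have := r2.2 (by decide); omega
  · right
    refine ⟨hs, ⟨?_, fun _ => ?_, ?_, hcan⟩⟩
    · have := r0.2 (by decide); omega
    · have := r1.2 (by decide); omega
    · have := r2.2 (by decide); omega

end

end CDM
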