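import Mathlib
import Pool.Agent.Helper83.CDM.Engine

/-! Semantics of the engine: Boolean operations, lists, tables. -/
namespace CDM

theorem beq_eq (a b : ℕ) : Nat.beq a b = decide (a = b) := by
  cases h : Nat.beq a b
  · have := Nat.ne_of_beq_eq_false h
    simp [this]
  · have := Nat.eq_of_beq_eq_true h
    simp [this]

theorem tb_eq (x i : ℕ) : tb x i = Nat.testBit x i := by
  have h : tb x i = decide ((x >>> i) &&& 1 = 1) := beq_eq _ _
  rw [h, Nat.testBit]
  have h2 : (x >>> i) &&& 1 = (x >>> i) % 2 := Nat.and_one_is_mod _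
  have h3 : 1 &&& (x >>> i) = (x >>> i) % 2 := by rw [Nat.and_comm]; exact h2
  rw [h2, h3]
  rcases Nat.mod_two_eq_zero_or_one (x >>> i) with h | h <;> simp [h]

@[simp] theorem sel_true (x y : ℕ) : sel true x y = x := rfl
@[simp] theorem sel_false (x y : ℕ) : sel false x y = y := rfl
@[simp] theorem bnot_eq (b : Bool) : bnot b = !b := by cases b <;> rfl
@[simp] theorem band_eq (a b : Bool) : band a b = (a && b) := by cases a <;> rfl
@[simp] theorem bor_eq (a b : Bool) : bor a b = (a || b) := by cases a <;> rfl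

theorem sel_eq (b : Bool) (x y : ℕ) : sel b x y = if b = true then x else y := by cases b <;> rfl

@[simp] theorem t_land (x y i : ℕ) : Nat.testBit (Nat.land x y) i = (x.testBit i && y.testBit i) :=
  Nat.testBit_and x y i
@[simp] theorem t_lor (x y i : ℕ) : Nat.testBit (Nat.lor x y) i = (x.testBit i || y.testBit i) :=
  Nat.testBit_or x y i
@[simp] theorem t_xor (x y i : ℕ) : Nat.testBit (Nat.xor x y) i = (x.testBit i ^^ y.testBit i) :=
  Nat.testBit_xor x y i

theorem sand_eq (x y : ℕ) : sand x y = Nat.land x y := by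
  unfold sand
  rw [beq_eq]
  by_cases h : x = 0
  · subst h
    simp only [decide_true]
    exact (Nat.zero_and y).symm
  · simp [h]

@[simp] theorem t_sand (x y i : ℕ) : Nat.testBit (sand x y) i = (x.testBit i && y.testBit i) := by
  rw [sand_eq, t_land]

theorem t_sel (b : Bool) (x y i : ℕ) : Nat.testBit (sel b x y) i = if b = true then x.testBit i else y.testBit i := by
  cases b <;> rfl

/-! lists -/
@[simp] theorem orL_nil (f : ℕ → ℕ) : orL [] f = 0 := rfl
@[simp] theorem orL_cons (a : ℕ) (l : List ℕ) (f : ℕ → ℕ) : orL (a :: l) f = Nat.lor (f a) (orL l f) := rfl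
@[simp] theorem andL_nil (i : ℕ) (f : ℕ → ℕ) : andL i [] f = i := rfl
@[simp] theorem andL_cons (i a : ℕ) (l : List ℕ) (f : ℕ → ℕ) : andL i (a :: l) f = Nat.land (f a) (andL i l f) := rfl
@[simp] theorem xorL_nil (i : ℕ) (f : ℕ → ℕ) : xorL i [] f = i := rfl
@[simp] theorem xorL_cons (i a : ℕ) (l : List ℕ) (f : ℕ → ℕ) : xorL i (a :: l) f = Nat.xor (f a) (xorL i l f) := rfl
@[simp] theorem allL_nil (f : ℕ → Bool) : allL [] f = true := rfl
@[simp] theorem allL_cons (a : ℕ) (l : List ℕ) (f : ℕ → Bool) : allL (a :: l) f = (f a && allL l f) := band_eq _ _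
@[simp] theorem anyL_nil (f : ℕ → Bool) : anyL [] f = false := rfl
@[simp] theorem anyL_cons (a : ℕ) (l : List ℕ) (f : ℕ → Bool) : anyL (a :: l) f = (f a || anyL l f) := bor_eq _ _
@[simp] theorem sandL_nil (i : ℕ) (f : ℕ → ℕ) : sandL i [] f = i := rfl
theorem sandL_cons (i a : ℕ) (l : List ℕ) (f : ℕ → ℕ) :
    sandL i (a :: l) f = if i = 0 then 0 else sandL (Nat.land i (f a)) l f := by
  show (@Bool.rec (fun _ => Nat) _ _ (Nat.beq i 0)) = _
  rw [beq_eq]
  by_cases h : i = 0
  · simp [h]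
  · simp only [h, decide_false, if_false]; rfl

theorem t_orL {l : List ℕ} {f : ℕ → ℕ} {i : ℕ} : (orL l f).testBit i = true ↔ ∃ a ∈ l, (f a).testBit i = true := by
  induction l with
  | nil => simp
  | cons a l ih => simp [ih]

theorem t_andL {l : List ℕ} {f : ℕ → ℕ} {i x : ℕ} :
    (andL x l f).testBit i = true ↔ x.testBit i = true ∧ ∀ a ∈ l, (f a).testBit i = true := by
  induction l with
  | nil => simp
  | cons a l ih => simp [ih]; tauto

theorem t_sandL {l : List ℕ} {f : ℕ → ℕ} {i x : ℕ} (hx : x.testBit i = true) (h : ∀ a ∈ l, (f a).testBit i = true) :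
    (sandL x l f).testBit i = true := by
  induction l generalizing x with
  | nil => simpa using hx
  | cons a l ih =>
    rw [sandL_cons, if_neg (by rintro rfl; simp at hx)]
    exact ih (by simp [hx, h a (by simp)]) (fun b hb => h b (by simp [hb]))

theorem allL_iff {l : List ℕ} {f : ℕ → Bool} : allL l f = true ↔ ∀ a ∈ l, f a = true := by
  induction l with
  | nil => simp
  | cons a l ih => simp [ih]

theorem anyL_iff {l : List ℕ} {f : ℕ → Bool} : anyL l f = true ↔ ∃ a ∈ l, f a = true := by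
  induction l with
  | nil => simp
  | cons a l ih => simp [ih]

theorem mem_consB {b : Bool} {x z : ℕ} {l : List ℕ} : z ∈ consB b x l ↔ (b = true ∧ z = x) ∨ z ∈ l := by
  cases b
  · show z ∈ l ↔ _
    simp
  · show z ∈ x :: l ↔ _
    simp

theorem mem_bits6 {y j : ℕ} : j ∈ bits6 y ↔ j < 6 ∧ y.testBit j = true := by
  unfold bits6
  simp only [mem_consB, tb_eq, List.not_mem_nil, or_false]
  constructor
  · rintro (⟨h, rfl⟩ | ⟨h, rfl⟩ | ⟨h, rfl⟩ | ⟨h, rfl⟩ | ⟨h, rfl⟩ | ⟨h, rfl⟩) <;> exact ⟨by norm_num, h⟩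
  · rintro ⟨h1, h2⟩
    interval_cases j <;> simp [h2]

theorem mem_bits4 {y j : ℕ} : j ∈ bits4 y ↔ j < 4 ∧ y.testBit j = true := by
  unfold bits4
  simp only [mem_consB, tb_eq, List.not_mem_nil, or_false]
  constructor
  · rintro (⟨h, rfl⟩ | ⟨h, rfl⟩ | ⟨h, rfl⟩ | ⟨h, rfl⟩) <;> exact ⟨by norm_num, h⟩
  · rintro ⟨h1, h2⟩
    interval_cases j <;> simp [h2]

theorem lit64_eq {α : Type} {x : ℕ} (h : x < 64) (f : ℕ → α) : lit64 x f = f x := by
  interval_cases x <;> rfl

/-- xor of the values of g over the set bits j < n of y -/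
def xorB (g : ℕ → Bool) : ℕ → ℕ → Bool
  | 0, _ => false
  | n + 1, y => xorB g n y ^^ (y.testBit n && g n)

theorem t_consB_xorL (b : Bool) (x : ℕ) (l : List ℕ) (f : ℕ → ℕ) (z i : ℕ) :
    (xorL z (consB b x l) f).testBit i = ((b && (f x).testBit i) ^^ (xorL z l f).testBit i) := by
  cases b
  · show (xorL z l f).testBit i = _
    simp
  · show (xorL z (x :: l) f).testBit i = _
    simp

end CDM
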