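import Pool.Agent.Helper83.CDM.Idx

/-! Symmetries of the system. -/
namespace CDM

/-- exchange bits j and j+1 -/
def sw (j y : ℕ) : ℕ := if y.testBit j = y.testBit (j + 1) then y else y ^^^ (3 <<< j)

/-- exchange of the indices k0 and k0+1 -/
def sx (k0 k : ℕ) : ℕ := if k = k0 then k0 + 1 else if k = k0 + 1 then k0 else k

theorem t_sw (j y k : ℕ) : (sw j y).testBit k = y.testBit (sx j k) := by
  have h3 : (3 <<< j).testBit k = (decide (k = j) || decide (k = j + 1)) := by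
    rw [Nat.testBit_shiftLeft]
    have e : (3 : ℕ).testBit (k - j) = decide (k - j < 2) := Nat.testBit_two_pow_sub_one 2 (k - j)
    rw [e]
    by_cases h1 : k = j
    · subst h1; simp
    · by_cases h2 : k = j + 1
      · subst h2; simp
      · simp only [h1, h2, decide_false, Bool.or_false]
        by_cases h4 : k ≥ j
        · have : ¬ (k - j < 2) := by omega
          simp [this]
        · simp [h4]
  unfold sw sx
  by_cases h1 : y.testBit j = y.testBit (j + 1)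
  · rw [if_pos h1]
    by_cases h2 : k = j
    · rw [if_pos h2, h2, h1]
    · rw [if_neg h2]
      by_cases h4 : k = j + 1
      · rw [if_pos h4, h4, h1]
      · rw [if_neg h4]
  · rw [if_neg h1, Nat.testBit_xor, h3]
    by_cases h2 : k = j
    · rw [if_pos h2]
      subst h2
      simp only [decide_true, Bool.true_or, Bool.xor_true]
      revert h1
      cases y.testBit k <;> cases y.testBit (k + 1) <;> simp
    · rw [if_neg h2]
      by_cases h4 : k = j + 1
      · rw [if_pos h4]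
        subst h4
        simp only [decide_true, Bool.or_true, Bool.xor_true]
        revert h1
        cases y.testBit j <;> cases y.testBit (j + 1) <;> simp
      · rw [if_neg h4]
        simp [h2, h4]

theorem sw_lt : ∀ j < 5, ∀ y < 64, sw j y < 64 := by decide +kernel
theorem sw_sw : ∀ j < 5, ∀ y < 64, sw j (sw j y) = y := by decide +kernel
theorem sw_xor (j : ℕ) (_ : j < 5) (x : ℕ) (_ : x < 64) (y : ℕ) (_ : y < 64) : sw j (x ^^^ y) = sw j x ^^^ sw j y := by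
  apply Nat.eq_of_testBit_eq
  intro k
  simp only [t_sw, Nat.testBit_xor]
theorem sw_and (j : ℕ) (_ : j < 5) (x : ℕ) (_ : x < 64) (y : ℕ) (_ : y < 64) : sw j (x &&& y) = sw j x &&& sw j y := by
  apply Nat.eq_of_testBit_eq
  intro k
  simp only [t_sw, Nat.testBit_and]
theorem sw_dot0 : ∀ j < 5, ∀ y < 64, ((sw j y).testBit 0 ^^ ((sw j y).testBit 1 ^^ ((sw j y).testBit 2 ^^ ((sw j y).testBit 3 ^^
    ((sw j y).testBit 4 ^^ (sw j y).testBit 5))))) = (y.testBit 0 ^^ (y.testBit 1 ^^ (y.testBit 2 ^^ (y.testBit 3 ^^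
    (y.testBit 4 ^^ y.testBit 5))))) := by decide +kernel

theorem dotB_and (x y : ℕ) : dotB x y = ((x &&& y).testBit 0 ^^ ((x &&& y).testBit 1 ^^ ((x &&& y).testBit 2 ^^ ((x &&& y).testBit 3 ^^
    ((x &&& y).testBit 4 ^^ (x &&& y).testBit 5))))) := by
  simp only [Nat.testBit_and]; rfl

theorem sw_dot {j x y : ℕ} (hj : j < 5) (hx : x < 64) (hy : y < 64) : dotB (sw j x) (sw j y) = dotB x y := by
  rw [dotB_and, dotB_and, ← sw_and j hj x hx y hy]
  exact sw_dot0 j hj _ (lt_of_le_of_lt Nat.and_le_left hx)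

theorem sw_zero (j : ℕ) : sw j 0 = 0 := by unfold sw; simp

theorem sw_inj {j x y : ℕ} (hj : j < 5) (hx : x < 64) (hy : y < 64) (h : sw j x = sw j y) : x = y := by
  rw [← sw_sw j hj x hx, h, sw_sw j hj y hy]

theorem sw_pos {j y : ℕ} (hj : j < 5) (hy : y < 64) (h : 0 < y) : 0 < sw j y := by
  rcases Nat.eq_zero_or_pos (sw j y) with h0 | h0
  · have := sw_sw j hj y hy
    rw [h0, sw_zero] at this; omega
  · exact h0

section
variable {W X : ℕ → ℕ} {D : ℕ → ℕ → Prop}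

theorem PW_sw {j : ℕ} (hj : j < 5) (hW : ∀ k < 4, W k < 64) (a : ℕ) : PW (fun k => sw j (W k)) a = sw j (PW W a) := by
  rw [PW_eq, PW_eq]
  have h0 := hW 0 (by norm_num); have h1 := hW 1 (by norm_num); have h2 := hW 2 (by norm_num); have h3 := hW 3 (by norm_num)
  have key : ∀ (b : Prop) [Decidable b] (w : ℕ), (if b then sw j w else 0) = sw j (if b then w else 0) := by
    intro b _ w; split_ifs
    · rfl
    · rw [sw_zero]
  have lt : ∀ (b : Prop) [Decidable b] (w : ℕ), w < 64 → (if b then w else 0) < 64 := by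
    intro b _ w hw; split_ifs <;> omega
  simp only [key]
  rw [sw_xor j hj _ (lt _ _ h0) _ (Sys.xor_lt (lt _ _ h1) (Sys.xor_lt (lt _ _ h2) (lt _ _ h3))),
    sw_xor j hj _ (lt _ _ h1) _ (Sys.xor_lt (lt _ _ h2) (lt _ _ h3)), sw_xor j hj _ (lt _ _ h2) _ (lt _ _ h3)]

theorem mat_lt (hW : ∀ k < 4, W k < 64) (hX : ∀ k < 4, X k < 64) {l k : ℕ} (hl : l < 3) (hk : k < 4) : mat W X l k < 64 := by
  interval_cases l
  · exact hW k hk
  · exact hX k hk
  · exact Sys.xor_lt (hW k hk) (hX k hk)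

theorem mat_sw {j : ℕ} (hj : j < 5) (hW : ∀ k < 4, W k < 64) (hX : ∀ k < 4, X k < 64) {l k : ℕ} (hl : l < 3) (hk : k < 4) :
    mat (fun k => sw j (W k)) (fun k => sw j (X k)) l k = sw j (mat W X l k) := by
  interval_cases l
  · rfl
  · rfl
  · exact (sw_xor j hj _ (hW k hk) _ (hX k hk)).symm

theorem Ev_sw {j : ℕ} (hj : j < 5) (hW : ∀ k < 4, W k < 64) {a y : ℕ} (hy : y < 64) (h : Ev W a y) :
    Ev (fun k => sw j (W k)) a (sw j y) := by
  refine ⟨?_, ?_⟩
  · rw [PW_sw hj hW, ← sw_and j hj _ (PW_lt hW a) y hy, h.z, sw_zero]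
  · intro k hk hak
    rw [sw_dot hj (hW k hk) hy]; exact h.d k hk hak

theorem Ev_congr {W W' : ℕ → ℕ} (h : ∀ k < 4, W k = W' k) {a y : ℕ} (hE : Ev W a y) : Ev W' a y := by
  refine ⟨?_, ?_⟩
  · rw [← PW_congr h]; exact hE.z
  · intro k hk hak; rw [← h k hk]; exact hE.d k hk hak

theorem En_sw {j : ℕ} (hj : j < 5) (hW : ∀ k < 4, W k < 64) (hX : ∀ k < 4, X k < 64) {l a y : ℕ} (hl : l < 3) (hy : y < 64)
    (h : En W X l a y) : En (fun k => sw j (W k)) (fun k => sw j (X k)) l a (sw j y) := by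
  refine ⟨?_, ?_, ?_⟩
  · exact Ev_congr (fun k hk => (mat_sw hj hW hX hl hk).symm) (Ev_sw hj (fun k hk => mat_lt hW hX hl hk) hy h.ev)
  · rw [PW_sw hj hW, sw_dot hj (PW_lt hW a) hy]; exact h.d0
  · rw [PW_sw hj hX, sw_dot hj (PW_lt hX a) hy]; exact h.d1

theorem sys_col (S : Sys W X D) {j : ℕ} (hj : j < 5) :
    Sys (fun k => sw j (W k)) (fun k => sw j (X k)) (fun a y => y < 64 ∧ D a (sw j y)) := by
  refine ⟨fun k hk => sw_lt j hj _ (S.W_lt k hk), fun k hk => sw_lt j hj _ (S.X_lt k hk), ?_, ?_, ?_, ?_, ?_, ?_, ?_⟩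
  · intro a ha ha'
    obtain ⟨p, q, hp, hp', hq, hq', hpq, H⟩ := S.dim a ha ha'
    refine ⟨sw j p, sw j q, sw_pos hj hp' hp, sw_lt j hj p hp', sw_pos hj hq' hq, sw_lt j hj q hq', ?_, ?_⟩
    · intro h; exact hpq (sw_inj hj hp' hq' h)
    · intro z
      rw [H]
      constructor
      · rintro ⟨hz, h⟩
        have hzz := sw_sw j hj z hz
        rcases h with h | h | h
        · left; rw [← hzz, h]
        · right; left; rw [← hzz, h]
        · right; right; rw [← hzz, h, sw_xor j hj p hp' q hq']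
      · rintro (rfl | rfl | rfl)
        · exact ⟨sw_lt j hj p hp', Or.inl (sw_sw j hj p hp')⟩
        · exact ⟨sw_lt j hj q hq', Or.inr (Or.inl (sw_sw j hj q hq'))⟩
        · refine ⟨Sys.xor_lt (sw_lt j hj p hp') (sw_lt j hj q hq'), Or.inr (Or.inr ?_)⟩
          rw [← sw_xor j hj p hp' q hq', sw_sw j hj _ (Sys.xor_lt hp' hq')]
  · rintro a b y ha ha' hb hb' hab ⟨h1, h2⟩ ⟨_, h3⟩
    exact ⟨h1, S.add a b _ ha ha' hb hb' hab h2 h3⟩
  · rintro a b c y ha ha' hb hb' hc hc' hab hca hcb hcab ⟨_, h1⟩ ⟨_, h2⟩ ⟨_, h3⟩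
    exact S.small a b c _ ha ha' hb hb' hc hc' hab hca hcb hcab h1 h2 h3
  · intro a l ha ha' hl
    obtain ⟨y, hy, hE⟩ := S.E4 a l ha ha' hl
    have hb := S.bound ha ha' hy
    exact ⟨sw j y, ⟨sw_lt j hj y hb.2, by rw [sw_sw j hj y hb.2]; exact hy⟩, En_sw hj S.W_lt S.X_lt hl hb.2 hE⟩
  · rintro a y ha ha' ⟨hy, hD⟩
    obtain ⟨l, hl, hE⟩ := S.E5 a _ ha ha' hD
    refine ⟨l, hl, ?_⟩
    have := En_sw hj S.W_lt S.X_lt hl (sw_lt j hj y hy) hE
    rwa [sw_sw j hj y hy] at this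
  · intro a l ha ha' hl h
    apply S.nz a l ha ha' hl
    rw [PW_congr (fun k hk => mat_sw hj S.W_lt S.X_lt hl hk), PW_sw hj (fun k hk => mat_lt S.W_lt S.X_lt hl hk)] at h
    have h2 := sw_sw j hj _ (PW_lt (fun k hk => mat_lt S.W_lt S.X_lt hl hk) a (W := mat W X l))
    rw [h, sw_zero] at h2
    exact h2.symm
  · intro y hy hy' h
    have hz := sw_lt j hj y hy'
    obtain ⟨a, b, ha, ha', hb, hb', hab, h1, h2⟩ := S.star (sw j y) (sw_pos hj hy' hy) hz (by
      intro k hk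
      have := h k hk
      rw [← sw_dot hj (S.W_lt k hk) hz, ← sw_dot hj (S.X_lt k hk) hz, sw_sw j hj y hy']
      exact this)
    exact ⟨a, b, ha, ha', hb, hb', hab, ⟨hy', h1⟩, ⟨hy', h2⟩⟩

theorem sx_lt {k0 k : ℕ} (h0 : k0 < 3) (hk : k < 4) : sx k0 k < 4 := by unfold sx; split_ifs <;> omega

theorem sw16 : ∀ k0 < 3, ∀ a < 16, sw k0 a < 16 ∧ sw k0 (sw k0 a) = a ∧ (0 < a → 0 < sw k0 a) ∧
    ∀ k < 4, (sw k0 a).testBit k = a.testBit (sx k0 k) := by decide +kernel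

theorem sx_sx {k0 k : ℕ} : sx k0 (sx k0 k) = k := by unfold sx; split_ifs <;> omega

theorem PW_row {k0 : ℕ} (h0 : k0 < 3) {a : ℕ} (ha : a < 16) : PW (fun k => W (sx k0 k)) a = PW W (sw k0 a) := by
  have H := (sw16 k0 h0 a ha).2.2.2
  apply Nat.eq_of_testBit_eq
  intro j
  rw [t_PW, t_PW, H 0 (by norm_num), H 1 (by norm_num), H 2 (by norm_num), H 3 (by norm_num)]
  interval_cases k0 <;> simp only [sx] <;> simp <;> simp only [Bool.xor_left_comm, Bool.xor_comm]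

theorem Ev_row {k0 : ℕ} (h0 : k0 < 3) {a y : ℕ} (ha : a < 16) (h : Ev W (sw k0 a) y) : Ev (fun k => W (sx k0 k)) a y := by
  refine ⟨?_, ?_⟩
  · rw [PW_row h0 ha]; exact h.z
  · intro k hk hak
    apply h.d _ (sx_lt h0 hk)
    rw [(sw16 k0 h0 a ha).2.2.2 _ (sx_lt h0 hk), sx_sx]; exact hak

theorem En_row {k0 : ℕ} (h0 : k0 < 3) {l a y : ℕ} (hl : l < 3) (ha : a < 16) (h : En W X l (sw k0 a) y) :
    En (fun k => W (sx k0 k)) (fun k => X (sx k0 k)) l a y := by
  refine ⟨?_, ?_, ?_⟩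
  · have := Ev_row h0 ha h.ev
    interval_cases l <;> exact this
  · rw [PW_row h0 ha]; exact h.d0
  · rw [PW_row h0 ha]; exact h.d1

theorem sys_row (S : Sys W X D) {k0 : ℕ} (h0 : k0 < 3) :
    Sys (fun k => W (sx k0 k)) (fun k => X (sx k0 k)) (fun a y => D (sw k0 a) y) := by
  have B := sw16 k0 h0
  have hinj : ∀ a < 16, ∀ b < 16, sw k0 a = sw k0 b → a = b := by
    intro a ha b hb h
    rw [← (B a ha).2.1, h, (B b hb).2.1]
  have hx : ∀ a < 16, ∀ b < 16, sw k0 (a ^^^ b) = sw k0 a ^^^ sw k0 b := fun a ha b hb =>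
    sw_xor k0 (by omega) a (by omega) b (by omega)
  refine ⟨fun k hk => S.W_lt _ (sx_lt h0 hk), fun k hk => S.X_lt _ (sx_lt h0 hk), ?_, ?_, ?_, ?_, ?_, ?_, ?_⟩
  · intro a ha ha'
    exact S.dim _ ((B a ha').2.2.1 ha) (B a ha').1
  · intro a b y ha ha' hb hb' hab h1 h2
    show D (sw k0 (a ^^^ b)) y
    rw [hx a ha' b hb']
    exact S.add _ _ y ((B a ha').2.2.1 ha) (B a ha').1 ((B b hb').2.2.1 hb) (B b hb').1 (fun h => hab (hinj a ha' b hb' h)) h1 h2
  · intro a b c y ha ha' hb hb' hc hc' hab hca hcb hcab h1 h2 h3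
    refine S.small _ _ _ y ((B a ha').2.2.1 ha) (B a ha').1 ((B b hb').2.2.1 hb) (B b hb').1 ((B c hc').2.2.1 hc) (B c hc').1
      (fun h => hab (hinj a ha' b hb' h)) (fun h => hca (hinj c hc' a ha' h)) (fun h => hcb (hinj c hc' b hb' h)) ?_ h1 h2 h3
    intro h
    rw [← hx a ha' b hb'] at h
    exact hcab (hinj c hc' _ (Sys.xor_lt16 ha' hb') h)
  · intro a l ha ha' hl
    obtain ⟨y, hy, hE⟩ := S.E4 _ l ((B a ha').2.2.1 ha) (B a ha').1 hl
    exact ⟨y, hy, En_row h0 hl ha' hE⟩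
  · intro a y ha ha' hD
    obtain ⟨l, hl, hE⟩ := S.E5 _ y ((B a ha').2.2.1 ha) (B a ha').1 hD
    exact ⟨l, hl, En_row h0 hl ha' hE⟩
  · intro a l ha ha' hl h
    apply S.nz _ l ((B a ha').2.2.1 ha) (B a ha').1 hl
    rw [← PW_row h0 ha', ← h]
    apply PW_congr
    intro k hk
    interval_cases l <;> rfl
  · intro y hy hy' h
    obtain ⟨a, b, ha, ha', hb, hb', hab, h1, h2⟩ := S.star y hy hy' (by
      intro k hk
      have := h (sx k0 k) (sx_lt h0 hk)
      simpa only [sx_sx] using this)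
    refine ⟨sw k0 a, sw k0 b, (B a ha').2.2.1 ha, (B a ha').1, (B b hb').2.2.1 hb, (B b hb').1, ?_, ?_, ?_⟩
    · intro h
      exact hab (hinj a ha' b hb' h)
    · show D (sw k0 (sw k0 a)) y
      rw [(B a ha').2.1]; exact h1
    · show D (sw k0 (sw k0 b)) y
      rw [(B b hb').2.1]; exact h2

theorem dotB_mat {l a y : ℕ} {l' : ℕ} (hl : l' < 3) (h : En W X l a y) : dotB (PW (mat W X l') a) y = false := by
  interval_cases l'
  · exact h.d0
  · exact h.d1
  · show dotB (PW (fun k => W k ^^^ X k) a) y = false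
    rw [PW_xor, dotB_xor, h.d0, h.d1]; rfl

theorem En_rel {W' X' : ℕ → ℕ} {π : ℕ → ℕ} (hπ : ∀ l < 3, π l < 3) (hm : ∀ l < 3, ∀ k < 4, mat W X (π l) k = mat W' X' l k)
    {l a y : ℕ} (hl : l < 3) (h : En W X (π l) a y) : En W' X' l a y := by
  refine ⟨Ev_congr (hm l hl) h.ev, ?_, ?_⟩
  · have := dotB_mat (hπ 0 (by norm_num)) h
    rw [PW_congr (hm 0 (by norm_num))] at this; exact this
  · have := dotB_mat (hπ 1 (by norm_num)) h
    rw [PW_congr (hm 1 (by norm_num))] at this; exact this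

theorem sys_rel (S : Sys W X D) {W' X' : ℕ → ℕ} {π : ℕ → ℕ} (hπ : ∀ l < 3, π l < 3) (hs : ∀ l < 3, ∃ l' < 3, π l' = l)
    (hm : ∀ l < 3, ∀ k < 4, mat W X (π l) k = mat W' X' l k) : Sys W' X' D := by
  refine ⟨?_, ?_, S.dim, S.add, S.small, ?_, ?_, ?_, ?_⟩
  · intro k hk
    have := mat_lt S.W_lt S.X_lt (hπ 0 (by norm_num)) hk
    rw [hm 0 (by norm_num) k hk] at this; exact this
  · intro k hk
    have := mat_lt S.W_lt S.X_lt (hπ 1 (by norm_num)) hk
    rw [hm 1 (by norm_num) k hk] at this; exact this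
  · intro a l ha ha' hl
    obtain ⟨y, hy, hE⟩ := S.E4 a (π l) ha ha' (hπ l hl)
    exact ⟨y, hy, En_rel hπ hm hl hE⟩
  · intro a y ha ha' hD
    obtain ⟨l, hl, hE⟩ := S.E5 a y ha ha' hD
    obtain ⟨l', hl', e⟩ := hs l hl
    exact ⟨l', hl', En_rel hπ hm hl' (by rw [e]; exact hE)⟩
  · intro a l ha ha' hl h
    apply S.nz a (π l) ha ha' (hπ l hl)
    rw [PW_congr (hm l hl)]; exact h
  · intro y hy hy' h
    apply S.star y hy hy'
    have all : ∀ l < 3, ∀ k < 4, dotB (mat W' X' l k) y = false := by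
      intro l hl k hk
      interval_cases l
      · exact (h k hk).1
      · exact (h k hk).2
      · show dotB (W' k ^^^ X' k) y = false
        rw [dotB_xor, (h k hk).1, (h k hk).2]; rfl
    intro k hk
    obtain ⟨l0, hl0, e0⟩ := hs 0 (by norm_num)
    obtain ⟨l1, hl1, e1⟩ := hs 1 (by norm_num)
    constructor
    · have := all l0 hl0 k hk
      rw [← hm l0 hl0 k hk, e0] at this; exact this
    · have := all l1 hl1 k hk
      rw [← hm l1 hl1 k hk, e1] at this; exact this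

end

end CDM
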