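import Pool.Agent.Helper83.CDM.Dp

/-! The combinatorial system extracted from a contracted difference matrix. -/
namespace CDM

structure Sys (W X : ℕ → ℕ) (D : ℕ → ℕ → Prop) : Prop where
  W_lt : ∀ k < 4, W k < 64
  X_lt : ∀ k < 4, X k < 64
  dim : ∀ a, 0 < a → a < 16 → ∃ p q, 0 < p ∧ p < 64 ∧ 0 < q ∧ q < 64 ∧ p ≠ q ∧ ∀ z, D a z ↔ (z = p ∨ z = q ∨ z = p ^^^ q)
  add : ∀ a b y, 0 < a → a < 16 → 0 < b → b < 16 → a ≠ b → D a y → D b y → D (a ^^^ b) y
  small : ∀ a b c y, 0 < a → a < 16 → 0 < b → b < 16 → 0 < c → c < 16 → a ≠ b → c ≠ a → c ≠ b → c ≠ a ^^^ b →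
    D a y → D b y → D c y → False
  E4 : ∀ a l, 0 < a → a < 16 → l < 3 → ∃ y, D a y ∧ En W X l a y
  E5 : ∀ a y, 0 < a → a < 16 → D a y → ∃ l < 3, En W X l a y
  nz : ∀ a l, 0 < a → a < 16 → l < 3 → PW (mat W X l) a ≠ 0
  star : ∀ y, 0 < y → y < 64 → (∀ k < 4, dotB (W k) y = false ∧ dotB (X k) y = false) →
    ∃ a b, 0 < a ∧ a < 16 ∧ 0 < b ∧ b < 16 ∧ a ≠ b ∧ D a y ∧ D b y

namespace Sys
variable {W X : ℕ → ℕ} {D : ℕ → ℕ → Prop}

theorem xor_xor_self' (p q : ℕ) : p ^^^ (p ^^^ q) = q := by rw [← Nat.xor_assoc, Nat.xor_self, Nat.zero_xor]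
theorem xor_self_xor (p q : ℕ) : (p ^^^ q) ^^^ p = q := by rw [Nat.xor_comm, xor_xor_self']
theorem xor_xor_cancel (p q : ℕ) : (p ^^^ q) ^^^ q = p := by rw [Nat.xor_assoc, Nat.xor_self, Nat.xor_zero]
theorem xor_xor_cancel' (p q : ℕ) : q ^^^ (p ^^^ q) = p := by rw [Nat.xor_comm, xor_xor_cancel]
theorem xor_lt {x y : ℕ} (hx : x < 64) (hy : y < 64) : x ^^^ y < 64 := Nat.xor_lt_two_pow (n := 6) hx hy
theorem xor_lt16 {x y : ℕ} (hx : x < 16) (hy : y < 16) : x ^^^ y < 16 := Nat.xor_lt_two_pow (n := 4) hx hy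
theorem xor_pos {x y : ℕ} (h : x ≠ y) : 0 < x ^^^ y := by
  rcases Nat.eq_zero_or_pos (x ^^^ y) with h' | h'
  · exfalso
    apply h
    have := xor_xor_self' x y
    rw [h', Nat.xor_zero] at this
    exact this
  · exact h'

theorem bound (S : Sys W X D) {a z : ℕ} (ha : 0 < a) (ha' : a < 16) (h : D a z) : 0 < z ∧ z < 64 := by
  obtain ⟨p, q, hp, hp', hq, hq', hpq, H⟩ := S.dim a ha ha'
  rcases (H z).mp h with rfl | rfl | rfl
  · exact ⟨hp, hp'⟩
  · exact ⟨hq, hq'⟩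
  · exact ⟨xor_pos hpq, xor_lt hp' hq'⟩

/-- D_a is determined by two distinct elements -/
theorem all3 (S : Sys W X D) {a y y' : ℕ} (ha : 0 < a) (ha' : a < 16) (h : D a y) (h' : D a y') (hne : y ≠ y') (z : ℕ) :
    D a z ↔ (z = y ∨ z = y' ∨ z = y ^^^ y') := by
  obtain ⟨p, q, hp, hp', hq, hq', hpq, H⟩ := S.dim a ha ha'
  rw [H]
  rcases (H y).mp h with rfl | rfl | rfl <;> rcases (H y').mp h' with rfl | rfl | rfl <;>
    (try exact absurd rfl hne) <;>
    (try simp only [xor_xor_self', xor_self_xor, xor_xor_cancel, xor_xor_cancel']) <;>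
    first | tauto | (rw [Nat.xor_comm y' y]; tauto)

theorem clo (S : Sys W X D) {a y y' : ℕ} (ha : 0 < a) (ha' : a < 16) (h : D a y) (h' : D a y') (hne : y ≠ y') : D a (y ^^^ y') :=
  (S.all3 ha ha' h h' hne _).mpr (Or.inr (Or.inr rfl))

/-- D_a and D_15 xor a agree on D_15 -/
theorem compl_iff (S : Sys W X D) {a y : ℕ} (ha : 0 < a) (ha' : a < 15) (h : D 15 y) : D a y ↔ D (15 - a) y := by
  have key : ∀ a, 0 < a → a < 15 → 15 ^^^ a = 15 - a := by intro a h1 h2; interval_cases a <;> rfl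
  constructor
  · intro h1
    have := S.add 15 a y (by norm_num) (by norm_num) ha (by omega) (by omega) h h1
    rwa [key a ha ha'] at this
  · intro h1
    have := S.add 15 (15 - a) y (by norm_num) (by norm_num) (by omega) (by omega) (by omega) h h1
    rw [key (15 - a) (by omega) (by omega)] at this
    rwa [show 15 - (15 - a) = a by omega] at this

end Sys

/-- the traces of the sets D_b on D_15 = {y0, y1, y2} -/
noncomputable def trc (D : ℕ → ℕ → Prop) (y0 y1 y2 b : ℕ) : ℕ :=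
  open Classical in
  (if D b y0 then 1 else 0) + (if D b y1 then 2 else 0) + (if D b y2 then 4 else 0)

def reps : List ℕ := [1, 2, 4, 8, 3, 5, 6]

section
variable {W X : ℕ → ℕ} {D : ℕ → ℕ → Prop} {y0 y1 y2 : ℕ}

/-- the situation at a = 15 -/
structure Top (D : ℕ → ℕ → Prop) (y0 y1 y2 : ℕ) : Prop where
  ne : y0 ≠ y1
  e2 : y2 = y0 ^^^ y1
  h : ∀ z, D 15 z ↔ (z = y0 ∨ z = y1 ∨ z = y2)

theorem Top.h0 (T : Top D y0 y1 y2) : D 15 y0 := (T.h _).mpr (Or.inl rfl)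
theorem Top.h1 (T : Top D y0 y1 y2) : D 15 y1 := (T.h _).mpr (Or.inr (Or.inl rfl))
theorem Top.h2 (T : Top D y0 y1 y2) : D 15 y2 := (T.h _).mpr (Or.inr (Or.inr rfl))

/-- what is known for given trace -/
def StepOK (W X : ℕ → ℕ) (P : ℕ → Prop) (y0 y1 y2 a t : ℕ) : Prop :=
  (t = 0 ∧ ∀ l < 3, ∃ y, P y ∧ En W X l a y) ∨
  (t = 1 ∧ ∀ l < 3, (∃ y, P y ∧ En W X l a y) ∨ En W X l a y0) ∨
  (t = 2 ∧ ∀ l < 3, (∃ y, P y ∧ En W X l a y) ∨ En W X l a y1) ∨
  (t = 4 ∧ ∀ l < 3, (∃ y, P y ∧ En W X l a y) ∨ En W X l a y2) ∨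
  (t = 7 ∧ ∀ l < 3, En W X l a y0 ∨ En W X l a y1 ∨ En W X l a y2)

/-- the complement of D_15 -/
def offTop (y0 y1 y2 : ℕ) (y : ℕ) : Prop := 0 < y ∧ y < 64 ∧ y ≠ y0 ∧ y ≠ y1 ∧ y ≠ y2

theorem stepOK (S : Sys W X D) (T : Top D y0 y1 y2) {a : ℕ} (ha : 0 < a) (ha' : a < 15) :
    StepOK W X (offTop y0 y1 y2) y0 y1 y2 a (trc D y0 y1 y2 a) := by
  have hlt : a < 16 := by omega
  have hclo := fun {u v : ℕ} (h1 : D a u) (h2 : D a v) (h3 : u ≠ v) => S.clo ha hlt h1 h2 h3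
  have ne12 : y1 ≠ y2 := by
    rw [T.e2]; intro h
    have := (S.bound (by norm_num) (by norm_num) T.h0).1
    have h5 : y1 ^^^ y1 = y1 ^^^ (y0 ^^^ y1) := by rw [← h]
    rw [Nat.xor_self, Sys.xor_xor_cancel'] at h5
    omega
  have ne02 : y0 ≠ y2 := by
    rw [T.e2]; intro h
    have := (S.bound (by norm_num) (by norm_num) T.h1).1
    have h5 : y0 ^^^ y0 = y0 ^^^ (y0 ^^^ y1) := by rw [← h]
    rw [Nat.xor_self, Sys.xor_xor_self'] at h5
    omega
  have e01 : y0 ^^^ y1 = y2 := T.e2.symm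
  have e02 : y0 ^^^ y2 = y1 := by rw [T.e2, Sys.xor_xor_self']
  have e12 : y1 ^^^ y2 = y0 := by rw [T.e2, Sys.xor_xor_cancel']
  unfold StepOK trc
  by_cases h0 : D a y0 <;> by_cases h1 : D a y1 <;> by_cases h2 : D a y2 <;> simp only [h0, h1, h2, if_true, if_false]
  · -- all
    right; right; right; right
    refine ⟨by first | rfl | trivial, ?_⟩
    intro l hl
    obtain ⟨y, hy, hE⟩ := S.E4 a l ha hlt hl
    rcases (S.all3 ha hlt h0 h1 T.ne y).mp hy with rfl | rfl | rfl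
    · exact Or.inl hE
    · exact Or.inr (Or.inl hE)
    · rw [e01] at hE; exact Or.inr (Or.inr hE)
  · exact absurd (e01 ▸ hclo h0 h1 T.ne) h2
  · exact absurd (e02 ▸ hclo h0 h2 ne02) h1
  · right; left
    refine ⟨by first | rfl | trivial, ?_⟩
    intro l hl
    obtain ⟨y, hy, hE⟩ := S.E4 a l ha hlt hl
    by_cases hy0 : y = y0
    · subst hy0; exact Or.inr hE
    · left
      refine ⟨y, ⟨(S.bound ha hlt hy).1, (S.bound ha hlt hy).2, hy0, ?_, ?_⟩, hE⟩
      · rintro rfl; exact h1 hy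
      · rintro rfl; exact h2 hy
  · exact absurd (e12 ▸ hclo h1 h2 ne12) h0
  · right; right; left
    refine ⟨by first | rfl | trivial, ?_⟩
    intro l hl
    obtain ⟨y, hy, hE⟩ := S.E4 a l ha hlt hl
    by_cases hy0 : y = y1
    · subst hy0; exact Or.inr hE
    · left
      refine ⟨y, ⟨(S.bound ha hlt hy).1, (S.bound ha hlt hy).2, ?_, hy0, ?_⟩, hE⟩
      · rintro rfl; exact h0 hy
      · rintro rfl; exact h2 hy
  · right; right; right; left
    refine ⟨by first | rfl | trivial, ?_⟩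
    intro l hl
    obtain ⟨y, hy, hE⟩ := S.E4 a l ha hlt hl
    by_cases hy0 : y = y2
    · subst hy0; exact Or.inr hE
    · left
      refine ⟨y, ⟨(S.bound ha hlt hy).1, (S.bound ha hlt hy).2, ?_, ?_, hy0⟩, hE⟩
      · rintro rfl; exact h0 hy
      · rintro rfl; exact h1 hy
  · left
    refine ⟨by first | rfl | trivial, ?_⟩
    intro l hl
    obtain ⟨y, hy, hE⟩ := S.E4 a l ha hlt hl
    refine ⟨y, ⟨(S.bound ha hlt hy).1, (S.bound ha hlt hy).2, ?_, ?_, ?_⟩, hE⟩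
    · rintro rfl; exact h0 hy
    · rintro rfl; exact h1 hy
    · rintro rfl; exact h2 hy

theorem trc_compl (S : Sys W X D) (T : Top D y0 y1 y2) {a : ℕ} (ha : 0 < a) (ha' : a < 15) :
    trc D y0 y1 y2 (15 - a) = trc D y0 y1 y2 a := by
  unfold trc
  rw [S.compl_iff ha ha' T.h0, S.compl_iff ha ha' T.h1, S.compl_iff ha ha' T.h2]

theorem trc_disj (S : Sys W X D) (T : Top D y0 y1 y2) : reps.Pairwise (fun a b => trc D y0 y1 y2 a &&& trc D y0 y1 y2 b = 0) := by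
  have key : ∀ a ∈ reps, ∀ b ∈ reps, a ≠ b → ∀ y, D 15 y → D a y → D b y → False := by
    intro a ha b hb hab y h15 h1 h2
    have h3 : 0 < a ∧ a < 15 ∧ 0 < b ∧ b < 15 ∧ b ≠ 15 ^^^ a := by
      revert ha hb hab
      simp only [reps, List.mem_cons, List.not_mem_nil, or_false]
      rintro (rfl | rfl | rfl | rfl | rfl | rfl | rfl) (rfl | rfl | rfl | rfl | rfl | rfl | rfl) h <;> simp at h ⊢
    exact S.small 15 a b y (by norm_num) (by norm_num) h3.1 (by omega) h3.2.2.1 (by omega) (by omega) (by omega) (Ne.symm hab)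
      h3.2.2.2.2 h15 h1 h2
  have key2 : ∀ a ∈ reps, ∀ b ∈ reps, a ≠ b → trc D y0 y1 y2 a &&& trc D y0 y1 y2 b = 0 := by
    intro a ha b hb hab
    have k0 := key a ha b hb hab y0 T.h0
    have k1 := key a ha b hb hab y1 T.h1
    have k2 := key a ha b hb hab y2 T.h2
    unfold trc
    by_cases a0 : D a y0 <;> by_cases a1 : D a y1 <;> by_cases a2 : D a y2 <;> by_cases b0 : D b y0 <;>
      by_cases b1 : D b y1 <;> by_cases b2 : D b y2 <;> simp only [a0, a1, a2, b0, b1, b2, if_true, if_false] <;>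
      first | rfl | exact (k0 a0 b0).elim | exact (k1 a1 b1).elim | exact (k2 a2 b2).elim
  have nd : reps.Nodup := by decide
  exact List.Pairwise.imp_of_mem (fun {a b} ha hb hab => key2 a ha b hb hab) nd

theorem trc_star (S : Sys W X D) (T : Top D y0 y1 y2) (h : ∀ k < 4, dotB (W k) y0 = false ∧ dotB (X k) y0 = false) :
    ∃ b ∈ reps, (trc D y0 y1 y2 b).testBit 0 = true := by
  have hb := S.bound (by norm_num) (by norm_num) T.h0
  obtain ⟨a, b, ha, ha', hb, hb', hab, h1, h2⟩ := S.star y0 hb.1 hb.2 h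
  have key : ∀ c, 0 < c → c < 15 → D c y0 → ∃ b ∈ reps, (trc D y0 y1 y2 b).testBit 0 = true := by
    intro c hc hc' hD
    have hm : c ∈ reps ∨ (15 - c) ∈ reps := by
      interval_cases c <;> decide
    have ht : ∀ c, D c y0 → (trc D y0 y1 y2 c).testBit 0 = true := by
      intro c hc
      unfold trc
      by_cases a1 : D c y1 <;> by_cases a2 : D c y2 <;> simp only [hc, a1, a2, if_true, if_false] <;> rfl
    rcases hm with hm | hm
    · exact ⟨c, hm, ht c hD⟩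
    · exact ⟨15 - c, hm, ht _ ((S.compl_iff hc hc' T.h0).mp hD)⟩
  by_cases h15 : a = 15
  · exact key b hb (by omega) h2
  · exact key a ha (by omega) h1

end

end CDM
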