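import Pool.Agent.Helper83.CDM.Sem

/-! Semantics of the truth tables. -/
namespace CDM

theorem t_full {i : ℕ} (h : i < 65536) : full.testBit i = true := by
  have e : ∀ n : ℕ, Nat.sub (Nat.pow 2 n) 1 = 2 ^ n - 1 := fun _ => rfl
  unfold full
  rw [e, Nat.testBit_two_pow_sub_one]; simpa using h

theorem dbl_step (k m : ℕ) (hk : k < m) (x : ℕ) (hx : ∀ i, x.testBit i = (decide (i < 2 ^ m) && i.testBit k)) (i : ℕ) :
    (Nat.lor x (Nat.shiftLeft x (2 ^ m))).testBit i = (decide (i < 2 ^ (m + 1)) && i.testBit k) := by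
  have e : Nat.shiftLeft x (2 ^ m) = x <<< (2 ^ m) := rfl
  rw [t_lor, e, Nat.testBit_shiftLeft, hx, hx]
  by_cases h1 : i < 2 ^ m
  · have h2 : i < 2 ^ (m + 1) := by rw [pow_succ]; omega
    have h3 : ¬ (i ≥ 2 ^ m) := by omega
    simp [h1, h2]
  · by_cases h2 : i < 2 ^ (m + 1)
    · have h3 : i ≥ 2 ^ m := by omega
      have h4 : i - 2 ^ m < 2 ^ m := by rw [pow_succ] at h2; omega
      have h5 : i.testBit k = (i - 2 ^ m).testBit k := by
        conv_lhs => rw [← Nat.add_sub_of_le h3]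
        exact Nat.testBit_two_pow_add_gt hk _
      simp [h1, h2, h4, h5]
      intro _; exact h3
    · have h4 : ¬ (i - 2 ^ m < 2 ^ m) := by rw [pow_succ] at h2; omega
      simp [h1, h2, h4]

theorem dbl_spec (k n : ℕ) : ∀ (m : ℕ), k < m → ∀ x : ℕ, (∀ i, x.testBit i = (decide (i < 2 ^ m) && i.testBit k)) →
    ∀ i, (dbl n (2 ^ m) x).testBit i = (decide (i < 2 ^ (m + n)) && i.testBit k) := by
  induction n with
  | zero => intro m _ x hx i; exact hx i
  | succ n ih =>
    intro m hm x hx i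
    show (dbl n (2 * 2 ^ m) (Nat.lor x (Nat.shiftLeft x (2 ^ m)))).testBit i = _
    rw [← pow_succ']
    rw [ih (m + 1) (by omega) _ (dbl_step k m hm x hx) i]
    congr 3
    ring

theorem t_V {k i : ℕ} (hk : k < 16) (hi : i < 65536) : (V k).testBit i = i.testBit k := by
  have h := dbl_spec k (15 - k) (k + 1) (by omega) (Nat.shiftLeft (2 ^ (2 ^ k) - 1) (2 ^ k)) (by
    intro i
    have e : Nat.shiftLeft (2 ^ (2 ^ k) - 1) (2 ^ k) = (2 ^ (2 ^ k) - 1) <<< (2 ^ k) := rfl
    rw [e, Nat.testBit_shiftLeft, Nat.testBit_two_pow_sub_one]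
    by_cases h1 : i < 2 ^ (k + 1)
    · by_cases h2 : i ≥ 2 ^ k
      · have h3 : i - 2 ^ k < 2 ^ k := by rw [pow_succ] at h1; omega
        have h4 : i.testBit k = true := by
          rw [Nat.testBit_eq_decide_div_mod_eq]
          have : i / 2 ^ k = 1 := by
            apply Nat.div_eq_of_lt_le
            · omega
            · rw [pow_succ] at h1; omega
          simp [this]
        simp [h1, h2, h3, h4]
      · have h4 : i.testBit k = false := Nat.testBit_lt_two_pow (by omega)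
        simp [h4]; intro h; omega
    · have h3 : ¬ (i - 2 ^ k < 2 ^ k) := by rw [pow_succ] at h1; omega
      simp [h1, h3]) i
  have e1 : V k = dbl (15 - k) (2 ^ (k + 1)) (Nat.shiftLeft (2 ^ (2 ^ k) - 1) (2 ^ k)) := rfl
  rw [e1, h]
  have : k + 1 + (15 - k) = 16 := by omega
  rw [this]
  simp [hi]

/-- the scalar product of two words -/
def dotB (w y : ℕ) : Bool :=
  (w.testBit 0 && y.testBit 0) ^^ ((w.testBit 1 && y.testBit 1) ^^ ((w.testBit 2 && y.testBit 2) ^^
  ((w.testBit 3 && y.testBit 3) ^^ ((w.testBit 4 && y.testBit 4) ^^ (w.testBit 5 && y.testBit 5)))))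

theorem dot_eq {w : ℕ} (hw : w < 64) (y : ℕ) : dot w y = dotB w y := by
  have h : ∀ z < 64, tb PAR z = (z.testBit 0 ^^ (z.testBit 1 ^^ (z.testBit 2 ^^ (z.testBit 3 ^^ (z.testBit 4 ^^ z.testBit 5))))) := by
    decide +kernel
  have h2 : w &&& y < 64 := lt_of_le_of_lt Nat.and_le_left hw
  have := h _ h2
  simp only [Nat.testBit_and] at this
  exact this

theorem dotB_xor (w w' y : ℕ) : dotB (w ^^^ w') y = (dotB w y ^^ dotB w' y) := by
  simp only [dotB, Nat.testBit_xor]
  generalize w.testBit 0 = a0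
  generalize w.testBit 1 = a1
  generalize w.testBit 2 = a2
  generalize w.testBit 3 = a3
  generalize w.testBit 4 = a4
  generalize w.testBit 5 = a5
  generalize w'.testBit 0 = b0
  generalize w'.testBit 1 = b1
  generalize w'.testBit 2 = b2
  generalize w'.testBit 3 = b3
  generalize w'.testBit 4 = b4
  generalize w'.testBit 5 = b5
  cases y.testBit 0 <;> cases y.testBit 1 <;> cases y.testBit 2 <;> cases y.testBit 3 <;> cases y.testBit 4 <;>
    cases y.testBit 5 <;>
    simp only [Bool.and_true, Bool.and_false, Bool.xor_false, Bool.false_xor] <;> simp only [Bool.xor_comm, Bool.xor_left_comm]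

theorem dotB_comm (w y : ℕ) : dotB w y = dotB y w := by
  simp only [dotB, Bool.and_comm]

@[simp] theorem dotB_zero (y : ℕ) : dotB 0 y = false := by simp [dotB]
@[simp] theorem dotB_zero' (y : ℕ) : dotB y 0 = false := by simp [dotB]

theorem dotB_xor' (w y y' : ℕ) : dotB w (y ^^^ y') = (dotB w y ^^ dotB w y') := by
  rw [dotB_comm, dotB_xor, dotB_comm y, dotB_comm y']

/-! rows -/
/-- rows of the sum over a -/
noncomputable def PW (W : ℕ → ℕ) (a : ℕ) : ℕ := rsum (rx a (W 0) (W 1) (W 2) (W 3))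

theorem PW_eq (W : ℕ → ℕ) (a : ℕ) : PW W a =
    (if a.testBit 0 = true then W 0 else 0) ^^^ ((if a.testBit 1 = true then W 1 else 0) ^^^
    ((if a.testBit 2 = true then W 2 else 0) ^^^ (if a.testBit 3 = true then W 3 else 0))) := by
  unfold PW rx
  rw [tb_eq, tb_eq, tb_eq, tb_eq]
  cases a.testBit 0 <;> cases a.testBit 1 <;> cases a.testBit 2 <;> cases a.testBit 3 <;>
    simp only [if_true, if_false, Bool.false_eq_true, Nat.zero_xor, Nat.xor_zero] <;> first | rfl | exact (Nat.xor_zero _) | skip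
  all_goals
    simp only [rsum]
    first
    | rfl
    | (show Nat.xor _ _ = _; simp only [show ∀ x y, Nat.xor x y = x ^^^ y from fun _ _ => rfl, Nat.xor_zero])

theorem t_PW (W : ℕ → ℕ) (a j : ℕ) : (PW W a).testBit j =
    ((a.testBit 0 && (W 0).testBit j) ^^ ((a.testBit 1 && (W 1).testBit j) ^^
    ((a.testBit 2 && (W 2).testBit j) ^^ (a.testBit 3 && (W 3).testBit j)))) := by
  rw [PW_eq, Nat.testBit_xor, Nat.testBit_xor, Nat.testBit_xor]
  cases a.testBit 0 <;> cases a.testBit 1 <;> cases a.testBit 2 <;> cases a.testBit 3 <;> simp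

theorem dotB_PW (W : ℕ → ℕ) (a y : ℕ) : dotB (PW W a) y =
    ((a.testBit 0 && dotB (W 0) y) ^^ ((a.testBit 1 && dotB (W 1) y) ^^
    ((a.testBit 2 && dotB (W 2) y) ^^ (a.testBit 3 && dotB (W 3) y)))) := by
  rw [PW_eq, dotB_xor, dotB_xor, dotB_xor]
  cases a.testBit 0 <;> cases a.testBit 1 <;> cases a.testBit 2 <;> cases a.testBit 3 <;> simp

theorem PW_lt {W : ℕ → ℕ} (h : ∀ k < 4, W k < 64) (a : ℕ) : PW W a < 64 := by
  rw [PW_eq]
  have h0 := h 0 (by norm_num); have h1 := h 1 (by norm_num); have h2 := h 2 (by norm_num); have h3 := h 3 (by norm_num)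
  have key : ∀ x y : ℕ, x < 64 → y < 64 → x ^^^ y < 64 := fun x y hx hy => Nat.xor_lt_two_pow (n := 6) hx hy
  refine key _ _ ?_ (key _ _ ?_ (key _ _ ?_ ?_)) <;> split_ifs <;> first | assumption | norm_num

end CDM
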