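import Pool.Agent.Helper83.CDM.Sw

/-! Minimal configurations. -/
namespace CDM

def pc (y : ℕ) : ℕ := (y.testBit 0).toNat + (y.testBit 1).toNat + (y.testBit 2).toNat + (y.testBit 3).toNat +
  (y.testBit 4).toNat + (y.testBit 5).toNat

theorem pc_sw : ∀ j < 5, ∀ y < 64, pc (sw j y) = pc y := by decide +kernel
theorem pc_lt (y : ℕ) : pc y < 8 := by
  have := fun j => Bool.toNat_le (y.testBit j)
  have h0 := this 0; have h1 := this 1; have h2 := this 2; have h3 := this 3; have h4 := this 4; have h5 := this 5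
  unfold pc; omega

/-- the scalar products with y as a number -/
def sgm (W : ℕ → ℕ) (y : ℕ) : ℕ := (dotB (W 0) y).toNat + 2 * (dotB (W 1) y).toNat + 4 * (dotB (W 2) y).toNat + 8 * (dotB (W 3) y).toNat

theorem sgm_lt (W : ℕ → ℕ) (y : ℕ) : sgm W y < 16 := by
  unfold sgm
  have h0 := Bool.toNat_le (dotB (W 0) y); have h1 := Bool.toNat_le (dotB (W 1) y)
  have h2 := Bool.toNat_le (dotB (W 2) y); have h3 := Bool.toNat_le (dotB (W 3) y)
  omega

theorem t_sgm (W : ℕ → ℕ) (y : ℕ) {k : ℕ} (hk : k < 4) : (sgm W y).testBit k = dotB (W k) y := by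
  unfold sgm
  interval_cases k <;> cases dotB (W 0) y <;> cases dotB (W 1) y <;> cases dotB (W 2) y <;> cases dotB (W 3) y <;> rfl

theorem sgm_row (W : ℕ → ℕ) (y : ℕ) {k0 : ℕ} (h0 : k0 < 3) : sgm (fun k => W (sx k0 k)) y = sw k0 (sgm W y) := by
  apply Nat.eq_of_testBit_eq
  intro j
  by_cases hj : j < 4
  · rw [t_sgm _ _ hj, t_sw, t_sgm _ _ (sx_lt h0 hj)]
  · have hp : 2 ^ 4 ≤ 2 ^ j := Nat.pow_le_pow_right (by norm_num) (by omega)
    rw [Nat.testBit_lt_two_pow (lt_of_lt_of_le (sgm_lt _ _) hp),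
      Nat.testBit_lt_two_pow (lt_of_lt_of_le (sw16 k0 h0 _ (sgm_lt _ _)).1 hp)]

def enc (p q u v s a b c d : ℕ) : ℕ := (((((((p * 8 + q) * 64 + u) * 64 + v) * 16 + s) * 64 + a) * 64 + b) * 64 + c) * 64 + d

section
variable {W X : ℕ → ℕ} {D : ℕ → ℕ → Prop} {y0 y1 : ℕ}

theorem sw_dot' {j : ℕ} (hj : j < 5) (hW : ∀ k < 4, W k < 64) {y : ℕ} (hy : y < 64) : sgm (fun k => sw j (W k)) (sw j y) = sgm W y := by
  unfold sgm
  rw [sw_dot hj (hW 0 (by norm_num)) hy, sw_dot hj (hW 1 (by norm_num)) hy, sw_dot hj (hW 2 (by norm_num)) hy,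
    sw_dot hj (hW 3 (by norm_num)) hy]

/-- comparison of a word with its image -/
theorem sw_cmp : ∀ j < 5, ∀ w < 64, (w.testBit j = w.testBit (j + 1) → sw j w = w) ∧
    (w.testBit j = true → w.testBit (j + 1) = false → w < sw j w) ∧
    (w.testBit j = false → w.testBit (j + 1) = true → sw j w < w) := by decide +kernel

theorem ge_of_lex {j : ℕ} (hj : j < 5) (hW : ∀ k < 4, W k < 64)
    (h : ((W 0 * 64 + W 1) * 64 + W 2) * 64 + W 3 ≤ ((sw j (W 0) * 64 + sw j (W 1)) * 64 + sw j (W 2)) * 64 + sw j (W 3)) :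
    geB W j (j + 1) = true := by
  have H := fun k hk => sw_cmp j hj (W k) (hW k hk)
  have L := fun k hk => sw_lt j hj (W k) (hW k hk)
  have H0 := H 0 (by norm_num); have H1 := H 1 (by norm_num); have H2 := H 2 (by norm_num); have H3 := H 3 (by norm_num)
  have L0 := L 0 (by norm_num); have L1 := L 1 (by norm_num); have L2 := L 2 (by norm_num); have L3 := L 3 (by norm_num)
  have M0 := hW 0 (by norm_num); have M1 := hW 1 (by norm_num); have M2 := hW 2 (by norm_num); have M3 := hW 3 (by norm_num)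
  clear H L hW
  unfold geB
  revert H0
  cases (W 0).testBit j <;> cases (W 0).testBit (j + 1) <;> intro H0
  · have h0 := H0.1 rfl
    clear H0
    revert H1
    cases (W 1).testBit j <;> cases (W 1).testBit (j + 1) <;> intro H1
    · have h1 := H1.1 rfl
      clear H1
      revert H2
      cases (W 2).testBit j <;> cases (W 2).testBit (j + 1) <;> intro H2
      · have h2 := H2.1 rfl
        clear H2
        revert H3
        cases (W 3).testBit j <;> cases (W 3).testBit (j + 1) <;> intro H3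
        · rfl
        · have := H3.2.2 rfl rfl; omega
        · rfl
        · rfl
      · have := H2.2.2 rfl rfl; omega
      · rfl
      · have h2 := H2.1 rfl
        clear H2
        revert H3
        cases (W 3).testBit j <;> cases (W 3).testBit (j + 1) <;> intro H3
        · rfl
        · have := H3.2.2 rfl rfl; omega
        · rfl
        · rfl
    · have := H1.2.2 rfl rfl; omega
    · rfl
    · have h1 := H1.1 rfl
      clear H1
      revert H2
      cases (W 2).testBit j <;> cases (W 2).testBit (j + 1) <;> intro H2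
      · have h2 := H2.1 rfl
        clear H2
        revert H3
        cases (W 3).testBit j <;> cases (W 3).testBit (j + 1) <;> intro H3
        · rfl
        · have := H3.2.2 rfl rfl; omega
        · rfl
        · rfl
      · have := H2.2.2 rfl rfl; omega
      · rfl
      · have h2 := H2.1 rfl
        clear H2
        revert H3
        cases (W 3).testBit j <;> cases (W 3).testBit (j + 1) <;> intro H3
        · rfl
        · have := H3.2.2 rfl rfl; omega
        · rfl
        · rfl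
  · have := H0.2.2 rfl rfl; omega
  · rfl
  · have h0 := H0.1 rfl
    clear H0
    revert H1
    cases (W 1).testBit j <;> cases (W 1).testBit (j + 1) <;> intro H1
    · have h1 := H1.1 rfl
      clear H1
      revert H2
      cases (W 2).testBit j <;> cases (W 2).testBit (j + 1) <;> intro H2
      · have h2 := H2.1 rfl
        clear H2
        revert H3
        cases (W 3).testBit j <;> cases (W 3).testBit (j + 1) <;> intro H3
        · rfl
        · have := H3.2.2 rfl rfl; omega
        · rfl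
        · rfl
      · have := H2.2.2 rfl rfl; omega
      · rfl
      · have h2 := H2.1 rfl
        clear H2
        revert H3
        cases (W 3).testBit j <;> cases (W 3).testBit (j + 1) <;> intro H3
        · rfl
        · have := H3.2.2 rfl rfl; omega
        · rfl
        · rfl
    · have := H1.2.2 rfl rfl; omega
    · rfl
    · have h1 := H1.1 rfl
      clear H1
      revert H2
      cases (W 2).testBit j <;> cases (W 2).testBit (j + 1) <;> intro H2
      · have h2 := H2.1 rfl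
        clear H2
        revert H3
        cases (W 3).testBit j <;> cases (W 3).testBit (j + 1) <;> intro H3
        · rfl
        · have := H3.2.2 rfl rfl; omega
        · rfl
        · rfl
      · have := H2.2.2 rfl rfl; omega
      · rfl
      · have h2 := H2.1 rfl
        clear H2
        revert H3
        cases (W 3).testBit j <;> cases (W 3).testBit (j + 1) <;> intro H3
        · rfl
        · have := H3.2.2 rfl rfl; omega
        · rfl
        · rfl

/-- configurations of type T -/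
structure ConfT (W X : ℕ → ℕ) (D : ℕ → ℕ → Prop) (y0 y1 : ℕ) : Prop where
  S : Sys W X D
  top : Top D y0 y1 (y0 ^^^ y1)
  e0 : En W X 0 15 y0
  e1 : En W X 1 15 y1
  e2 : En W X 2 15 (y0 ^^^ y1)
  ne : ∃ k < 4, dotB (W k) y1 = true

/-- configurations of type I -/
structure ConfI (W X : ℕ → ℕ) (D : ℕ → ℕ → Prop) (y0 y1 : ℕ) : Prop where
  S : Sys W X D
  top : Top D y0 y1 (y0 ^^^ y1)
  e0 : ∀ l < 3, En W X l 15 y0
  e1 : En W X 0 15 y1

theorem Top.b0 (S : Sys W X D) (T : Top D y0 y1 (y0 ^^^ y1)) : 0 < y0 ∧ y0 < 64 := S.bound (by norm_num) (by norm_num) T.h0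
theorem Top.b1 (S : Sys W X D) (T : Top D y0 y1 (y0 ^^^ y1)) : 0 < y1 ∧ y1 < 64 := S.bound (by norm_num) (by norm_num) T.h1

theorem t15 {k : ℕ} (hk : k < 4) : (15 : ℕ).testBit k = true := by interval_cases k <;> rfl

theorem top_col (S : Sys W X D) (T : Top D y0 y1 (y0 ^^^ y1)) {j : ℕ} (hj : j < 5) :
    Top (fun a y => y < 64 ∧ D a (sw j y)) (sw j y0) (sw j y1) (sw j y0 ^^^ sw j y1) := by
  have b0 := T.b0 S; have b1 := T.b1 S
  refine ⟨fun h => T.ne (sw_inj hj b0.2 b1.2 h), rfl, ?_⟩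
  intro z
  have hx := sw_xor j hj y0 b0.2 y1 b1.2
  rw [← hx]
  rw [T.h]
  have b2 : y0 ^^^ y1 < 64 := Sys.xor_lt b0.2 b1.2
  constructor
  · rintro ⟨hz, h⟩
    have hzz := sw_sw j hj z hz
    rcases h with h | h | h <;> rw [h] at hzz <;> simp [hzz]
  · rintro (rfl | rfl | rfl)
    · exact ⟨sw_lt j hj _ b0.2, Or.inl (sw_sw j hj _ b0.2)⟩
    · exact ⟨sw_lt j hj _ b1.2, Or.inr (Or.inl (sw_sw j hj _ b1.2))⟩
    · exact ⟨sw_lt j hj _ b2, Or.inr (Or.inr (sw_sw j hj _ b2))⟩

theorem top_row (T : Top D y0 y1 (y0 ^^^ y1)) {k0 : ℕ} (h0 : k0 < 3) :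
    Top (fun a y => D (sw k0 a) y) y0 y1 (y0 ^^^ y1) := by
  refine ⟨T.ne, rfl, ?_⟩
  intro z
  have : sw k0 15 = 15 := by interval_cases k0 <;> rfl
  show D (sw k0 15) z ↔ _
  rw [this]; exact T.h z

theorem sw15 {k0 : ℕ} (h0 : k0 < 3) : sw k0 15 = 15 := by interval_cases k0 <;> rfl

theorem confT_col (C : ConfT W X D y0 y1) {j : ℕ} (hj : j < 5) :
    ConfT (fun k => sw j (W k)) (fun k => sw j (X k)) (fun a y => y < 64 ∧ D a (sw j y)) (sw j y0) (sw j y1) := by
  have b0 := C.top.b0 C.S; have b1 := C.top.b1 C.S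
  have hx := sw_xor j hj y0 b0.2 y1 b1.2
  refine ⟨sys_col C.S hj, top_col C.S C.top hj, En_sw hj C.S.W_lt C.S.X_lt (by norm_num) b0.2 C.e0,
    En_sw hj C.S.W_lt C.S.X_lt (by norm_num) b1.2 C.e1, ?_, ?_⟩
  · rw [← hx]; exact En_sw hj C.S.W_lt C.S.X_lt (by norm_num) (Sys.xor_lt b0.2 b1.2) C.e2
  · obtain ⟨k, hk, h⟩ := C.ne
    exact ⟨k, hk, by rw [sw_dot hj (C.S.W_lt k hk) b1.2]; exact h⟩

theorem confI_col (C : ConfI W X D y0 y1) {j : ℕ} (hj : j < 5) :
    ConfI (fun k => sw j (W k)) (fun k => sw j (X k)) (fun a y => y < 64 ∧ D a (sw j y)) (sw j y0) (sw j y1) := by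
  have b0 := C.top.b0 C.S; have b1 := C.top.b1 C.S
  exact ⟨sys_col C.S hj, top_col C.S C.top hj, fun l hl => En_sw hj C.S.W_lt C.S.X_lt hl b0.2 (C.e0 l hl),
    En_sw hj C.S.W_lt C.S.X_lt (by norm_num) b1.2 C.e1⟩

theorem confT_row (C : ConfT W X D y0 y1) {k0 : ℕ} (h0 : k0 < 3) :
    ConfT (fun k => W (sx k0 k)) (fun k => X (sx k0 k)) (fun a y => D (sw k0 a) y) y0 y1 := by
  refine ⟨sys_row C.S h0, top_row C.top h0, En_row h0 (by norm_num) (by norm_num) ?_, En_row h0 (by norm_num) (by norm_num) ?_,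
    En_row h0 (by norm_num) (by norm_num) ?_, ?_⟩
  · rw [sw15 h0]; exact C.e0
  · rw [sw15 h0]; exact C.e1
  · rw [sw15 h0]; exact C.e2
  · obtain ⟨k, hk, h⟩ := C.ne
    exact ⟨sx k0 k, sx_lt h0 hk, by simp only [sx_sx]; exact h⟩

theorem confI_row (C : ConfI W X D y0 y1) {k0 : ℕ} (h0 : k0 < 3) :
    ConfI (fun k => W (sx k0 k)) (fun k => X (sx k0 k)) (fun a y => D (sw k0 a) y) y0 y1 := by
  refine ⟨sys_row C.S h0, top_row C.top h0, fun l hl => En_row h0 hl (by norm_num) ?_, En_row h0 (by norm_num) (by norm_num) ?_⟩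
  · rw [sw15 h0]; exact C.e0 l hl
  · rw [sw15 h0]; exact C.e1

/-- relabelling: exchange of 0 and 1 -/
theorem rel01 {l k : ℕ} (hl : l < 3) : mat W X (if l = 0 then 1 else if l = 1 then 0 else 2) k = mat X W l k := by
  interval_cases l
  · rfl
  · rfl
  · exact Nat.xor_comm _ _

/-- relabelling: exchange of 1 and 2 -/
theorem rel12 {l k : ℕ} (hl : l < 3) : mat W X (if l = 0 then 0 else if l = 1 then 2 else 1) k = mat W (fun k => W k ^^^ X k) l k := by
  interval_cases l
  · rfl
  · rfl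
  · exact (Sys.xor_xor_self' _ _).symm

theorem sys01 (S : Sys W X D) : Sys X W D :=
  sys_rel S (π := fun l => if l = 0 then 1 else if l = 1 then 0 else 2) (by decide) (by decide) (fun l hl k _ => rel01 hl)

theorem sys12 (S : Sys W X D) : Sys W (fun k => W k ^^^ X k) D :=
  sys_rel S (π := fun l => if l = 0 then 0 else if l = 1 then 2 else 1) (by decide) (by decide) (fun l hl k _ => rel12 hl)

theorem En01 {l a y : ℕ} (hl : l < 3) (h : En W X (if l = 0 then 1 else if l = 1 then 0 else 2) a y) : En X W l a y :=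
  En_rel (π := fun l => if l = 0 then 1 else if l = 1 then 0 else 2) (by decide) (fun l hl k _ => rel01 hl) hl h

theorem En12 {l a y : ℕ} (hl : l < 3) (h : En W X (if l = 0 then 0 else if l = 1 then 2 else 1) a y) :
    En W (fun k => W k ^^^ X k) l a y :=
  En_rel (π := fun l => if l = 0 then 0 else if l = 1 then 2 else 1) (by decide) (fun l hl k _ => rel12 hl) hl h

theorem ConfT.dW0 (C : ConfT W X D y0 y1) : ∀ k < 4, dotB (W k) y0 = false := fun k hk => C.e0.ev.d k hk (t15 hk)
theorem ConfT.dX1 (C : ConfT W X D y0 y1) : ∀ k < 4, dotB (X k) y1 = false := fun k hk => C.e1.ev.d k hk (t15 hk)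
theorem ConfT.sig (C : ConfT W X D y0 y1) : ∀ k < 4, dotB (X k) y0 = dotB (W k) y1 := by
  intro k hk
  have h : dotB (W k ^^^ X k) (y0 ^^^ y1) = false := C.e2.ev.d k hk (t15 hk)
  rw [dotB_xor, dotB_xor', dotB_xor', C.dW0 k hk, C.dX1 k hk] at h
  revert h
  cases dotB (X k) y0 <;> cases dotB (W k) y1 <;> simp

/-- the sums vanish on the support -/
theorem ConfT.supp (C : ConfT W X D y0 y1) : PW W 15 &&& (y0 ||| y1) = 0 ∧ PW X 15 &&& (y0 ||| y1) = 0 := by
  have h0 : PW W 15 &&& y0 = 0 := C.e0.ev.z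
  have h1 : PW X 15 &&& y1 = 0 := C.e1.ev.z
  have h2 : (PW W 15 ^^^ PW X 15) &&& (y0 ^^^ y1) = 0 := by rw [← PW_xor]; exact C.e2.ev.z
  have key : ∀ j, ((PW W 15).testBit j && (y0.testBit j || y1.testBit j)) = false ∧
      ((PW X 15).testBit j && (y0.testBit j || y1.testBit j)) = false := by
    intro j
    have g0 := congrArg (fun z => Nat.testBit z j) h0
    have g1 := congrArg (fun z => Nat.testBit z j) h1
    have g2 := congrArg (fun z => Nat.testBit z j) h2
    simp only [Nat.testBit_and, Nat.testBit_xor, Nat.zero_testBit] at g0 g1 g2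
    revert g0 g1 g2
    cases (PW W 15).testBit j <;> cases (PW X 15).testBit j <;> cases y0.testBit j <;> cases y1.testBit j <;> simp
  constructor
  · apply Nat.eq_of_testBit_eq; intro j
    simp only [Nat.testBit_and, Nat.testBit_or, Nat.zero_testBit]; exact (key j).1
  · apply Nat.eq_of_testBit_eq; intro j
    simp only [Nat.testBit_and, Nat.testBit_or, Nat.zero_testBit]; exact (key j).2

theorem confT_01 (C : ConfT W X D y0 y1) : ConfT X W D y1 y0 := by
  refine ⟨sys01 C.S, ⟨Ne.symm C.top.ne, rfl, ?_⟩, En01 (by norm_num) C.e1, En01 (by norm_num) C.e0, ?_, ?_⟩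
  · intro z; rw [C.top.h, Nat.xor_comm y1]; tauto
  · rw [Nat.xor_comm]; exact En01 (by norm_num) C.e2
  · obtain ⟨k, hk, h⟩ := C.ne
    exact ⟨k, hk, by rw [C.sig k hk]; exact h⟩

theorem confT_12 (C : ConfT W X D y0 y1) : ConfT W (fun k => W k ^^^ X k) D y0 (y0 ^^^ y1) := by
  have b1 := C.top.b1 C.S
  have hne : y0 ≠ y0 ^^^ y1 := by
    intro h
    have := Sys.xor_xor_self' y0 y1
    rw [← h, Nat.xor_self] at this; omega
  have e : y0 ^^^ (y0 ^^^ y1) = y1 := Sys.xor_xor_self' _ _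
  refine ⟨sys12 C.S, ⟨hne, rfl, ?_⟩, En12 (by norm_num) C.e0, En12 (by norm_num) C.e2, ?_, ?_⟩
  · intro z; rw [e, C.top.h]; tauto
  · rw [e]; exact En12 (by norm_num) C.e1
  · obtain ⟨k, hk, h⟩ := C.ne
    exact ⟨k, hk, by rw [dotB_xor', C.dW0 k hk, h]; rfl⟩

end

end CDM
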